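import Mathlib

/-! Second-order arithmetic: terms and arithmetical formulas, their meaning in a structure
`(N, S, 0, 1, +, *, <)`, where `S` is a set of subsets of `N`; the systems `RCA₀` and `ACA₀`;
Hindman's theorem for two colours and sums of at most two terms. -/

namespace Pool.Agent.Helper7.RM

universe u

/-- Number terms. `var i` is the `i`-th number variable (de Bruijn indices). -/
inductive Tm : Type
  | var : ℕ → Tm
  | zero : Tm
  | one : Tm
  | add : Tm → Tm → Tm
  | mul : Tm → Tm → Tm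

/-- Arithmetical formulas: no set quantifiers; `mem t i` says that `t` belongs to the `i`-th
set variable. The quantifiers `ball t φ` (for all `x < t`), `all φ` and `ex φ` bind the number
variable `0` of `φ`. -/
inductive Fm : Type
  | eq : Tm → Tm → Fm
  | lt : Tm → Tm → Fm
  | mem : Tm → ℕ → Fm
  | neg : Fm → Fm
  | and : Fm → Fm → Fm
  | ball : Tm → Fm → Fm
  | all : Fm → Fm
  | ex : Fm → Fm

/-- Formulas all of whose quantifiers are bounded. -/
def Fm.Bounded : Fm → Prop
  | .eq _ _ => True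
  | .lt _ _ => True
  | .mem _ _ => True
  | .neg φ => φ.Bounded
  | .and φ ψ => φ.Bounded ∧ ψ.Bounded
  | .ball _ φ => φ.Bounded
  | .all _ => False
  | .ex _ => False

/-- The valuation `a, v 0, v 1, …`. -/
def cons {N : Type u} (a : N) (v : ℕ → N) : ℕ → N
  | 0 => a
  | i + 1 => v i

section semantics

variable {N : Type u} [Zero N] [One N] [Add N] [Mul N]

/-- Value of a term. -/
def Tm.val (v : ℕ → N) : Tm → N
  | .var i => v i
  | .zero => 0
  | .one => 1
  | .add s t => s.val v + t.val v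
  | .mul s t => s.val v * t.val v

/-- Truth of a formula, for the values `v` of the number variables and `V` of the set
variables. -/
def Fm.Sat [LT N] (v : ℕ → N) (V : ℕ → Set N) : Fm → Prop
  | .eq s t => s.val v = t.val v
  | .lt s t => s.val v < t.val v
  | .mem t i => t.val v ∈ V i
  | .neg φ => ¬ φ.Sat v V
  | .and φ ψ => φ.Sat v V ∧ ψ.Sat v V
  | .ball t φ => ∀ a : N, a < t.val v → φ.Sat (cons a v) V
  | .all φ => ∀ a : N, φ.Sat (cons a v) V
  | .ex φ => ∃ a : N, φ.Sat (cons a v) V

end semantics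

/-- `(N, S)` is a model of `RCA₀`: the basic axioms, induction for `Σ⁰₁` formulas and
comprehension for `Δ⁰₁` properties (number and set parameters allowed). -/
class RCA0 (N : Type u) [Zero N] [One N] [Add N] [Mul N] [LT N] (S : Set (Set N)) : Prop where
  sets_nonempty : S.Nonempty
  succ_ne_zero : ∀ n : N, n + 1 ≠ 0
  succ_inj : ∀ m n : N, m + 1 = n + 1 → m = n
  add_zero : ∀ m : N, m + 0 = m
  add_succ : ∀ m n : N, m + (n + 1) = (m + n) + 1
  mul_zero : ∀ m : N, m * 0 = 0
  mul_succ : ∀ m n : N, m * (n + 1) = m * n + m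
  not_lt_zero : ∀ m : N, ¬ m < 0
  lt_succ : ∀ m n : N, m < n + 1 ↔ (m < n ∨ m = n)
  sigma_induction : ∀ θ : Fm, θ.Bounded → ∀ (v : ℕ → N) (V : ℕ → Set N), (∀ i, V i ∈ S) →
    (Fm.ex θ).Sat (cons 0 v) V →
    (∀ n, (Fm.ex θ).Sat (cons n v) V → (Fm.ex θ).Sat (cons (n + 1) v) V) →
    ∀ n, (Fm.ex θ).Sat (cons n v) V
  delta_comprehension : ∀ θ η : Fm, θ.Bounded → η.Bounded →
    ∀ (v : ℕ → N) (V : ℕ → Set N), (∀ i, V i ∈ S) →
    (∀ n, (Fm.ex θ).Sat (cons n v) V ↔ (Fm.all η).Sat (cons n v) V) →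
    {n | (Fm.ex θ).Sat (cons n v) V} ∈ S

/-- `(N, S)` is a model of `ACA₀`: `RCA₀` and comprehension for all arithmetical formulas
(number and set parameters allowed). -/
structure ACA0 (N : Type u) [Zero N] [One N] [Add N] [Mul N] [LT N] (S : Set (Set N)) : Prop where
  rca : RCA0 N S
  comprehension : ∀ (φ : Fm) (v : ℕ → N) (V : ℕ → Set N), (∀ i, V i ∈ S) →
    {n | φ.Sat (cons n v) V} ∈ S

/-- The sums of one or two distinct elements of `X`. -/
def FS2 {N : Type u} [Add N] (X : Set N) : Set N :=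
  {y | y ∈ X ∨ ∃ a ∈ X, ∃ b ∈ X, a ≠ b ∧ y = a + b}

/-- Hindman's theorem for two colours and sums of at most two terms, in `(N, S)`: for every
`C ∈ S` (the elements of `C` have the first colour, all others the second) there is an unbounded
`X ∈ S` such that all sums of one or two distinct elements of `X` have the same colour. -/
def HT22 (N : Type u) [Add N] [LT N] (S : Set (Set N)) : Prop :=
  ∀ C ∈ S, ∃ X ∈ S, (∀ n : N, ∃ x ∈ X, n < x) ∧
    ((∀ y ∈ FS2 X, y ∈ C) ∨ (∀ y ∈ FS2 X, y ∉ C))

end Pool.Agent.Helper7.RM
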