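import Mathlib
import Pool.Agent.Helper7.RM.Defs

/-! Models as ordered semirings, contexts, definability. -/

namespace Pool.Agent.Helper7.RM

universe u

/-- a model of `RCA₀` whose number part has been recognised as an ordered semiring -/
class Mdl (N : Type u) extends CommSemiring N, LinearOrder N, IsStrictOrderedRing N,
    CanonicallyOrderedAdd N, Sub N, OrderedSub N where
  sets : Set (Set N)
  rca : RCA0 N sets

/-- contexts: finite products of `N` -/
class Cx (N : outParam (Type u)) (Γ : Type u) where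
  dim : ℕ
  emb : Γ → (ℕ → N) → (ℕ → N)
  emb_lt : ∀ g w w' i, i < dim → emb g w i = emb g w' i
  emb_ge : ∀ g w j, emb g w (dim + j) = w j
  surj : ∀ x : ℕ → N, ∃ g, ∀ w i, i < dim → emb g w i = x i
  inj : ∀ g g' w, (∀ i < dim, emb g w i = emb g' w i) → g = g'

instance Cx.base (N : Type u) : Cx N N where
  dim := 1
  emb a w := cons a w
  emb_lt g w w' i h := by
    obtain rfl : i = 0 := by omega
    rfl
  emb_ge g w j := by rw [Nat.add_comm]; rfl
  surj x := ⟨x 0, fun w i h => by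
    obtain rfl : i = 0 := by omega
    rfl⟩
  inj g g' w h := h 0 (by omega)

instance Cx.prod (N : Type u) (Γ Δ : Type u) [Cx N Γ] [Cx N Δ] : Cx N (Γ × Δ) where
  dim := Cx.dim Γ + Cx.dim Δ
  emb p w := Cx.emb p.2 (Cx.emb p.1 w)
  emb_lt p w w' i h := by
    by_cases h1 : i < Cx.dim Δ
    · exact Cx.emb_lt _ _ _ _ h1
    · obtain ⟨j, rfl⟩ := Nat.exists_eq_add_of_le (Nat.le_of_not_lt h1)
      rw [Cx.emb_ge, Cx.emb_ge]
      exact Cx.emb_lt _ _ _ _ (by omega)
  emb_ge p w j := by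
    rw [Nat.add_comm (Cx.dim Γ), Nat.add_assoc, Cx.emb_ge, Cx.emb_ge]
  surj x := by
    obtain ⟨d, hd⟩ := Cx.surj (Γ := Δ) x
    obtain ⟨g, hg⟩ := Cx.surj (Γ := Γ) (fun i => x (Cx.dim Δ + i))
    refine ⟨(g, d), fun w i h => ?_⟩
    by_cases h1 : i < Cx.dim Δ
    · exact hd _ _ h1
    · obtain ⟨j, rfl⟩ := Nat.exists_eq_add_of_le (Nat.le_of_not_lt h1)
      show Cx.emb d (Cx.emb g w) _ = _
      rw [Cx.emb_ge]
      exact hg _ _ (by omega)
  inj p p' w h := by
    have h2 : p.2 = p'.2 := by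
      refine Cx.inj _ _ w (fun i hi => ?_)
      have := h i (by omega)
      rw [Cx.emb_lt p.2 _ w i hi, Cx.emb_lt p'.2 _ w i hi] at this
      exact this
    have h1 : p.1 = p'.1 := by
      refine Cx.inj _ _ w (fun i hi => ?_)
      have := h (Cx.dim Δ + i) (by omega)
      rw [Cx.emb_ge, Cx.emb_ge] at this
      exact this
    exact Prod.ext h1 h2

variable {N : Type u} [Mdl N] {Γ Δ Θ : Type u} [Cx N Γ] [Cx N Δ] [Cx N Θ]

/-- definable by a bounded formula with parameters -/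
def D0 (P : Γ → Prop) : Prop :=
  ∃ φ : Fm, φ.Bounded ∧ ∃ (w : ℕ → N) (V : ℕ → Set N), (∀ i, V i ∈ Mdl.sets (N := N)) ∧
    ∀ g, P g ↔ φ.Sat (Cx.emb g w) V

/-- given by a term without parameters -/
def PT (t : Γ → N) : Prop := ∃ τ : Tm, ∀ g w, t g = τ.val (Cx.emb g w)

/-- all coordinates are given by terms -/
def Mor (ρ : Γ → Δ) : Prop := ∀ i < Cx.dim Δ, ∀ w : ℕ → N, PT (fun g => Cx.emb (ρ g) w i)

/-- `Σ⁰₁` definable, with parameters -/
def Sig (P : Γ → Prop) : Prop := ∃ Q : Γ × N → Prop, D0 Q ∧ ∀ g, P g ↔ ∃ y, Q (g, y)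

/-- `Δ⁰₁` definable, with parameters -/
def Pr (P : Γ → Prop) : Prop := Sig P ∧ Sig (fun g => ¬ P g)

/-- `Δ⁰₁` definable function, with parameters -/
def Fn (f : Γ → Δ) : Prop := Sig (fun p : Γ × Δ => f p.1 = p.2)

end Pool.Agent.Helper7.RM
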