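import Mathlib
import Pool.Agent.Helper7.RM.Defs

/-! Renaming and substitution. -/

namespace Pool.Agent.Helper7.RM

universe u

def Tm.ren (ρ : ℕ → ℕ) : Tm → Tm
  | .var i => .var (ρ i)
  | .zero => .zero
  | .one => .one
  | .add s t => .add (s.ren ρ) (t.ren ρ)
  | .mul s t => .mul (s.ren ρ) (t.ren ρ)

def liftr (ρ : ℕ → ℕ) : ℕ → ℕ
  | 0 => 0
  | i + 1 => ρ i + 1

def Fm.ren (ρ σ : ℕ → ℕ) : Fm → Fm
  | .eq s t => .eq (s.ren ρ) (t.ren ρ)
  | .lt s t => .lt (s.ren ρ) (t.ren ρ)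
  | .mem t i => .mem (t.ren ρ) (σ i)
  | .neg φ => .neg (φ.ren ρ σ)
  | .and φ ψ => .and (φ.ren ρ σ) (ψ.ren ρ σ)
  | .ball t φ => .ball (t.ren ρ) (φ.ren (liftr ρ) σ)
  | .all φ => .all (φ.ren (liftr ρ) σ)
  | .ex φ => .ex (φ.ren (liftr ρ) σ)

def Tm.sub (σ : ℕ → Tm) : Tm → Tm
  | .var i => σ i
  | .zero => .zero
  | .one => .one
  | .add s t => .add (s.sub σ) (t.sub σ)
  | .mul s t => .mul (s.sub σ) (t.sub σ)

def lifts (σ : ℕ → Tm) : ℕ → Tm
  | 0 => .var 0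
  | i + 1 => (σ i).ren Nat.succ

def Fm.sub (σ : ℕ → Tm) : Fm → Fm
  | .eq s t => .eq (s.sub σ) (t.sub σ)
  | .lt s t => .lt (s.sub σ) (t.sub σ)
  | .mem t i => .mem (t.sub σ) i
  | .neg φ => .neg (φ.sub σ)
  | .and φ ψ => .and (φ.sub σ) (ψ.sub σ)
  | .ball t φ => .ball (t.sub σ) (φ.sub (lifts σ))
  | .all φ => .all (φ.sub (lifts σ))
  | .ex φ => .ex (φ.sub (lifts σ))

section

variable {N : Type u} [Zero N] [One N] [Add N] [Mul N]

theorem cons_liftr (a : N) (v : ℕ → N) (ρ : ℕ → ℕ) :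
    cons a v ∘ liftr ρ = cons a (v ∘ ρ) := by
  funext i; cases i <;> rfl

theorem Tm.val_ren (ρ : ℕ → ℕ) (v : ℕ → N) (t : Tm) : (t.ren ρ).val v = t.val (v ∘ ρ) := by
  induction t with
  | var i => rfl
  | zero => rfl
  | one => rfl
  | add s t ihs iht => simp only [Tm.ren, Tm.val, ihs, iht]
  | mul s t ihs iht => simp only [Tm.ren, Tm.val, ihs, iht]

theorem Tm.val_sub (σ : ℕ → Tm) (v : ℕ → N) (t : Tm) :
    (t.sub σ).val v = t.val (fun i => (σ i).val v) := by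
  induction t with
  | var i => rfl
  | zero => rfl
  | one => rfl
  | add s t ihs iht => simp only [Tm.sub, Tm.val, ihs, iht]
  | mul s t ihs iht => simp only [Tm.sub, Tm.val, ihs, iht]

theorem cons_lifts (a : N) (v : ℕ → N) (σ : ℕ → Tm) :
    (fun i => (lifts σ i).val (cons a v)) = cons a (fun i => (σ i).val v) := by
  funext i
  cases i with
  | zero => rfl
  | succ i => simp only [lifts, Tm.val_ren]; rfl

variable [LT N]

theorem Fm.sat_ren (φ : Fm) : ∀ (ρ σ : ℕ → ℕ) (v : ℕ → N) (V : ℕ → Set N),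
    (φ.ren ρ σ).Sat v V ↔ φ.Sat (v ∘ ρ) (V ∘ σ) := by
  induction φ with
  | eq s t => intro ρ σ v V; simp only [Fm.ren, Fm.Sat, Tm.val_ren]
  | lt s t => intro ρ σ v V; simp only [Fm.ren, Fm.Sat, Tm.val_ren]
  | mem t i => intro ρ σ v V; simp only [Fm.ren, Fm.Sat, Tm.val_ren]; rfl
  | neg φ ih => intro ρ σ v V; simp only [Fm.ren, Fm.Sat, ih]
  | and φ ψ ih1 ih2 => intro ρ σ v V; simp only [Fm.ren, Fm.Sat, ih1, ih2]
  | ball t φ ih => intro ρ σ v V; simp only [Fm.ren, Fm.Sat, ih, Tm.val_ren, cons_liftr]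
  | all φ ih => intro ρ σ v V; simp only [Fm.ren, Fm.Sat, ih, cons_liftr]
  | ex φ ih => intro ρ σ v V; simp only [Fm.ren, Fm.Sat, ih, cons_liftr]

theorem Fm.sat_sub (φ : Fm) : ∀ (σ : ℕ → Tm) (v : ℕ → N) (V : ℕ → Set N),
    (φ.sub σ).Sat v V ↔ φ.Sat (fun i => (σ i).val v) V := by
  induction φ with
  | eq s t => intro σ v V; simp only [Fm.sub, Fm.Sat, Tm.val_sub]
  | lt s t => intro σ v V; simp only [Fm.sub, Fm.Sat, Tm.val_sub]
  | mem t i => intro σ v V; simp only [Fm.sub, Fm.Sat, Tm.val_sub]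
  | neg φ ih => intro σ v V; simp only [Fm.sub, Fm.Sat, ih]
  | and φ ψ ih1 ih2 => intro σ v V; simp only [Fm.sub, Fm.Sat, ih1, ih2]
  | ball t φ ih => intro σ v V; simp only [Fm.sub, Fm.Sat, ih, Tm.val_sub, cons_lifts]
  | all φ ih => intro σ v V; simp only [Fm.sub, Fm.Sat, ih, cons_lifts]
  | ex φ ih => intro σ v V; simp only [Fm.sub, Fm.Sat, ih, cons_lifts]

end

theorem Fm.bounded_ren (φ : Fm) : ∀ (ρ σ : ℕ → ℕ), φ.Bounded → (φ.ren ρ σ).Bounded := by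
  induction φ with
  | eq s t => intro _ _ _; trivial
  | lt s t => intro _ _ _; trivial
  | mem t i => intro _ _ _; trivial
  | neg φ ih => intro ρ σ h; exact ih ρ σ h
  | and φ ψ ih1 ih2 => intro ρ σ h; exact ⟨ih1 ρ σ h.1, ih2 ρ σ h.2⟩
  | ball t φ ih => intro ρ σ h; exact ih _ σ h
  | all φ ih => intro ρ σ h; exact h
  | ex φ ih => intro ρ σ h; exact h

theorem Fm.bounded_sub (φ : Fm) : ∀ (σ : ℕ → Tm), φ.Bounded → (φ.sub σ).Bounded := by
  induction φ with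
  | eq s t => intro _ _; trivial
  | lt s t => intro _ _; trivial
  | mem t i => intro _ _; trivial
  | neg φ ih => intro σ h; exact ih σ h
  | and φ ψ ih1 ih2 => intro σ h; exact ⟨ih1 σ h.1, ih2 σ h.2⟩
  | ball t φ ih => intro σ h; exact ih _ h
  | all φ ih => intro σ h; exact h
  | ex φ ih => intro σ h; exact h

end Pool.Agent.Helper7.RM
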