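import Mathlib
import Pool.Agent.Helper7.RM.Model
import Pool.Agent.Helper7.RM.Syn

/-! Closure properties of bounded definability. -/

namespace Pool.Agent.Helper7.RM

universe u

variable {N : Type u} [Mdl N] {Γ Δ Θ : Type u} [Cx N Γ] [Cx N Δ] [Cx N Θ]

/-! ### terms -/

instance : Inhabited Tm := ⟨.zero⟩

theorem PT.add {s t : Γ → N} (hs : PT s) (ht : PT t) : PT (fun g => s g + t g) := by
  obtain ⟨σ, hσ⟩ := hs
  obtain ⟨τ, hτ⟩ := ht
  exact ⟨.add σ τ, fun g w => by simp only [Tm.val, ← hσ g w, ← hτ g w]⟩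

theorem PT.mul {s t : Γ → N} (hs : PT s) (ht : PT t) : PT (fun g => s g * t g) := by
  obtain ⟨σ, hσ⟩ := hs
  obtain ⟨τ, hτ⟩ := ht
  exact ⟨.mul σ τ, fun g w => by simp only [Tm.val, ← hσ g w, ← hτ g w]⟩

theorem PT.zero : PT (fun _ : Γ => (0 : N)) := ⟨.zero, fun _ _ => rfl⟩

theorem PT.one : PT (fun _ : Γ => (1 : N)) := ⟨.one, fun _ _ => rfl⟩

theorem PT.id : PT (fun a : N => a) := ⟨.var 0, fun _ _ => rfl⟩

theorem PT.coord {i : ℕ} (hi : i < Cx.dim Γ) (w : ℕ → N) :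
    PT (fun g : Γ => Cx.emb g w i) := ⟨.var i, fun g w' => Cx.emb_lt g w w' i hi⟩

theorem PT.fst {t : Γ → N} (ht : PT t) : PT (fun p : Γ × Δ => t p.1) := by
  obtain ⟨τ, hτ⟩ := ht
  refine ⟨τ.ren (fun i => Cx.dim Δ + i), fun p w => ?_⟩
  rw [Tm.val_ren]
  refine (hτ p.1 w).trans ?_
  congr 1
  funext i
  exact (Cx.emb_ge p.2 _ i).symm

theorem PT.snd {t : Δ → N} (ht : PT t) : PT (fun p : Γ × Δ => t p.2) := by
  obtain ⟨τ, hτ⟩ := ht
  exact ⟨τ, fun p w => hτ p.2 _⟩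

theorem PT.comp {t : Δ → N} (ht : PT t) {ρ : Γ → Δ} (hρ : Mor ρ) : PT (fun g => t (ρ g)) := by
  obtain ⟨τ, hτ⟩ := ht
  choose! σ hσ using fun (i : ℕ) (hi : i < Cx.dim Δ) => hρ i hi (fun _ => 0)
  refine ⟨τ.sub (fun i => if i < Cx.dim Δ then σ i else .zero), fun g w => ?_⟩
  rw [Tm.val_sub]
  refine (hτ (ρ g) (fun _ => 0)).trans ?_
  congr 1
  funext i
  by_cases h : i < Cx.dim Δ
  · simp only [h, if_true]
    exact hσ i h g w
  · simp only [h, if_false]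
    obtain ⟨j, rfl⟩ := Nat.exists_eq_add_of_le (Nat.le_of_not_lt h)
    rw [Cx.emb_ge]
    rfl

/-! ### morphisms -/

theorem Mor.of_PT {t : Γ → N} (ht : PT t) : Mor t := by
  intro i hi w
  have hi' : i < 1 := hi
  obtain rfl : i = 0 := by omega
  exact ht

theorem Mor.id : Mor (fun g : Γ => g) := fun i hi w => PT.coord hi w

theorem Mor.fst {ρ : Γ → Δ} (h : Mor ρ) : Mor (fun p : Γ × Θ => ρ p.1) :=
  fun i hi w => PT.fst (h i hi w)

theorem Mor.snd {ρ : Γ → Δ} (h : Mor ρ) : Mor (fun p : Θ × Γ => ρ p.2) :=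
  fun i hi w => PT.snd (h i hi w)

theorem Mor.fst' : Mor (fun p : Γ × Θ => p.1) := Mor.fst Mor.id

theorem Mor.snd' : Mor (fun p : Θ × Γ => p.2) := Mor.snd Mor.id

theorem Mor.pair {ρ : Γ → Δ} {σ : Γ → Θ} (hρ : Mor ρ) (hσ : Mor σ) :
    Mor (fun g => (ρ g, σ g)) := by
  intro i hi w
  by_cases h : i < Cx.dim Θ
  · obtain ⟨τ, hτ⟩ := hσ i h w
    refine ⟨τ, fun g w' => ?_⟩
    rw [← hτ g w']
    exact Cx.emb_lt (σ g) _ w i h
  · obtain ⟨j, rfl⟩ := Nat.exists_eq_add_of_le (Nat.le_of_not_lt h)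
    have hj : j < Cx.dim Δ := by
      have : Cx.dim Θ + j < Cx.dim Δ + Cx.dim Θ := hi
      omega
    obtain ⟨τ, hτ⟩ := hρ j hj w
    refine ⟨τ, fun g w' => ?_⟩
    rw [← hτ g w']
    exact Cx.emb_ge (σ g) _ j

theorem Mor.comp {σ : Δ → Θ} {ρ : Γ → Δ} (hσ : Mor σ) (hρ : Mor ρ) :
    Mor (fun g => σ (ρ g)) := fun i hi w => PT.comp (hσ i hi w) hρ

/-! ### bounded formulas -/

theorem D0.of_iff {P Q : Γ → Prop} (hP : D0 P) (h : ∀ g, Q g ↔ P g) : D0 Q := by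
  have : Q = P := funext fun g => propext (h g)
  rw [this]; exact hP

theorem D0.comp {P : Δ → Prop} (hP : D0 P) {ρ : Γ → Δ} (hρ : Mor ρ) :
    D0 (fun g => P (ρ g)) := by
  obtain ⟨φ, hφ, w, V, hV, h⟩ := hP
  choose! σ hσ using fun (i : ℕ) (hi : i < Cx.dim Δ) => hρ i hi w
  refine ⟨φ.sub (fun i => if i < Cx.dim Δ then σ i else .var (Cx.dim Γ + (i - Cx.dim Δ))),
    Fm.bounded_sub _ _ hφ, w, V, hV, fun g => ?_⟩
  rw [Fm.sat_sub]
  refine (h (ρ g)).trans ?_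
  have : Cx.emb (ρ g) w = fun i => (if i < Cx.dim Δ then σ i else
      .var (Cx.dim Γ + (i - Cx.dim Δ)) : Tm).val (Cx.emb g w) := by
    funext i
    by_cases hi : i < Cx.dim Δ
    · simp only [hi, if_true]
      exact hσ i hi g w
    · simp only [hi, if_false]
      obtain ⟨j, rfl⟩ := Nat.exists_eq_add_of_le (Nat.le_of_not_lt hi)
      rw [Cx.emb_ge, Nat.add_sub_cancel_left]
      exact (Cx.emb_ge g w j).symm
  rw [this]

theorem D0.fix {P : Γ × Δ → Prop} (hP : D0 P) (g : Γ) : D0 (fun d => P (g, d)) := by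
  obtain ⟨φ, hφ, w, V, hV, h⟩ := hP
  exact ⟨φ, hφ, Cx.emb g w, V, hV, fun d => h (g, d)⟩

theorem D0.not {P : Γ → Prop} (hP : D0 P) : D0 (fun g => ¬ P g) := by
  obtain ⟨φ, hφ, w, V, hV, h⟩ := hP
  exact ⟨.neg φ, hφ, w, V, hV, fun g => not_congr (h g)⟩

/-- two definitions with common parameters -/
theorem D0.common {P : Γ → Prop} {Q : Δ → Prop} (hP : D0 P) (hQ : D0 Q) :
    ∃ φ ψ : Fm, φ.Bounded ∧ ψ.Bounded ∧ ∃ (w : ℕ → N) (V : ℕ → Set N),
      (∀ i, V i ∈ Mdl.sets (N := N)) ∧ (∀ g, P g ↔ φ.Sat (Cx.emb g w) V) ∧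
      (∀ d, Q d ↔ ψ.Sat (Cx.emb d w) V) := by
  obtain ⟨φ, hφ, w, V, hV, h⟩ := hP
  obtain ⟨ψ, hψ, w', V', hV', h'⟩ := hQ
  refine ⟨φ.ren (fun i => if i < Cx.dim Γ then i else Cx.dim Γ + 2 * (i - Cx.dim Γ))
      (fun i => 2 * i),
    ψ.ren (fun i => if i < Cx.dim Δ then i else Cx.dim Δ + (2 * (i - Cx.dim Δ) + 1))
      (fun i => 2 * i + 1), Fm.bounded_ren _ _ _ hφ, Fm.bounded_ren _ _ _ hψ,
    fun i => if i % 2 = 0 then w (i / 2) else w' (i / 2),
    fun i => if i % 2 = 0 then V (i / 2) else V' (i / 2), ?_, ?_, ?_⟩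
  · intro i
    dsimp only
    split_ifs
    · exact hV _
    · exact hV' _
  · intro g
    rw [h, Fm.sat_ren]
    have e1 : (fun i => if i % 2 = 0 then V (i / 2) else V' (i / 2)) ∘ (fun i => 2 * i) = V := by
      funext i
      have : 2 * i % 2 = 0 := by omega
      have h2 : 2 * i / 2 = i := by omega
      simp [h2]
    have e2 : Cx.emb g (fun i => if i % 2 = 0 then w (i / 2) else w' (i / 2)) ∘
        (fun i => if i < Cx.dim Γ then i else Cx.dim Γ + 2 * (i - Cx.dim Γ)) = Cx.emb g w := by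
      funext i
      by_cases hi : i < Cx.dim Γ
      · simp only [Function.comp, hi, if_true]
        exact Cx.emb_lt _ _ _ _ hi
      · simp only [Function.comp, hi, if_false]
        obtain ⟨j, rfl⟩ := Nat.exists_eq_add_of_le (Nat.le_of_not_lt hi)
        rw [Nat.add_sub_cancel_left, Cx.emb_ge, Cx.emb_ge]
        have : 2 * j % 2 = 0 := by omega
        have h2 : 2 * j / 2 = j := by omega
        simp [h2]
    rw [e1, e2]
  · intro g
    rw [h', Fm.sat_ren]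
    have e1 : (fun i => if i % 2 = 0 then V (i / 2) else V' (i / 2)) ∘ (fun i => 2 * i + 1)
        = V' := by
      funext i
      have : (2 * i + 1) % 2 = 1 := by omega
      have h2 : (2 * i + 1) / 2 = i := by omega
      simp [h2, this]
    have e2 : Cx.emb g (fun i => if i % 2 = 0 then w (i / 2) else w' (i / 2)) ∘
        (fun i => if i < Cx.dim Δ then i else Cx.dim Δ + (2 * (i - Cx.dim Δ) + 1)) =
        Cx.emb g w' := by
      funext i
      by_cases hi : i < Cx.dim Δ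
      · simp only [Function.comp, hi, if_true]
        exact Cx.emb_lt _ _ _ _ hi
      · simp only [Function.comp, hi, if_false]
        obtain ⟨j, rfl⟩ := Nat.exists_eq_add_of_le (Nat.le_of_not_lt hi)
        rw [Nat.add_sub_cancel_left, Cx.emb_ge, Cx.emb_ge]
        have : (2 * j + 1) % 2 = 1 := by omega
        have h2 : (2 * j + 1) / 2 = j := by omega
        simp [h2, this]
    rw [e1, e2]

theorem D0.and {P Q : Γ → Prop} (hP : D0 P) (hQ : D0 Q) : D0 (fun g => P g ∧ Q g) := by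
  obtain ⟨φ, ψ, hφ, hψ, w, V, hV, h1, h2⟩ := D0.common hP hQ
  exact ⟨.and φ ψ, ⟨hφ, hψ⟩, w, V, hV, fun g => and_congr (h1 g) (h2 g)⟩

theorem D0.or {P Q : Γ → Prop} (hP : D0 P) (hQ : D0 Q) : D0 (fun g => P g ∨ Q g) :=
  (D0.not (D0.and hP.not hQ.not)).of_iff (fun g => by tauto)

theorem D0.imp {P Q : Γ → Prop} (hP : D0 P) (hQ : D0 Q) : D0 (fun g => P g → Q g) :=
  (D0.or hP.not hQ).of_iff (fun g => by tauto)

theorem D0.iff {P Q : Γ → Prop} (hP : D0 P) (hQ : D0 Q) : D0 (fun g => P g ↔ Q g) :=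
  (D0.and (D0.imp hP hQ) (D0.imp hQ hP)).of_iff (fun g => by tauto)

theorem D0.ball {t : Γ → N} (ht : PT t) {P : Γ → N → Prop}
    (hP : D0 (fun p : Γ × N => P p.1 p.2)) : D0 (fun g => ∀ a < t g, P g a) := by
  obtain ⟨φ, hφ, w, V, hV, h⟩ := hP
  obtain ⟨τ, hτ⟩ := ht
  refine ⟨.ball τ φ, hφ, w, V, hV, fun g => ?_⟩
  simp only [Fm.Sat, ← hτ g w]
  exact forall_congr' fun a => imp_congr_right fun _ => h (g, a)

theorem D0.bex {t : Γ → N} (ht : PT t) {P : Γ → N → Prop}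
    (hP : D0 (fun p : Γ × N => P p.1 p.2)) : D0 (fun g => ∃ a < t g, P g a) := by
  refine (D0.not (D0.ball ht (P := fun g a => ¬ P g a) hP.not)).of_iff (fun g => ?_)
  push Not
  rfl

theorem exists_set : ∃ X, X ∈ Mdl.sets (N := N) := (Mdl.rca (N := N)).sets_nonempty

theorem D0.lt {s t : Γ → N} (hs : PT s) (ht : PT t) : D0 (fun g => s g < t g) := by
  obtain ⟨σ, hσ⟩ := hs
  obtain ⟨τ, hτ⟩ := ht
  obtain ⟨X, hX⟩ := exists_set (N := N)
  exact ⟨.lt σ τ, trivial, fun _ => 0, fun _ => X, fun _ => hX, fun g => by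
    simp only [Fm.Sat, ← hσ g, ← hτ g]⟩

theorem D0.eq {s t : Γ → N} (hs : PT s) (ht : PT t) : D0 (fun g => s g = t g) := by
  obtain ⟨σ, hσ⟩ := hs
  obtain ⟨τ, hτ⟩ := ht
  obtain ⟨X, hX⟩ := exists_set (N := N)
  exact ⟨.eq σ τ, trivial, fun _ => 0, fun _ => X, fun _ => hX, fun g => by
    simp only [Fm.Sat, ← hσ g, ← hτ g]⟩

theorem D0.le {s t : Γ → N} (hs : PT s) (ht : PT t) : D0 (fun g => s g ≤ t g) :=
  (D0.not (D0.lt ht hs)).of_iff (fun g => not_lt.symm)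

theorem D0.mem {X : Set N} (hX : X ∈ Mdl.sets (N := N)) {t : Γ → N} (ht : PT t) :
    D0 (fun g => t g ∈ X) := by
  obtain ⟨τ, hτ⟩ := ht
  exact ⟨.mem τ 0, trivial, fun _ => 0, fun _ => X, fun _ => hX, fun g => by
    simp only [Fm.Sat, ← hτ g]⟩

theorem D0.const (p : Prop) : D0 (fun _ : Γ => p) := by
  obtain ⟨X, hX⟩ := exists_set (N := N)
  by_cases hp : p
  · exact ⟨.eq .zero .zero, trivial, fun _ => 0, fun _ => X, fun _ => hX, fun g => by
      simp [Fm.Sat, hp]⟩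
  · exact ⟨.neg (.eq .zero .zero), trivial, fun _ => 0, fun _ => X, fun _ => hX, fun g => by
      simp [Fm.Sat, hp]⟩

theorem D0.eq_const {t : Γ → N} (ht : PT t) (c : N) : D0 (fun g => t g = c) := by
  obtain ⟨τ, hτ⟩ := ht
  obtain ⟨X, hX⟩ := exists_set (N := N)
  refine ⟨.eq τ (.var (Cx.dim Γ)), trivial, fun _ => c, fun _ => X, fun _ => hX, fun g => ?_⟩
  simp only [Fm.Sat, Tm.val, ← hτ g]
  have := Cx.emb_ge g (fun _ => c) 0
  rw [Nat.add_zero] at this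
  rw [this]

theorem D0.ball_fin (k : ℕ) {P : ℕ → Γ → Prop} (hP : ∀ i < k, D0 (P i)) :
    D0 (fun g => ∀ i < k, P i g) := by
  induction k with
  | zero => exact (D0.const (Γ := Γ) True).of_iff (fun g => by simp)
  | succ k ih =>
    refine (D0.and (ih fun i hi => hP i (by omega)) (hP k (by omega))).of_iff (fun g => ?_)
    constructor
    · intro h; exact ⟨fun i hi => h i (by omega), h k (by omega)⟩
    · rintro ⟨h1, h2⟩ i hi
      rcases Nat.lt_succ_iff_lt_or_eq.1 hi with h3 | rfl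
      · exact h1 i h3
      · exact h2

theorem D0.ctx_eq {ρ σ : Γ → Δ} (hρ : Mor ρ) (hσ : Mor σ) : D0 (fun g => ρ g = σ g) := by
  refine (D0.ball_fin (Cx.dim Δ) (P := fun i g =>
    Cx.emb (ρ g) (fun _ => (0 : N)) i = Cx.emb (σ g) (fun _ => (0 : N)) i) ?_).of_iff ?_
  · intro i hi
    exact D0.eq (hρ i hi _) (hσ i hi _)
  · intro g
    constructor
    · intro h i _; rw [h]
    · intro h; exact Cx.inj _ _ _ h

end Pool.Agent.Helper7.RM
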