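import Mathlib
import Pool.Agent.Helper7.RM.Ctx

/-! Closure properties of `Σ⁰₁` definability. -/

namespace Pool.Agent.Helper7.RM

universe u

variable {N : Type u} [Mdl N] {Γ Δ Θ : Type u} [Cx N Γ] [Cx N Δ] [Cx N Θ]

theorem lt_succ_iff' (m n : N) : m < n + 1 ↔ m ≤ n := by
  rw [le_iff_lt_or_eq]
  exact (Mdl.rca (N := N)).lt_succ m n

theorem lt_add_one' (n : N) : n < n + 1 := (lt_succ_iff' n n).2 le_rfl

theorem succ_le_iff' (m n : N) : m + 1 ≤ n ↔ m < n := by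
  constructor
  · intro h; exact lt_of_lt_of_le (lt_add_one' m) h
  · intro h
    by_contra hc
    exact absurd ((lt_succ_iff' n m).1 (not_le.1 hc)) (not_le.2 h)

theorem Sig.of_iff {P Q : Γ → Prop} (hP : Sig P) (h : ∀ g, Q g ↔ P g) : Sig Q := by
  have : Q = P := funext fun g => propext (h g)
  rw [this]; exact hP

theorem Sig.of_D0 {P : Γ → Prop} (hP : D0 P) : Sig P :=
  ⟨fun p => P p.1, D0.comp hP Mor.fst', fun g => ⟨fun h => ⟨0, h⟩, fun ⟨_, h⟩ => h⟩⟩

theorem Sig.comp_mor {P : Δ → Prop} (hP : Sig P) {ρ : Γ → Δ} (hρ : Mor ρ) :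
    Sig (fun g => P (ρ g)) := by
  obtain ⟨Q, hQ, h⟩ := hP
  exact ⟨fun p => Q (ρ p.1, p.2), D0.comp hQ (Mor.pair (Mor.fst hρ) Mor.snd'),
    fun g => h (ρ g)⟩

theorem Sig.fix {P : Γ × Δ → Prop} (hP : Sig P) (g : Γ) : Sig (fun d => P (g, d)) := by
  obtain ⟨Q, hQ, h⟩ := hP
  refine ⟨fun p => Q ((g, p.1), p.2), ?_, fun d => h (g, d)⟩
  have h1 : D0 (fun p : Γ × (Δ × N) => Q ((p.1, p.2.1), p.2.2)) :=
    D0.comp hQ (Mor.pair (Mor.pair Mor.fst' (Mor.comp Mor.fst' Mor.snd'))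
      (Mor.comp Mor.snd' Mor.snd'))
  exact D0.fix h1 g

theorem Sig.ex {P : Γ → N → Prop} (hP : Sig (fun p : Γ × N => P p.1 p.2)) :
    Sig (fun g => ∃ a, P g a) := by
  obtain ⟨Q, hQ, h⟩ := hP
  refine ⟨fun p => ∃ a < p.2, ∃ y < p.2, Q ((p.1, a), y), ?_, ?_⟩
  · refine D0.bex (PT.snd PT.id) (P := fun p a => ∃ y < p.2, Q ((p.1, a), y)) ?_
    refine D0.bex (t := fun p : (Γ × N) × N => p.1.2)
      (PT.fst (PT.snd PT.id)) (P := fun p y => Q ((p.1.1, p.2), y)) ?_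
    refine D0.comp hQ (ρ := fun p : ((Γ × N) × N) × N => ((p.1.1.1, p.1.2), p.2)) ?_
    exact Mor.pair (Mor.pair (Mor.fst (Mor.fst Mor.fst')) (Mor.fst Mor.snd')) Mor.snd'
  · intro g
    constructor
    · rintro ⟨a, ha⟩
      obtain ⟨y, hy⟩ := (h (g, a)).1 ha
      refine ⟨a + y + 1, a, ?_, y, ?_, hy⟩
      · exact (lt_succ_iff' _ _).2 le_self_add
      · exact (lt_succ_iff' _ _).2 le_add_self
    · rintro ⟨_, a, _, y, _, hy⟩
      exact ⟨a, (h (g, a)).2 ⟨y, hy⟩⟩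

theorem Sig.and {P Q : Γ → Prop} (hP : Sig P) (hQ : Sig Q) : Sig (fun g => P g ∧ Q g) := by
  obtain ⟨P', hP', h⟩ := hP
  obtain ⟨Q', hQ', h'⟩ := hQ
  have h1 : Sig (fun g => ∃ a, ∃ b, (P' (g, a) ∧ Q' (g, b))) := by
    refine Sig.ex (Sig.ex (P := fun (p : Γ × N) b => P' (p.1, p.2) ∧ Q' (p.1, b)) ?_)
    refine Sig.of_D0 (D0.and ?_ ?_)
    · exact D0.comp hP' (ρ := fun p : (Γ × N) × N => (p.1.1, p.1.2)) (Mor.fst Mor.id)
    · exact D0.comp hQ' (ρ := fun p : (Γ × N) × N => (p.1.1, p.2))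
        (Mor.pair (Mor.fst Mor.fst') Mor.snd')
  refine h1.of_iff (fun g => ?_)
  rw [h, h']
  constructor
  · rintro ⟨⟨a, ha⟩, b, hb⟩; exact ⟨a, b, ha, hb⟩
  · rintro ⟨a, b, ha, hb⟩; exact ⟨⟨a, ha⟩, b, hb⟩

theorem Sig.or {P Q : Γ → Prop} (hP : Sig P) (hQ : Sig Q) : Sig (fun g => P g ∨ Q g) := by
  obtain ⟨P', hP', h⟩ := hP
  obtain ⟨Q', hQ', h'⟩ := hQ
  refine ⟨fun p => P' p ∨ Q' p, D0.or hP' hQ', fun g => ?_⟩
  show P g ∨ Q g ↔ ∃ y, P' (g, y) ∨ Q' (g, y)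
  rw [h, h']
  constructor
  · rintro (⟨a, ha⟩ | ⟨b, hb⟩)
    · exact ⟨a, Or.inl ha⟩
    · exact ⟨b, Or.inr hb⟩
  · rintro ⟨a, ha | hb⟩
    · exact Or.inl ⟨a, ha⟩
    · exact Or.inr ⟨a, hb⟩

theorem Sig.bex {t : Γ → N} (ht : PT t) {P : Γ → N → Prop}
    (hP : Sig (fun p : Γ × N => P p.1 p.2)) : Sig (fun g => ∃ a < t g, P g a) :=
  Sig.ex (P := fun g a => a < t g ∧ P g a)
    (Sig.and (Sig.of_D0 (D0.lt (PT.snd PT.id) (PT.fst ht))) hP)

/-- `Σ⁰₁` induction -/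
theorem Sig.ind {P : N → Prop} (hP : Sig P) (h0 : P 0) (hs : ∀ n, P n → P (n + 1)) :
    ∀ n, P n := by
  obtain ⟨Q, ⟨φ, hφ, w, V, hV, hQ⟩, h⟩ := hP
  have key : ∀ n, P n ↔ (Fm.ex φ).Sat (cons n w) V := by
    intro n
    rw [h]
    exact exists_congr fun y => hQ (n, y)
  intro n
  rw [key]
  refine (Mdl.rca (N := N)).sigma_induction φ hφ w V hV ?_ ?_ n
  · exact (key 0).1 h0
  · intro n hn; exact (key _).1 (hs n ((key n).2 hn))

/-- `Δ⁰₁` comprehension -/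
theorem Pr.mem_sets {P : N → Prop} (hP : Pr P) : {n | P n} ∈ Mdl.sets (N := N) := by
  obtain ⟨⟨Q, hQ, h⟩, ⟨R, hR, h'⟩⟩ := hP
  obtain ⟨φ, ψ, hφ, hψ, w, V, hV, e1, e2⟩ := D0.common hQ hR
  have k1 : ∀ n, P n ↔ (Fm.ex φ).Sat (cons n w) V := by
    intro n
    rw [h]
    exact exists_congr fun y => e1 (n, y)
  have k2 : ∀ n, P n ↔ (Fm.all (Fm.neg ψ)).Sat (cons n w) V := by
    intro n
    rw [← not_iff_not]
    refine (h' n).trans ?_
    simp only [Fm.Sat, not_forall, not_not]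
    exact exists_congr fun y => e2 (n, y)
  have := (Mdl.rca (N := N)).delta_comprehension φ (.neg ψ) hφ hψ w V hV
    (fun n => (k1 n).symm.trans (k2 n))
  have e : {n | P n} = {n | (Fm.ex φ).Sat (cons n w) V} := Set.ext fun n => k1 n
  rw [e]; exact this

/-- `Σ⁰₁` collection -/
theorem D0.coll {Q : N → N → Prop} (hQ : D0 (fun p : N × N => Q p.1 p.2)) (n : N)
    (h : ∀ a < n, ∃ y, Q a y) : ∃ u, ∀ a < n, ∃ y < u, Q a y := by
  have hS : Sig (fun k : N => ∃ u, ∀ a < k, a < n → ∃ y < u, Q a y) := by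
    refine Sig.ex (P := fun k u => ∀ a < k, a < n → ∃ y < u, Q a y) (Sig.of_D0 ?_)
    refine D0.ball (PT.fst PT.id) (P := fun (p : N × N) a => a < n → ∃ y < p.2, Q a y) ?_
    refine D0.imp ?_ ?_
    · have h1 : D0 (fun p : N × N => p.2 < p.1) := D0.lt (PT.snd PT.id) (PT.fst PT.id)
      exact D0.comp (D0.fix h1 n) (ρ := fun p : (N × N) × N => p.2) Mor.snd'
    · refine D0.bex (t := fun p : (N × N) × N => p.1.2) (PT.fst (PT.snd PT.id))
        (P := fun p y => Q p.2 y) ?_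
      exact D0.comp hQ (ρ := fun p : ((N × N) × N) × N => (p.1.2, p.2))
        (Mor.pair (Mor.fst Mor.snd') Mor.snd')
  have := Sig.ind hS ⟨0, fun a ha => absurd ha not_lt_zero'⟩ (fun k ⟨u, hu⟩ => by
    by_cases hk : k < n
    · obtain ⟨y, hy⟩ := h k hk
      refine ⟨u + y + 1, fun a ha han => ?_⟩
      rcases le_iff_lt_or_eq.1 ((lt_succ_iff' _ _).1 ha) with h1 | rfl
      · obtain ⟨z, hz, hQz⟩ := hu a h1 han
        exact ⟨z, lt_of_lt_of_le hz (le_trans le_self_add le_self_add), hQz⟩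
      · exact ⟨y, (lt_succ_iff' _ _).2 le_add_self, hy⟩
    · refine ⟨u, fun a ha han => ?_⟩
      rcases le_iff_lt_or_eq.1 ((lt_succ_iff' _ _).1 ha) with h1 | rfl
      · exact hu a h1 han
      · exact absurd han hk)
  obtain ⟨u, hu⟩ := this n
  exact ⟨u, fun a ha => hu a ha ha⟩

theorem Sig.ball {t : Γ → N} (ht : PT t) {P : Γ → N → Prop}
    (hP : Sig (fun p : Γ × N => P p.1 p.2)) : Sig (fun g => ∀ a < t g, P g a) := by
  obtain ⟨Q, hQ, h⟩ := hP
  refine ⟨fun p => ∀ a < t p.1, ∃ y < p.2, Q ((p.1, a), y), ?_, ?_⟩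
  · refine D0.ball (PT.fst ht) (P := fun (p : Γ × N) a => ∃ y < p.2, Q ((p.1, a), y)) ?_
    refine D0.bex (t := fun p : (Γ × N) × N => p.1.2)
      (PT.fst (PT.snd PT.id)) (P := fun p y => Q ((p.1.1, p.2), y)) ?_
    refine D0.comp hQ (ρ := fun p : ((Γ × N) × N) × N => ((p.1.1.1, p.1.2), p.2)) ?_
    exact Mor.pair (Mor.pair (Mor.fst (Mor.fst Mor.fst')) (Mor.fst Mor.snd')) Mor.snd'
  · intro g
    constructor
    · intro hg
      have h1 : D0 (fun p : N × N => Q ((g, p.1), p.2)) := by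
        have h2 : D0 (fun p : Γ × (N × N) => Q ((p.1, p.2.1), p.2.2)) :=
          D0.comp hQ (Mor.pair (Mor.pair Mor.fst' (Mor.comp Mor.fst' Mor.snd'))
            (Mor.comp Mor.snd' Mor.snd'))
        exact D0.fix h2 g
      exact D0.coll (Q := fun a y => Q ((g, a), y)) h1 (t g) (fun a ha => (h (g, a)).1 (hg a ha))
    · rintro ⟨u, hu⟩ a ha
      obtain ⟨y, _, hy⟩ := hu a ha
      exact (h (g, a)).2 ⟨y, hy⟩

/-- prepend `k` values -/
def prep (k : ℕ) (x v : ℕ → N) : ℕ → N := fun i => if i < k then x i else v (i - k)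

theorem prep_succ (k : ℕ) (x v : ℕ → N) :
    prep (k + 1) x v = prep k x (cons (x k) v) := by
  funext i
  unfold prep
  by_cases h : i < k
  · have : i < k + 1 := by omega
    simp [h, this]
  · by_cases h2 : i = k
    · subst h2
      simp [cons]
    · have h3 : ¬ i < k + 1 := by omega
      obtain ⟨j, hj⟩ : ∃ j, i - k = j + 1 := ⟨i - k - 1, by omega⟩
      have h4 : i - (k + 1) = j := by omega
      simp only [h, h3, if_false, hj, h4, cons]

theorem contract (k : ℕ) : ∀ φ : Fm, φ.Bounded → ∃ φ' : Fm, φ'.Bounded ∧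
    ∀ (v : ℕ → N) (V : ℕ → Set N),
      (∃ y, ∃ x : ℕ → N, φ.Sat (cons y (prep k x v)) V) ↔ ∃ y, φ'.Sat (cons y v) V := by
  induction k with
  | zero =>
    intro φ hφ
    refine ⟨φ, hφ, fun v V => ?_⟩
    have : ∀ x : ℕ → N, prep 0 x v = v := fun x => by
      funext i; simp [prep]
    simp only [this]
    exact exists_congr fun y => ⟨fun ⟨_, h⟩ => h, fun h => ⟨v, h⟩⟩
  | succ k ih =>
    intro φ hφ
    obtain ⟨φ', hφ', h⟩ := ih φ hφ
    let ρ : ℕ → ℕ := fun i => match i with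
      | 0 => 0
      | 1 => 1
      | i + 2 => i + 3
    refine ⟨.neg (.ball (.var 0) (.neg (.neg (.ball (.var 1) (.neg (φ'.ren ρ id)))))),
      ?_, fun v V => ?_⟩
    · exact Fm.bounded_ren _ _ _ hφ'
    · have hρ : ∀ y a u : N, cons y (cons a (cons u v)) ∘ ρ = cons y (cons a v) := by
        intro y a u
        funext i
        match i with
        | 0 => rfl
        | 1 => rfl
        | i + 2 => rfl
      have hl : (∃ y, ∃ x : ℕ → N, φ.Sat (cons y (prep (k+1) x v)) V) ↔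
          ∃ a, ∃ y, φ'.Sat (cons y (cons a v)) V := by
        constructor
        · rintro ⟨y, x, hx⟩
          rw [prep_succ] at hx
          exact ⟨x k, (h _ V).1 ⟨y, x, hx⟩⟩
        · rintro ⟨a, ha⟩
          obtain ⟨y, x, hx⟩ := (h _ V).2 ha
          refine ⟨y, fun i => if i < k then x i else a, ?_⟩
          rw [prep_succ]
          have e1 : (if k < k then x k else a) = a := by simp
          have e2 : prep k (fun i => if i < k then x i else a) (cons a v) =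
              prep k x (cons a v) := by
            funext i
            unfold prep
            by_cases hi : i < k <;> simp [hi]
          simp only [e1]
          rw [e2]
          exact hx
      rw [hl]
      simp only [Fm.Sat, Fm.sat_ren, Tm.val, hρ, Function.comp_id]
      constructor
      · rintro ⟨a, y, hy⟩
        refine ⟨a + y + 1, ?_⟩
        intro hc
        refine hc a ?_ ?_
        · exact (lt_succ_iff' _ _).2 le_self_add
        · intro hc2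
          exact hc2 y ((lt_succ_iff' _ _).2 le_add_self) hy
      · rintro ⟨u, hu⟩
        by_contra hc
        apply hu
        intro a _ hc2
        apply hc2
        intro y _ hy
        exact hc ⟨a, y, hy⟩

theorem Sig.exs {P : Γ → Δ → Prop} (hP : Sig (fun p : Γ × Δ => P p.1 p.2)) :
    Sig (fun g => ∃ d, P g d) := by
  obtain ⟨Q, ⟨φ, hφ, w, V, hV, hQ⟩, h⟩ := hP
  obtain ⟨φ', hφ', h'⟩ := contract (N := N) (Cx.dim Δ) φ hφ
  refine ⟨fun p => φ'.Sat (Cx.emb p w) V, ⟨φ', hφ', w, V, hV, fun g => Iff.rfl⟩, fun g => ?_⟩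
  have h1 := h' (Cx.emb g w) V
  have h2 : (∃ d, P g d) ↔ ∃ y, ∃ x : ℕ → N,
      φ.Sat (cons y (prep (Cx.dim Δ) x (Cx.emb g w))) V := by
    have e : ∀ d : Δ, Cx.emb d (Cx.emb g w) =
        prep (Cx.dim Δ) (Cx.emb d (Cx.emb g w)) (Cx.emb g w) := by
      intro d
      funext i
      unfold prep
      by_cases hi : i < Cx.dim Δ
      · simp [hi]
      · obtain ⟨j, rfl⟩ := Nat.exists_eq_add_of_le (Nat.le_of_not_lt hi)
        rw [Cx.emb_ge]
        simp
    constructor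
    · rintro ⟨d, hd⟩
      obtain ⟨y, hy⟩ := (h (g, d)).1 hd
      refine ⟨y, Cx.emb d (Cx.emb g w), ?_⟩
      rw [← e]
      exact (hQ ((g, d), y)).1 hy
    · rintro ⟨y, x, hx⟩
      obtain ⟨d, hd⟩ := Cx.surj (Γ := Δ) x
      refine ⟨d, (h (g, d)).2 ⟨y, (hQ ((g, d), y)).2 ?_⟩⟩
      have e3 : Cx.emb d (Cx.emb g w) = prep (Cx.dim Δ) x (Cx.emb g w) := by
        funext i
        unfold prep
        by_cases hi : i < Cx.dim Δ
        · simp only [hi, if_true]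
          exact hd _ _ hi
        · obtain ⟨j, rfl⟩ := Nat.exists_eq_add_of_le (Nat.le_of_not_lt hi)
          rw [Cx.emb_ge]
          simp
      show φ.Sat (cons y (Cx.emb d (Cx.emb g w))) V
      rw [e3]
      exact hx
  exact h2.trans h1

theorem Sig.comp {P : Δ → Prop} (hP : Sig P) {f : Γ → Δ} (hf : Fn f) :
    Sig (fun g => P (f g)) := by
  have : Sig (fun g => ∃ d, f g = d ∧ P d) :=
    Sig.exs (P := fun g d => f g = d ∧ P d) (Sig.and hf (Sig.comp_mor hP Mor.snd'))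
  refine this.of_iff (fun g => ?_)
  constructor
  · intro h; exact ⟨_, rfl, h⟩
  · rintro ⟨_, rfl, h⟩; exact h

end Pool.Agent.Helper7.RM
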