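import Mathlib
import Pool.Agent.Helper7.RM.Sig

/-! Closure properties of `Δ⁰₁` predicates (`Pr`) and functions (`Fn`). -/

namespace Pool.Agent.Helper7.RM

universe u

variable {N : Type u} [Mdl N] {Γ Δ Θ Λ : Type u} [Cx N Γ] [Cx N Δ] [Cx N Θ] [Cx N Λ]

/-! ### functions -/

theorem Fn.of_mor {ρ : Γ → Δ} (h : Mor ρ) : Fn ρ :=
  Sig.of_D0 (D0.ctx_eq (ρ := fun p : Γ × Δ => ρ p.1) (σ := fun p : Γ × Δ => p.2)
    (Mor.fst h) Mor.snd')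

theorem Fn.of_iff {f g : Γ → Δ} (hf : Fn f) (h : ∀ x, g x = f x) : Fn g := by
  have : g = f := funext h
  rw [this]; exact hf

theorem Fn.id : Fn (fun g : Γ => g) := Fn.of_mor Mor.id

theorem Fn.comp {f : Δ → Θ} {g : Γ → Δ} (hf : Fn f) (hg : Fn g) : Fn (fun x => f (g x)) := by
  have h1 : Sig (fun p : Γ × Θ => ∃ d, (g p.1 = d ∧ f d = p.2)) := by
    refine Sig.exs (P := fun (p : Γ × Θ) d => g p.1 = d ∧ f d = p.2) (Sig.and ?_ ?_)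
    · exact Sig.comp_mor hg (ρ := fun p : (Γ × Θ) × Δ => (p.1.1, p.2))
        (Mor.pair (Mor.fst Mor.fst') Mor.snd')
    · exact Sig.comp_mor hf (ρ := fun p : (Γ × Θ) × Δ => (p.2, p.1.2))
        (Mor.pair Mor.snd' (Mor.fst Mor.snd'))
  refine h1.of_iff (fun p => ?_)
  constructor
  · intro h; exact ⟨_, rfl, h⟩
  · rintro ⟨_, rfl, h⟩; exact h

theorem Fn.fst {f : Γ → Δ} (hf : Fn f) : Fn (fun p : Γ × Θ => f p.1) :=
  Fn.comp hf (Fn.of_mor Mor.fst')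

theorem Fn.snd {f : Γ → Δ} (hf : Fn f) : Fn (fun p : Θ × Γ => f p.2) :=
  Fn.comp hf (Fn.of_mor Mor.snd')

theorem Fn.fst' : Fn (fun p : Γ × Θ => p.1) := Fn.of_mor Mor.fst'

theorem Fn.snd' : Fn (fun p : Θ × Γ => p.2) := Fn.of_mor Mor.snd'

theorem Fn.pair {f : Γ → Δ} {g : Γ → Θ} (hf : Fn f) (hg : Fn g) :
    Fn (fun x => (f x, g x)) := by
  have h1 : Sig (fun p : Γ × (Δ × Θ) => f p.1 = p.2.1 ∧ g p.1 = p.2.2) := by
    refine Sig.and ?_ ?_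
    · exact Sig.comp_mor hf (ρ := fun p : Γ × (Δ × Θ) => (p.1, p.2.1))
        (Mor.pair Mor.fst' (Mor.comp Mor.fst' Mor.snd'))
    · exact Sig.comp_mor hg (ρ := fun p : Γ × (Δ × Θ) => (p.1, p.2.2))
        (Mor.pair Mor.fst' (Mor.comp Mor.snd' Mor.snd'))
  exact h1.of_iff (fun p => Prod.ext_iff)

theorem Fn.const (c : Δ) : Fn (fun _ : Γ => c) := by
  have h1 : D0 (fun p : Δ × Δ => p.1 = p.2) := D0.ctx_eq Mor.fst' Mor.snd'
  have h2 : D0 (fun d : Δ => c = d) := D0.fix h1 c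
  exact Sig.of_D0 (D0.comp h2 (ρ := fun p : Γ × Δ => p.2) Mor.snd')

theorem Fn.comp₂ {f : Δ → Θ → Λ} (hf : Fn (fun p : Δ × Θ => f p.1 p.2)) {a : Γ → Δ}
    {b : Γ → Θ} (ha : Fn a) (hb : Fn b) : Fn (fun x => f (a x) (b x)) :=
  Fn.comp hf (Fn.pair ha hb)

theorem Fn.add {f g : Γ → N} (hf : Fn f) (hg : Fn g) : Fn (fun x => f x + g x) :=
  Fn.comp₂ (f := fun a b : N => a + b)
    (Fn.of_mor (Mor.of_PT (PT.add (PT.fst PT.id) (PT.snd PT.id)))) hf hg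

theorem Fn.mul {f g : Γ → N} (hf : Fn f) (hg : Fn g) : Fn (fun x => f x * g x) :=
  Fn.comp₂ (f := fun a b : N => a * b)
    (Fn.of_mor (Mor.of_PT (PT.mul (PT.fst PT.id) (PT.snd PT.id)))) hf hg

theorem Fn.succ {f : Γ → N} (hf : Fn f) : Fn (fun x => f x + 1) := Fn.add hf (Fn.const 1)

/-! ### predicates -/

theorem Pr.of_iff {P Q : Γ → Prop} (hP : Pr P) (h : ∀ g, Q g ↔ P g) : Pr Q := by
  have : Q = P := funext fun g => propext (h g)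
  rw [this]; exact hP

theorem Pr.sig {P : Γ → Prop} (hP : Pr P) : Sig P := hP.1

theorem Pr.not {P : Γ → Prop} (hP : Pr P) : Pr (fun g => ¬ P g) :=
  ⟨hP.2, hP.1.of_iff (fun g => not_not)⟩

theorem Pr.of_D0 {P : Γ → Prop} (hP : D0 P) : Pr P := ⟨Sig.of_D0 hP, Sig.of_D0 hP.not⟩

theorem Pr.const (p : Prop) : Pr (fun _ : Γ => p) := Pr.of_D0 (D0.const p)

theorem Pr.and {P Q : Γ → Prop} (hP : Pr P) (hQ : Pr Q) : Pr (fun g => P g ∧ Q g) :=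
  ⟨Sig.and hP.1 hQ.1, (Sig.or hP.2 hQ.2).of_iff (fun g => by tauto)⟩

theorem Pr.or {P Q : Γ → Prop} (hP : Pr P) (hQ : Pr Q) : Pr (fun g => P g ∨ Q g) :=
  ⟨Sig.or hP.1 hQ.1, (Sig.and hP.2 hQ.2).of_iff (fun g => by tauto)⟩

theorem Pr.imp {P Q : Γ → Prop} (hP : Pr P) (hQ : Pr Q) : Pr (fun g => P g → Q g) :=
  (Pr.or hP.not hQ).of_iff (fun g => by tauto)

theorem Pr.iff {P Q : Γ → Prop} (hP : Pr P) (hQ : Pr Q) : Pr (fun g => P g ↔ Q g) :=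
  (Pr.and (Pr.imp hP hQ) (Pr.imp hQ hP)).of_iff (fun g => by tauto)

theorem Pr.comp {P : Δ → Prop} (hP : Pr P) {f : Γ → Δ} (hf : Fn f) : Pr (fun g => P (f g)) :=
  ⟨Sig.comp hP.1 hf, Sig.comp hP.2 hf⟩

theorem Pr.comp₂ {P : Δ → Θ → Prop} (hP : Pr (fun p : Δ × Θ => P p.1 p.2)) {a : Γ → Δ}
    {b : Γ → Θ} (ha : Fn a) (hb : Fn b) : Pr (fun x => P (a x) (b x)) :=
  Pr.comp hP (Fn.pair ha hb)

theorem Sig.comp₂ {P : Δ → Θ → Prop} (hP : Sig (fun p : Δ × Θ => P p.1 p.2)) {a : Γ → Δ}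
    {b : Γ → Θ} (ha : Fn a) (hb : Fn b) : Sig (fun x => P (a x) (b x)) :=
  Sig.comp hP (Fn.pair ha hb)

theorem Pr.fst {P : Γ → Prop} (hP : Pr P) : Pr (fun p : Γ × Θ => P p.1) := Pr.comp hP Fn.fst'

theorem Pr.snd {P : Γ → Prop} (hP : Pr P) : Pr (fun p : Θ × Γ => P p.2) := Pr.comp hP Fn.snd'

theorem Pr.fix {P : Γ × Δ → Prop} (hP : Pr P) (g : Γ) : Pr (fun d => P (g, d)) :=
  Pr.comp hP (Fn.pair (Fn.const g) Fn.id)

theorem Fn.fix {f : Γ × Δ → Θ} (hf : Fn f) (g : Γ) : Fn (fun d => f (g, d)) :=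
  Fn.comp hf (Fn.pair (Fn.const g) Fn.id)

theorem Pr.eqC {f g : Γ → Δ} (hf : Fn f) (hg : Fn g) : Pr (fun x => f x = g x) :=
  Pr.comp₂ (P := fun a b : Δ => a = b) (Pr.of_D0 (D0.ctx_eq Mor.fst' Mor.snd')) hf hg

theorem Pr.eq {f g : Γ → N} (hf : Fn f) (hg : Fn g) : Pr (fun x => f x = g x) :=
  Pr.eqC hf hg

theorem Pr.ne {f g : Γ → N} (hf : Fn f) (hg : Fn g) : Pr (fun x => f x ≠ g x) :=
  (Pr.eq hf hg).not

theorem Pr.lt {f g : Γ → N} (hf : Fn f) (hg : Fn g) : Pr (fun x => f x < g x) :=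
  Pr.comp₂ (P := fun a b : N => a < b)
    (Pr.of_D0 (D0.lt (PT.fst PT.id) (PT.snd PT.id))) hf hg

theorem Pr.le {f g : Γ → N} (hf : Fn f) (hg : Fn g) : Pr (fun x => f x ≤ g x) :=
  Pr.comp₂ (P := fun a b : N => a ≤ b)
    (Pr.of_D0 (D0.le (PT.fst PT.id) (PT.snd PT.id))) hf hg

theorem Pr.mem {X : Set N} (hX : X ∈ Mdl.sets (N := N)) {f : Γ → N} (hf : Fn f) :
    Pr (fun x => f x ∈ X) :=
  Pr.comp (P := fun a : N => a ∈ X) (Pr.of_D0 (D0.mem hX PT.id)) hf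

theorem Sig.ball' {a : Γ → N} (ha : Fn a) {P : Γ → N → Prop}
    (hP : Sig (fun p : Γ × N => P p.1 p.2)) : Sig (fun g => ∀ y < a g, P g y) := by
  have h1 : Sig (fun q : Γ × N => ∀ y < q.2, P q.1 y) := by
    refine Sig.ball (t := fun q : Γ × N => q.2) (PT.snd PT.id) (P := fun q y => P q.1 y) ?_
    exact Sig.comp_mor hP (ρ := fun p : (Γ × N) × N => (p.1.1, p.2))
      (Mor.pair (Mor.fst Mor.fst') Mor.snd')
  exact Sig.comp h1 (Fn.pair Fn.id ha)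

theorem Sig.bex' {a : Γ → N} (ha : Fn a) {P : Γ → N → Prop}
    (hP : Sig (fun p : Γ × N => P p.1 p.2)) : Sig (fun g => ∃ y < a g, P g y) := by
  refine Sig.ex (P := fun g y => y < a g ∧ P g y) (Sig.and ?_ hP)
  exact (Pr.lt Fn.snd' (Fn.fst ha)).1

theorem Pr.ball {a : Γ → N} (ha : Fn a) {P : Γ → N → Prop}
    (hP : Pr (fun p : Γ × N => P p.1 p.2)) : Pr (fun g => ∀ y < a g, P g y) :=
  ⟨Sig.ball' ha hP.1, (Sig.bex' ha (P := fun g y => ¬ P g y) hP.2).of_iff (fun g => by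
    push Not; rfl)⟩

theorem Pr.bex {a : Γ → N} (ha : Fn a) {P : Γ → N → Prop}
    (hP : Pr (fun p : Γ × N => P p.1 p.2)) : Pr (fun g => ∃ y < a g, P g y) :=
  ⟨Sig.bex' ha hP.1, (Sig.ball' ha (P := fun g y => ¬ P g y) hP.2).of_iff (fun g => by
    push Not; rfl)⟩

theorem Pr.ball_le {a : Γ → N} (ha : Fn a) {P : Γ → N → Prop}
    (hP : Pr (fun p : Γ × N => P p.1 p.2)) : Pr (fun g => ∀ y ≤ a g, P g y) :=
  (Pr.ball (Fn.succ ha) hP).of_iff (fun g => by simp only [lt_succ_iff'])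

theorem Pr.bex_le {a : Γ → N} (ha : Fn a) {P : Γ → N → Prop}
    (hP : Pr (fun p : Γ × N => P p.1 p.2)) : Pr (fun g => ∃ y ≤ a g, P g y) :=
  (Pr.bex (Fn.succ ha) hP).of_iff (fun g => by simp only [lt_succ_iff'])

/-! ### induction -/

theorem Pr.ind {P : N → Prop} (hP : Pr P) (h0 : P 0) (hs : ∀ n, P n → P (n + 1)) :
    ∀ n, P n := Sig.ind hP.1 h0 hs

theorem Pr.strong_ind {P : N → Prop} (hP : Pr P) (h : ∀ n, (∀ m < n, P m) → P n) :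
    ∀ n, P n := by
  have h1 : ∀ n, ∀ m < n, P m := by
    refine Pr.ind (P := fun n => ∀ m < n, P m) (Pr.ball Fn.id (P := fun _ m => P m) hP.snd) ?_ ?_
    · intro m hm; exact absurd hm not_lt_zero'
    · intro n hn m hm
      rcases le_iff_lt_or_eq.1 ((lt_succ_iff' _ _).1 hm) with h2 | rfl
      · exact hn m h2
      · exact h m hn
  exact fun n => h n (h1 n)

/-- least number principle -/
theorem Pr.least {P : N → Prop} (hP : Pr P) (h : ∃ n, P n) : ∃ n, P n ∧ ∀ m < n, ¬ P m := by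
  by_contra hc
  push Not at hc
  have : ∀ n, ¬ P n := Pr.strong_ind hP.not (fun n ih hn => by
    obtain ⟨m, hm, hPm⟩ := hc n hn
    exact ih m hm hPm)
  obtain ⟨n, hn⟩ := h
  exact this n hn

/-- greatest number principle -/
theorem Sig.greatest {P : N → Prop} (hP : Sig P) {b : N} (h : ∃ n, P n) (hb : ∀ n, P n → n ≤ b) :
    ∃ n, P n ∧ ∀ m, P m → m ≤ n := by
  by_contra hc
  push Not at hc
  have h1 : ∀ k, ∃ n, P n ∧ k ≤ n := by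
    refine Sig.ind (P := fun k => ∃ n, P n ∧ k ≤ n) ?_ ?_ ?_
    · refine Sig.ex (P := fun k n => P n ∧ k ≤ n) (Sig.and ?_ ?_)
      · exact Sig.comp_mor hP (ρ := fun p : N × N => p.2) Mor.snd'
      · exact (Pr.le Fn.fst' Fn.snd').1
    · obtain ⟨n, hn⟩ := h
      exact ⟨n, hn, zero_le⟩
    · rintro k ⟨n, hn, hk⟩
      obtain ⟨m, hm, hnm⟩ := hc n hn
      exact ⟨m, hm, (succ_le_iff' _ _).2 (lt_of_le_of_lt hk hnm)⟩
  obtain ⟨n, hn, hbn⟩ := h1 (b + 1)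
  exact absurd (hb n hn) (not_le.2 ((succ_le_iff' _ _).1 hbn))

/-- collection -/
theorem Pr.coll {Q : N → N → Prop} (hQ : Pr (fun p : N × N => Q p.1 p.2)) (n : N)
    (h : ∀ a < n, ∃ y, Q a y) : ∃ u, ∀ a < n, ∃ y < u, Q a y := by
  obtain ⟨Q', hQ', hh⟩ := hQ.1
  have h1 : D0 (fun p : N × N => ∃ y < p.2, ∃ z < p.2, Q' ((p.1, y), z)) := by
    refine D0.bex (PT.snd PT.id) (P := fun (p : N × N) y => ∃ z < p.2, Q' ((p.1, y), z)) ?_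
    refine D0.bex (t := fun p : (N × N) × N => p.1.2) (PT.fst (PT.snd PT.id))
      (P := fun p z => Q' ((p.1.1, p.2), z)) ?_
    exact D0.comp hQ' (ρ := fun p : ((N × N) × N) × N => ((p.1.1.1, p.1.2), p.2))
      (Mor.pair (Mor.pair (Mor.fst (Mor.fst Mor.fst')) (Mor.fst Mor.snd')) Mor.snd')
  obtain ⟨u, hu⟩ := D0.coll (Q := fun a v => ∃ y < v, ∃ z < v, Q' ((a, y), z)) h1 n
    (fun a ha => by
      obtain ⟨y, hy⟩ := h a ha
      obtain ⟨z, hz⟩ := (hh (a, y)).1 hy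
      exact ⟨y + z + 1, y, (lt_succ_iff' _ _).2 le_self_add, z,
        (lt_succ_iff' _ _).2 le_add_self, hz⟩)
  refine ⟨u, fun a ha => ?_⟩
  obtain ⟨v, hv, y, hy, z, _, hz⟩ := hu a ha
  exact ⟨y, lt_trans hy hv, (hh (a, y)).2 ⟨z, hz⟩⟩

/-! ### definition by cases, by search -/

open Classical in
theorem Fn.ite {P : Γ → Prop} (hP : Pr P) {f g : Γ → Δ} (hf : Fn f) (hg : Fn g) :
    Fn (fun x => if P x then f x else g x) := by
  have h1 : Sig (fun p : Γ × Δ => (P p.1 ∧ f p.1 = p.2) ∨ (¬ P p.1 ∧ g p.1 = p.2)) :=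
    Sig.or (Sig.and (Sig.comp_mor hP.1 Mor.fst') hf)
      (Sig.and (Sig.comp_mor hP.2 Mor.fst') hg)
  refine h1.of_iff (fun p => ?_)
  dsimp only
  split_ifs with h
  · simp [h]
  · simp [h]

theorem Fn.ite' {P : Γ → Prop} [∀ x, Decidable (P x)] (hP : Pr P) {f g : Γ → Δ} (hf : Fn f)
    (hg : Fn g) : Fn (fun x => if P x then f x else g x) := by
  refine (Fn.ite hP hf hg).of_iff (fun x => ?_)
  split_ifs <;> rfl

open Classical in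
/-- the least number with the property `P` -/
noncomputable def mu (P : N → Prop) : N := if h : ∃ n, P n ∧ ∀ m < n, ¬ P m then h.choose else 0

theorem mu_spec {P : N → Prop} (hP : Pr P) (h : ∃ n, P n) : P (mu P) ∧ ∀ m < mu P, ¬ P m := by
  have h1 := Pr.least hP h
  unfold mu
  rw [dif_pos h1]
  exact h1.choose_spec

theorem mu_le {P : N → Prop} (hP : Pr P) {n : N} (h : P n) : mu P ≤ n :=
  not_lt.1 fun h1 => (mu_spec hP ⟨n, h⟩).2 n h1 h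

theorem mu_eq {P : N → Prop} (hP : Pr P) {n : N} (h : P n) (h2 : ∀ m < n, ¬ P m) :
    mu P = n :=
  le_antisymm (mu_le hP h) (not_lt.1 fun h1 => h2 _ h1 (mu_spec hP ⟨n, h⟩).1)

theorem Fn.mu {P : Γ → N → Prop} (hP : Pr (fun p : Γ × N => P p.1 p.2))
    (h : ∀ g, ∃ y, P g y) : Fn (fun g => mu (P g)) := by
  have h0 : ∀ g, Pr (P g) := fun g => Pr.fix hP g
  have h1 : Pr (fun p : Γ × N => P p.1 p.2 ∧ ∀ y < p.2, ¬ P p.1 y) := by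
    refine Pr.and hP (Pr.ball Fn.snd' (P := fun (p : Γ × N) y => ¬ P p.1 y) ?_)
    exact (Pr.comp₂ (P := P) hP (Fn.fst Fn.fst') Fn.snd').not
  refine h1.1.of_iff (fun p => ?_)
  constructor
  · intro h2
    rw [← h2]
    exact mu_spec (h0 p.1) (h p.1)
  · rintro ⟨h2, h3⟩
    exact mu_eq (h0 p.1) h2 h3

theorem Fn.of_graph {f : Γ → N} (h : Pr (fun p : Γ × N => f p.1 = p.2)) : Fn f := h.1

theorem Fn.tsub {f g : Γ → N} (hf : Fn f) (hg : Fn g) : Fn (fun x => f x - g x) := by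
  refine Fn.comp₂ (f := fun a b : N => a - b) ?_ hf hg
  have h1 : D0 (fun q : (N × N) × N =>
      q.1.1 = q.1.2 + q.2 ∨ (q.1.1 < q.1.2 ∧ q.2 = 0)) := by
    refine D0.or ?_ (D0.and ?_ ?_)
    · exact D0.eq (s := fun q : (N × N) × N => q.1.1) (PT.fst (PT.fst PT.id))
        (PT.add (PT.fst (PT.snd PT.id)) (PT.snd PT.id))
    · exact D0.lt (s := fun q : (N × N) × N => q.1.1) (PT.fst (PT.fst PT.id))
        (PT.fst (PT.snd PT.id))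
    · exact D0.eq (PT.snd PT.id) PT.zero
  refine Sig.of_D0 (h1.of_iff (fun q => ?_))
  obtain ⟨⟨a, b⟩, c⟩ := q
  dsimp only
  rcases le_or_gt b a with h | h
  · constructor
    · rintro rfl
      exact Or.inl (add_tsub_cancel_of_le h).symm
    · rintro (h2 | ⟨h2, _⟩)
      · rw [h2, add_tsub_cancel_left]
      · exact absurd h2 (not_lt.2 h)
  · have : a - b = 0 := tsub_eq_zero_of_le h.le
    rw [this]
    constructor
    · rintro rfl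
      exact Or.inr ⟨h, rfl⟩
    · rintro (h2 | ⟨_, h2⟩)
      · exact absurd h (not_lt.2 (by rw [h2]; exact le_self_add))
      · exact h2.symm

open Classical in
/-- the greatest `t ≤ b` with `P t` (zero if there is none) -/
noncomputable def grt (P : N → Prop) (b : N) : N :=
  mu (fun t => (t ≤ b ∧ P t ∧ ∀ s ≤ b, P s → s ≤ t) ∨ (t = 0 ∧ ∀ s ≤ b, ¬ P s))

theorem Pr.greatest {P : N → Prop} (hP : Pr P) {b : N} (h : ∃ n ≤ b, P n) :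
    ∃ n ≤ b, P n ∧ ∀ m ≤ b, P m → m ≤ n := by
  obtain ⟨n, hn, hPn⟩ := h
  obtain ⟨m, ⟨h1, h2⟩, h3⟩ := Sig.greatest (P := fun n => n ≤ b ∧ P n)
    (Pr.and (Pr.le Fn.id (Fn.const b)) hP).1 ⟨n, hn, hPn⟩ (fun n h => h.1)
  exact ⟨m, h1, h2, fun k hk hPk => h3 k ⟨hk, hPk⟩⟩

theorem grt_pr {P : Γ → N → Prop} (hP : Pr (fun p : Γ × N => P p.1 p.2)) :
    Pr (fun q : (Γ × N) × N => (q.2 ≤ q.1.2 ∧ P q.1.1 q.2 ∧ ∀ s ≤ q.1.2, P q.1.1 s → s ≤ q.2) ∨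
      (q.2 = 0 ∧ ∀ s ≤ q.1.2, ¬ P q.1.1 s)) := by
  refine Pr.or (Pr.and (Pr.le Fn.snd' (Fn.fst Fn.snd')) (Pr.and ?_ ?_)) (Pr.and ?_ ?_)
  · exact Pr.comp₂ (P := P) hP (Fn.fst Fn.fst') Fn.snd'
  · refine Pr.ball_le (Fn.fst Fn.snd') (P := fun (q : (Γ × N) × N) s => P q.1.1 s → s ≤ q.2) ?_
    refine Pr.imp ?_ (Pr.le Fn.snd' (Fn.fst Fn.snd'))
    exact Pr.comp₂ (P := P) hP (Fn.fst (Fn.fst Fn.fst')) Fn.snd'
  · exact Pr.eq Fn.snd' (Fn.const 0)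
  · refine Pr.ball_le (Fn.fst Fn.snd') (P := fun (q : (Γ × N) × N) s => ¬ P q.1.1 s) ?_
    exact (Pr.comp₂ (P := P) hP (Fn.fst (Fn.fst Fn.fst')) Fn.snd').not

theorem grt_ex {P : N → Prop} (hP : Pr P) (b : N) :
    ∃ t, (t ≤ b ∧ P t ∧ ∀ s ≤ b, P s → s ≤ t) ∨ (t = 0 ∧ ∀ s ≤ b, ¬ P s) := by
  by_cases h : ∃ n ≤ b, P n
  · obtain ⟨n, h1, h2, h3⟩ := Pr.greatest hP h
    exact ⟨n, Or.inl ⟨h1, h2, h3⟩⟩
  · push Not at h
    exact ⟨0, Or.inr ⟨rfl, h⟩⟩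

theorem Fn.grt {P : Γ → N → Prop} (hP : Pr (fun p : Γ × N => P p.1 p.2)) {b : Γ → N}
    (hb : Fn b) : Fn (fun g => grt (P g) (b g)) := by
  refine Fn.comp₂ (f := fun (g : Γ) (b : N) => RM.grt (P g) b) ?_ Fn.id hb
  exact Fn.mu (P := fun (q : Γ × N) t => (t ≤ q.2 ∧ P q.1 t ∧ ∀ s ≤ q.2, P q.1 s → s ≤ t) ∨
    (t = 0 ∧ ∀ s ≤ q.2, ¬ P q.1 s)) (grt_pr hP) (fun q => grt_ex (Pr.fix hP q.1) q.2)

theorem grt_spec {P : N → Prop} (hP : Pr P) {b : N} (h : ∃ n ≤ b, P n) :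
    grt P b ≤ b ∧ P (grt P b) ∧ ∀ s ≤ b, P s → s ≤ grt P b := by
  have h0 : Pr (fun t => (t ≤ b ∧ P t ∧ ∀ s ≤ b, P s → s ≤ t) ∨ (t = 0 ∧ ∀ s ≤ b, ¬ P s)) :=
    Pr.fix (grt_pr (Γ := N) (P := fun _ t => P t) hP.snd) (0, b)
  rcases (mu_spec h0 (grt_ex hP b)).1 with h1 | ⟨_, h1⟩
  · exact h1
  · obtain ⟨n, hn, hPn⟩ := h
    exact absurd hPn (h1 n hn)

end Pool.Agent.Helper7.RM
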