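import Mathlib
import Pool.Agent.Helper7.RM.Api

/-! From `Σ⁰₁` comprehension to arithmetical comprehension. -/

namespace Pool.Agent.Helper7.RM

universe u

variable {N : Type u} [Mdl N]

theorem ac_pair_lt {s t x y : N} (h : s < t) (hx : x ≤ s) : s * s + x < t * t + y := by
  have h1 : s + 1 ≤ t := (succ_le_iff' _ _).2 h
  have h2 : (s + 1) * (s + 1) ≤ t * t := mul_le_mul h1 h1 zero_le zero_le
  have h3 : s * s + x ≤ s * s + s := add_le_add le_rfl hx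
  have h4 : s * s + s < (s + 1) * (s + 1) := by
    have : (s + 1) * (s + 1) = (s * s + s) + s + 1 := by ring
    rw [this]
    exact (lt_succ_iff' _ _).2 le_self_add
  exact lt_of_le_of_lt h3 (lt_of_lt_of_le h4 (le_trans h2 le_self_add))

theorem ac_pair_inj {x y x' y' : N} (h : (x + y) * (x + y) + x = (x' + y') * (x' + y') + x') :
    x = x' ∧ y = y' := by
  rcases lt_trichotomy (x + y) (x' + y') with h1 | h1 | h1
  · exact absurd h (ac_pair_lt h1 le_self_add).ne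
  · rw [h1] at h
    have h2 : x = x' := add_left_cancel h
    rw [h2] at h1
    exact ⟨h2, add_left_cancel h1⟩
  · exact absurd h (ac_pair_lt h1 le_self_add).ne'

/-- the context `Γ` has a code in `N` -/
def AcEnc (Γ : Type u) [Cx N Γ] : Prop := ∃ enc : Γ → N, Fn enc ∧ Function.Injective enc

theorem AcEnc.base : AcEnc (N := N) N := ⟨fun a => a, Fn.id, fun _ _ h => h⟩

theorem AcEnc.prod {Γ : Type u} [Cx N Γ] (h : AcEnc (N := N) Γ) : AcEnc (N := N) (Γ × N) := by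
  obtain ⟨e, he, hi⟩ := h
  refine ⟨fun p => (e p.1 + p.2) * (e p.1 + p.2) + e p.1, ?_, ?_⟩
  · exact Fn.add (Fn.mul (Fn.add (Fn.fst he) Fn.snd') (Fn.add (Fn.fst he) Fn.snd')) (Fn.fst he)
  · rintro ⟨g, a⟩ ⟨g', a'⟩ h
    obtain ⟨h1, h2⟩ := ac_pair_inj h
    exact Prod.ext (hi h1) h2

theorem ac_term {Γ : Type u} [Cx N Γ] (V : ℕ → Set N) (hV : ∀ i, V i ∈ Mdl.sets (N := N))
    (w : ℕ → N) (t : Tm) : Fn (fun g : Γ => t.val (Cx.emb g w)) := by
  refine Sig.of_D0 ⟨.eq (t.ren Nat.succ) (.var 0), trivial, w, V, hV, fun p => ?_⟩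
  show t.val (Cx.emb p.1 w) = p.2 ↔ (t.ren Nat.succ).val (cons p.2 (Cx.emb p.1 w)) = p.2
  rw [Tm.val_ren]
  rfl

theorem ac_main (hS : ∀ P : N → Prop, Sig P → {n | P n} ∈ Mdl.sets (N := N))
    (V : ℕ → Set N) (hV : ∀ i, V i ∈ Mdl.sets (N := N)) (φ : Fm) :
    ∀ (Γ : Type u) [Cx N Γ], AcEnc (N := N) Γ → ∀ w : ℕ → N,
      Pr (fun g : Γ => φ.Sat (Cx.emb g w) V) := by
  have key : ∀ (Γ : Type u) [Cx N Γ], AcEnc (N := N) Γ → ∀ P : Γ → Prop, Sig P → Pr P := by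
    intro Γ _ ⟨e, he, hi⟩ P hP
    have h1 : Sig (fun n : N => ∃ g : Γ, e g = n ∧ P g) := by
      refine Sig.exs (P := fun (n : N) (g : Γ) => e g = n ∧ P g) (Sig.and ?_ ?_)
      · exact (Pr.eq (f := fun p : N × Γ => e p.2) (Fn.snd he) Fn.fst').1
      · exact Sig.comp_mor hP Mor.snd'
    have h2 := Pr.mem (hS _ h1) he
    refine h2.of_iff (fun g => ?_)
    constructor
    · intro h; exact ⟨g, rfl, h⟩
    · rintro ⟨g', h3, h4⟩
      rw [← hi h3]; exact h4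
  induction φ with
  | eq s t => intro Γ _ _ w; exact Pr.of_D0 ⟨.eq s t, trivial, w, V, hV, fun g => Iff.rfl⟩
  | lt s t => intro Γ _ _ w; exact Pr.of_D0 ⟨.lt s t, trivial, w, V, hV, fun g => Iff.rfl⟩
  | mem t i => intro Γ _ _ w; exact Pr.of_D0 ⟨.mem t i, trivial, w, V, hV, fun g => Iff.rfl⟩
  | neg φ ih => intro Γ _ hΓ w; exact (ih Γ hΓ w).not
  | and φ ψ ih1 ih2 => intro Γ _ hΓ w; exact Pr.and (ih1 Γ hΓ w) (ih2 Γ hΓ w)
  | ball t φ ih =>
    intro Γ _ hΓ w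
    exact Pr.ball (ac_term V hV w t) (P := fun g a => φ.Sat (cons a (Cx.emb g w)) V)
      (ih (Γ × N) hΓ.prod w)
  | all φ ih =>
    intro Γ _ hΓ w
    have h1 : Sig (fun g : Γ => ∃ a : N, ¬ φ.Sat (cons a (Cx.emb g w)) V) :=
      Sig.ex (P := fun g a => ¬ φ.Sat (cons a (Cx.emb g w)) V) (ih (Γ × N) hΓ.prod w).2
    refine (key Γ hΓ _ h1).not.of_iff (fun g => ?_)
    simp only [Fm.Sat, not_exists, not_not]
  | ex φ ih =>
    intro Γ _ hΓ w
    exact key Γ hΓ _ (Sig.ex (P := fun g a => φ.Sat (cons a (Cx.emb g w)) V)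
      (ih (Γ × N) hΓ.prod w).1)

theorem arith_comp (hS : ∀ P : N → Prop, Sig P → {n | P n} ∈ Mdl.sets (N := N)) (φ : Fm)
    (v : ℕ → N) (V : ℕ → Set N) (hV : ∀ i, V i ∈ Mdl.sets (N := N)) :
    {n | φ.Sat (cons n v) V} ∈ Mdl.sets (N := N) :=
  Pr.mem_sets (ac_main hS V hV φ N AcEnc.base v)

end Pool.Agent.Helper7.RM
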