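import Mathlib
import Pool.Agent.Helper81.RM.Beta

/-! Definition by primitive recursion. -/

namespace Pool.Agent.Helper7.RM

universe u

variable {N : Type u} [Mdl N] {Γ Δ Θ Λ : Type u} [Cx N Γ] [Cx N Δ] [Cx N Θ] [Cx N Λ]

theorem exists_prec {a : Γ → N} (ha : Fn a) {h : Γ → N → N → N}
    (hh : Fn (fun q : (Γ × N) × N => h q.1.1 q.1.2 q.2)) :
    ∃ f : Γ → N → N, Fn (fun p : Γ × N => f p.1 p.2) ∧ (∀ g, f g 0 = a g) ∧
      ∀ g n, f g (n + 1) = h g n (f g n) :=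
  Helper81.RM.prim_rec ha hh

/-- primitive recursion without parameters -/
theorem exists_prec' (a : N) {h : N → N → N} (hh : Fn (fun q : N × N => h q.1 q.2)) :
    ∃ f : N → N, Fn f ∧ f 0 = a ∧ ∀ n, f (n + 1) = h n (f n) := by
  obtain ⟨f, hf, h0, hs⟩ := exists_prec (Γ := N) (a := fun _ => a) (Fn.const a)
    (h := fun _ n y => h n y)
    (Fn.comp (f := fun q : N × N => h q.1 q.2) hh (Fn.pair (Fn.fst Fn.snd') Fn.snd'))
  exact ⟨fun n => f 0 n, Fn.comp (f := fun p : N × N => f p.1 p.2) hf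
    (Fn.pair (Fn.const 0) Fn.id), h0 0, fun n => hs 0 n⟩

end Pool.Agent.Helper7.RM
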