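import Mathlib
import Pool.Agent.Helper7.RM.Api

/-! The ring of differences of the number part of a model. -/

namespace Pool.Agent.Helper7.RM

universe u

variable {N : Type u} [Mdl N]

/-- equality of differences -/
def zsetoid (N : Type u) [Mdl N] : Setoid (N × N) where
  r p q := p.1 + q.2 = q.1 + p.2
  iseqv := by
    refine ⟨fun p => rfl, fun {p q} h => h.symm, fun {p q r} h h' => ?_⟩
    have h1 : (p.1 + r.2) + q.2 = (r.1 + p.2) + q.2 := by
      calc (p.1 + r.2) + q.2 = (p.1 + q.2) + r.2 := by ring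
        _ = (q.1 + p.2) + r.2 := by rw [h]
        _ = (q.1 + r.2) + p.2 := by ring
        _ = (r.1 + q.2) + p.2 := by rw [h']
        _ = (r.1 + p.2) + q.2 := by ring
    exact add_right_cancel h1

/-- the ring of differences -/
def ZZ (N : Type u) [Mdl N] : Type u := Quotient (zsetoid N)

/-- the class of a difference -/
def z_mk (a b : N) : ZZ N := Quotient.mk (zsetoid N) (a, b)

theorem z_mk_eq {a b c d : N} : z_mk a b = z_mk c d ↔ a + d = c + b :=
  ⟨fun h => Quotient.exact h, fun h => Quotient.sound h⟩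

theorem z_mk_surj (z : ZZ N) : ∃ a b, z = z_mk a b := by
  induction z using Quotient.inductionOn with
  | h p => exact ⟨p.1, p.2, rfl⟩

/-- addition of differences -/
def z_add : ZZ N → ZZ N → ZZ N :=
  Quotient.map₂ (fun p q => (p.1 + q.1, p.2 + q.2)) (by
    intro p p' h q q' h'
    have h1 : p.1 + p'.2 = p'.1 + p.2 := h
    have h2 : q.1 + q'.2 = q'.1 + q.2 := h'
    show (p.1 + q.1) + (p'.2 + q'.2) = (p'.1 + q'.1) + (p.2 + q.2)
    calc (p.1 + q.1) + (p'.2 + q'.2) = (p.1 + p'.2) + (q.1 + q'.2) := by ring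
      _ = (p'.1 + p.2) + (q'.1 + q.2) := by rw [h1, h2]
      _ = _ := by ring)

/-- multiplication of differences -/
def z_mul : ZZ N → ZZ N → ZZ N :=
  Quotient.map₂ (fun p q => (p.1 * q.1 + p.2 * q.2, p.1 * q.2 + p.2 * q.1)) (by
    intro p p' h q q' h'
    have h1 : p.1 + p'.2 = p'.1 + p.2 := h
    have h2 : q.1 + q'.2 = q'.1 + q.2 := h'
    show (p.1 * q.1 + p.2 * q.2) + (p'.1 * q'.2 + p'.2 * q'.1)
      = (p'.1 * q'.1 + p'.2 * q'.2) + (p.1 * q.2 + p.2 * q.1)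
    have e1 : (p.1 * q.1 + p.2 * q.2) + (p'.1 * q.2 + p'.2 * q.1)
        = (p'.1 * q.1 + p'.2 * q.2) + (p.1 * q.2 + p.2 * q.1) := by
      calc _ = (p.1 + p'.2) * q.1 + (p'.1 + p.2) * q.2 := by ring
        _ = (p'.1 + p.2) * q.1 + (p.1 + p'.2) * q.2 := by rw [h1]
        _ = _ := by ring
    have e2 : (p'.1 * q.1 + p'.2 * q.2) + (p'.1 * q'.2 + p'.2 * q'.1)
        = (p'.1 * q'.1 + p'.2 * q'.2) + (p'.1 * q.2 + p'.2 * q.1) := by
      calc _ = p'.1 * (q.1 + q'.2) + p'.2 * (q'.1 + q.2) := by ring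
        _ = p'.1 * (q'.1 + q.2) + p'.2 * (q.1 + q'.2) := by rw [h2]
        _ = _ := by ring
    have e3 : ((p.1 * q.1 + p.2 * q.2) + (p'.1 * q'.2 + p'.2 * q'.1))
          + ((p'.1 * q.2 + p'.2 * q.1) + (p'.1 * q.1 + p'.2 * q.2))
        = ((p'.1 * q'.1 + p'.2 * q'.2) + (p.1 * q.2 + p.2 * q.1))
          + ((p'.1 * q.2 + p'.2 * q.1) + (p'.1 * q.1 + p'.2 * q.2)) := by
      calc _ = ((p.1 * q.1 + p.2 * q.2) + (p'.1 * q.2 + p'.2 * q.1))
            + ((p'.1 * q.1 + p'.2 * q.2) + (p'.1 * q'.2 + p'.2 * q'.1)) := by ring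
        _ = ((p'.1 * q.1 + p'.2 * q.2) + (p.1 * q.2 + p.2 * q.1))
            + ((p'.1 * q'.1 + p'.2 * q'.2) + (p'.1 * q.2 + p'.2 * q.1)) := by rw [e1, e2]
        _ = _ := by ring
    exact add_right_cancel e3)

/-- negation of differences -/
def z_neg : ZZ N → ZZ N :=
  Quotient.map (fun p => (p.2, p.1)) (by
    intro p p' h
    have h1 : p.1 + p'.2 = p'.1 + p.2 := h
    show p.2 + p'.1 = p'.2 + p.1
    rw [add_comm p.2, add_comm p'.2, h1])

theorem z_add_mk (a b c d : N) : z_add (z_mk a b) (z_mk c d) = z_mk (a + c) (b + d) := rfl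

theorem z_mul_mk (a b c d : N) :
    z_mul (z_mk a b) (z_mk c d) = z_mk (a * c + b * d) (a * d + b * c) := rfl

theorem z_neg_mk (a b : N) : z_neg (z_mk a b) = z_mk b a := rfl

instance : Zero (ZZ N) := ⟨z_mk 0 0⟩

instance : One (ZZ N) := ⟨z_mk 1 0⟩

instance : Add (ZZ N) := ⟨z_add⟩

instance : Mul (ZZ N) := ⟨z_mul⟩

instance : Neg (ZZ N) := ⟨z_neg⟩

noncomputable instance : CommRing (ZZ N) where
  add_assoc x y z := by
    obtain ⟨a, b, rfl⟩ := z_mk_surj x
    obtain ⟨c, d, rfl⟩ := z_mk_surj y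
    obtain ⟨e, f, rfl⟩ := z_mk_surj z
    show z_add (z_add _ _) _ = z_add _ (z_add _ _)
    rw [z_add_mk, z_add_mk, z_add_mk, z_add_mk, z_mk_eq]
    ring
  zero_add x := by
    obtain ⟨a, b, rfl⟩ := z_mk_surj x
    show z_add (z_mk 0 0) _ = _
    rw [z_add_mk, z_mk_eq]
    ring
  add_zero x := by
    obtain ⟨a, b, rfl⟩ := z_mk_surj x
    show z_add _ (z_mk 0 0) = _
    rw [z_add_mk, z_mk_eq]
    ring
  add_comm x y := by
    obtain ⟨a, b, rfl⟩ := z_mk_surj x
    obtain ⟨c, d, rfl⟩ := z_mk_surj y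
    show z_add _ _ = z_add _ _
    rw [z_add_mk, z_add_mk, z_mk_eq]
    ring
  mul_assoc x y z := by
    obtain ⟨a, b, rfl⟩ := z_mk_surj x
    obtain ⟨c, d, rfl⟩ := z_mk_surj y
    obtain ⟨e, f, rfl⟩ := z_mk_surj z
    show z_mul (z_mul _ _) _ = z_mul _ (z_mul _ _)
    rw [z_mul_mk, z_mul_mk, z_mul_mk, z_mul_mk, z_mk_eq]
    ring
  one_mul x := by
    obtain ⟨a, b, rfl⟩ := z_mk_surj x
    show z_mul (z_mk 1 0) _ = _
    rw [z_mul_mk, z_mk_eq]
    ring
  mul_one x := by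
    obtain ⟨a, b, rfl⟩ := z_mk_surj x
    show z_mul _ (z_mk 1 0) = _
    rw [z_mul_mk, z_mk_eq]
    ring
  mul_comm x y := by
    obtain ⟨a, b, rfl⟩ := z_mk_surj x
    obtain ⟨c, d, rfl⟩ := z_mk_surj y
    show z_mul _ _ = z_mul _ _
    rw [z_mul_mk, z_mul_mk, z_mk_eq]
    ring
  left_distrib x y z := by
    obtain ⟨a, b, rfl⟩ := z_mk_surj x
    obtain ⟨c, d, rfl⟩ := z_mk_surj y
    obtain ⟨e, f, rfl⟩ := z_mk_surj z
    show z_mul _ (z_add _ _) = z_add (z_mul _ _) (z_mul _ _)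
    rw [z_add_mk, z_mul_mk, z_mul_mk, z_mul_mk, z_add_mk, z_mk_eq]
    ring
  right_distrib x y z := by
    obtain ⟨a, b, rfl⟩ := z_mk_surj x
    obtain ⟨c, d, rfl⟩ := z_mk_surj y
    obtain ⟨e, f, rfl⟩ := z_mk_surj z
    show z_mul (z_add _ _) _ = z_add (z_mul _ _) (z_mul _ _)
    rw [z_add_mk, z_mul_mk, z_mul_mk, z_mul_mk, z_add_mk, z_mk_eq]
    ring
  zero_mul x := by
    obtain ⟨a, b, rfl⟩ := z_mk_surj x
    show z_mul (z_mk 0 0) _ = z_mk 0 0
    rw [z_mul_mk, z_mk_eq]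
    ring
  mul_zero x := by
    obtain ⟨a, b, rfl⟩ := z_mk_surj x
    show z_mul _ (z_mk 0 0) = z_mk 0 0
    rw [z_mul_mk, z_mk_eq]
    ring
  neg_add_cancel x := by
    obtain ⟨a, b, rfl⟩ := z_mk_surj x
    show z_add (z_neg _) _ = z_mk 0 0
    rw [z_neg_mk, z_add_mk, z_mk_eq]
    ring
  nsmul := nsmulRec
  zsmul := zsmulRec

theorem z_add_mk' (a b c d : N) : z_mk a b + z_mk c d = z_mk (a + c) (b + d) := rfl

theorem z_mul_mk' (a b c d : N) :
    z_mk a b * z_mk c d = z_mk (a * c + b * d) (a * d + b * c) := rfl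

theorem z_neg_mk' (a b : N) : - z_mk a b = z_mk b a := rfl

theorem z_sub_mk' (a b c d : N) : z_mk a b - z_mk c d = z_mk (a + d) (b + c) := by
  rw [sub_eq_add_neg, z_neg_mk', z_add_mk']

theorem z_zero_mk : (0 : ZZ N) = z_mk 0 0 := rfl

theorem z_one_mk : (1 : ZZ N) = z_mk 1 0 := rfl

/-- the order of differences -/
def z_le : ZZ N → ZZ N → Prop :=
  Quotient.lift₂ (fun p q => p.1 + q.2 ≤ q.1 + p.2) (by
    intro p q p' q' h h'
    have h1 : p.1 + p'.2 = p'.1 + p.2 := h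
    have h2 : q.1 + q'.2 = q'.1 + q.2 := h'
    refine propext ?_
    show p.1 + q.2 ≤ q.1 + p.2 ↔ p'.1 + q'.2 ≤ q'.1 + p'.2
    have e1 : (p.1 + q.2) + (p'.2 + q'.2) = (p'.1 + q'.2) + (p.2 + q.2) := by
      calc _ = (p.1 + p'.2) + (q.2 + q'.2) := by ring
        _ = (p'.1 + p.2) + (q.2 + q'.2) := by rw [h1]
        _ = _ := by ring
    have e2 : (q.1 + p.2) + (p'.2 + q'.2) = (q'.1 + p'.2) + (p.2 + q.2) := by
      calc _ = (q.1 + q'.2) + (p.2 + p'.2) := by ring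
        _ = (q'.1 + q.2) + (p.2 + p'.2) := by rw [h2]
        _ = _ := by ring
    rw [← add_le_add_iff_right (p'.2 + q'.2), e1, e2, add_le_add_iff_right])

theorem z_le_mk {a b c d : N} : z_le (z_mk a b) (z_mk c d) ↔ a + d ≤ c + b := Iff.rfl

open Classical in
noncomputable instance : LinearOrder (ZZ N) where
  le := z_le
  le_refl x := by
    obtain ⟨a, b, rfl⟩ := z_mk_surj x
    exact le_refl (a + b)
  le_trans x y z := by
    obtain ⟨a, b, rfl⟩ := z_mk_surj x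
    obtain ⟨c, d, rfl⟩ := z_mk_surj y
    obtain ⟨e, f, rfl⟩ := z_mk_surj z
    intro h h'
    have h1 : a + d ≤ c + b := h
    have h2 : c + f ≤ e + d := h'
    show a + f ≤ e + b
    have h3 : (a + f) + (c + d) ≤ (e + b) + (c + d) := by
      calc (a + f) + (c + d) = (a + d) + (c + f) := by ring
        _ ≤ (c + b) + (e + d) := add_le_add h1 h2
        _ = _ := by ring
    exact le_of_add_le_add_right h3
  le_antisymm x y := by
    obtain ⟨a, b, rfl⟩ := z_mk_surj x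
    obtain ⟨c, d, rfl⟩ := z_mk_surj y
    intro h h'
    have h1 : a + d ≤ c + b := h
    have h2 : c + b ≤ a + d := h'
    exact z_mk_eq.2 (le_antisymm h1 h2)
  le_total x y := by
    obtain ⟨a, b, rfl⟩ := z_mk_surj x
    obtain ⟨c, d, rfl⟩ := z_mk_surj y
    exact le_total (a + d) (c + b)
  toDecidableLE := fun _ _ => Classical.propDecidable _
  toDecidableEq := fun _ _ => Classical.propDecidable _
  toDecidableLT := fun _ _ => Classical.propDecidable _

theorem z_le_mk' {a b c d : N} : z_mk a b ≤ z_mk c d ↔ a + d ≤ c + b := Iff.rfl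

theorem z_lt_mk' {a b c d : N} : z_mk a b < z_mk c d ↔ a + d < c + b := by
  rw [← not_le, ← not_le, z_le_mk']

theorem z_pos_mk {x : ZZ N} (h : 0 < x) : ∃ a : N, 0 < a ∧ x = z_mk a 0 := by
  obtain ⟨a, b, rfl⟩ := z_mk_surj x
  rw [z_zero_mk, z_lt_mk'] at h
  have h1 : b < a := by simpa using h
  refine ⟨a - b, tsub_pos_of_lt h1, ?_⟩
  rw [z_mk_eq, add_zero]
  exact (tsub_add_cancel_of_le h1.le).symm

instance z_ordered_add : IsOrderedAddMonoid (ZZ N) where
  add_le_add_left x y h z := by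
    obtain ⟨a, b, rfl⟩ := z_mk_surj x
    obtain ⟨c, d, rfl⟩ := z_mk_surj y
    obtain ⟨e, f, rfl⟩ := z_mk_surj z
    rw [z_le_mk'] at h
    rw [z_add_mk', z_add_mk', z_le_mk']
    calc a + e + (d + f) = (a + d) + (e + f) := by ring
      _ ≤ (c + b) + (e + f) := by gcongr
      _ = _ := by ring

instance z_nontrivial : Nontrivial (ZZ N) :=
  ⟨⟨0, 1, fun h => by
    rw [z_zero_mk, z_one_mk, z_mk_eq] at h
    simp at h⟩⟩

instance z_zero_le_one : ZeroLEOneClass (ZZ N) :=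
  ⟨by
    rw [z_zero_mk, z_one_mk, z_le_mk']
    simp⟩

instance : IsStrictOrderedRing (ZZ N) :=
  IsStrictOrderedRing.of_mul_pos (fun x y hx hy => by
    obtain ⟨a, ha, rfl⟩ := z_pos_mk hx
    obtain ⟨b, hb, rfl⟩ := z_pos_mk hy
    rw [z_mul_mk', z_zero_mk, z_lt_mk']
    have := mul_pos ha hb
    simpa using this)

/-- the embedding -/
noncomputable def zi : N →+* ZZ N where
  toFun a := z_mk a 0
  map_zero' := rfl
  map_one' := rfl
  map_add' a b := by
    rw [z_add_mk', add_zero]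
  map_mul' a b := by
    rw [z_mul_mk']
    simp

theorem zi_mk (a : N) : zi a = z_mk a 0 := rfl

@[simp] theorem zi_le {a b : N} : zi a ≤ zi b ↔ a ≤ b := by
  rw [zi_mk, zi_mk, z_le_mk', add_zero, add_zero]

@[simp] theorem zi_lt {a b : N} : zi a < zi b ↔ a < b := by
  rw [zi_mk, zi_mk, z_lt_mk', add_zero, add_zero]

@[simp] theorem zi_inj {a b : N} : zi a = zi b ↔ a = b := by
  rw [zi_mk, zi_mk, z_mk_eq, add_zero, add_zero]

theorem zi_nonneg (a : N) : 0 ≤ zi a := by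
  rw [← map_zero zi, zi_le]
  exact zero_le

theorem exists_zi {z : ZZ N} (hz : 0 ≤ z) : ∃ a : N, z = zi a := by
  rcases hz.eq_or_lt with h | h
  · exact ⟨0, by rw [map_zero]; exact h.symm⟩
  · obtain ⟨a, _, rfl⟩ := z_pos_mk h
    exact ⟨a, rfl⟩

theorem exists_sub (z : ZZ N) : ∃ a b : N, z = zi a - zi b := by
  obtain ⟨a, b, rfl⟩ := z_mk_surj z
  refine ⟨a, b, ?_⟩
  rw [zi_mk, zi_mk, z_sub_mk', add_zero, zero_add]

theorem z_discrete {z : ZZ N} (hz : 0 < z) : 1 ≤ z := by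
  obtain ⟨a, ha, rfl⟩ := z_pos_mk hz
  rw [z_one_mk, z_le_mk', add_zero, add_zero]
  have := (succ_le_iff' 0 a).2 ha
  simpa using this

theorem z_lt_iff {y z : ZZ N} : y < z ↔ y + 1 ≤ z := by
  constructor
  · intro h
    have := z_discrete (sub_pos.2 h)
    linarith
  · intro h
    linarith [zero_lt_one (α := ZZ N)]

theorem zi_sub {a b : N} (h : b ≤ a) : zi (a - b) = zi a - zi b := by
  rw [eq_sub_iff_add_eq, ← map_add, tsub_add_cancel_of_le h]

theorem zi_dvd {a b : N} : zi a ∣ zi b ↔ a ∣ b := by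
  constructor
  · rintro ⟨z, hz⟩
    rcases lt_or_ge z 0 with h | h
    · have h1 : zi b ≤ 0 := by
        rw [hz]
        exact mul_nonpos_of_nonneg_of_nonpos (zi_nonneg a) h.le
      have h2 : zi b = 0 := le_antisymm h1 (zi_nonneg b)
      have h3 : b = 0 := by
        rw [← map_zero zi, zi_inj] at h2
        exact h2
      rw [h3]
      exact dvd_zero a
    · obtain ⟨c, rfl⟩ := exists_zi h
      rw [← map_mul, zi_inj] at hz
      exact ⟨c, hz⟩
  · exact fun h => map_dvd zi h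

end Pool.Agent.Helper7.RM
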