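import Mathlib
import Pool.Agent.Helper7.RM.Prec
import Pool.Agent.Helper7.RM.ZRing

/-! Powers of two, division, congruences. -/

namespace Pool.Agent.Helper7.RM

universe u

variable {N : Type u} [Mdl N] {Γ Δ Θ Λ : Type u} [Cx N Γ] [Cx N Δ] [Cx N Θ] [Cx N Λ]

/-! ### powers of two -/

theorem exists_ex2 : ∃ f : N → N, Fn f ∧ f 0 = 1 ∧ ∀ n, f (n + 1) = 2 * f n :=
  exists_prec' (1 : N) (h := fun _ y => 2 * y) (Fn.mul (Fn.const 2) Fn.snd')

/-- `2 ^ x` -/
noncomputable def ex2 : N → N := Classical.choose exists_ex2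

theorem fn_ex2' : Fn (ex2 : N → N) := (Classical.choose_spec exists_ex2).1

theorem fn_ex2 {a : Γ → N} (ha : Fn a) : Fn (fun g => ex2 (a g)) := Fn.comp fn_ex2' ha

@[simp] theorem ex2_zero : ex2 (0 : N) = 1 := (Classical.choose_spec exists_ex2).2.1

theorem ex2_succ (n : N) : ex2 (n + 1) = 2 * ex2 n := (Classical.choose_spec exists_ex2).2.2 n

theorem ex2_one : ex2 (1 : N) = 2 := by
  have := ex2_succ (0 : N)
  rw [zero_add, ex2_zero, mul_one] at this
  exact this

theorem ex2_add (x y : N) : ex2 (x + y) = ex2 x * ex2 y := by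
  refine Pr.ind (P := fun y => ex2 (x + y) = ex2 x * ex2 y) (Pr.eq (fn_ex2 (Fn.add
    (Fn.const x) Fn.id)) (Fn.mul (Fn.const _) (fn_ex2 Fn.id))) ?_ ?_ y
  · rw [add_zero, ex2_zero, mul_one]
  · intro n hn
    rw [← add_assoc, ex2_succ, hn, ex2_succ]
    ring

theorem ex2_pos (x : N) : 0 < ex2 x := by
  refine Pr.ind (P := fun x => 0 < ex2 x) (Pr.lt (Fn.const 0) (fn_ex2 Fn.id)) ?_ ?_ x
  · rw [ex2_zero]; exact zero_lt_one
  · intro n hn
    rw [ex2_succ]
    exact mul_pos zero_lt_two hn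

theorem lt_ex2 (x : N) : x < ex2 x := by
  refine Pr.ind (P := fun x => x < ex2 x) (Pr.lt Fn.id (fn_ex2 Fn.id)) ?_ ?_ x
  · rw [ex2_zero]; exact zero_lt_one
  · intro n hn
    rw [ex2_succ, two_mul]
    exact add_lt_add_of_lt_of_le hn (Helper81.RM.one_le_of_pos (ex2_pos n))

theorem ex2_mono {x y : N} (h : x < y) : ex2 x < ex2 y := by
  obtain ⟨k, rfl⟩ := exists_add_of_le ((succ_le_iff' x y).2 h)
  rw [ex2_add, ex2_succ]
  have h1 : 0 < ex2 x := ex2_pos x
  have h2 : 1 ≤ ex2 k := Helper81.RM.one_le_of_pos (ex2_pos k)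
  calc ex2 x < 2 * ex2 x := by rw [two_mul]; exact lt_add_of_pos_left _ h1
    _ ≤ 2 * ex2 x * ex2 k := le_mul_of_one_le_right' h2

theorem ex2_lt {x y : N} : ex2 x < ex2 y ↔ x < y := by
  constructor
  · intro h
    by_contra hc
    rcases lt_or_eq_of_le (not_lt.1 hc) with h1 | h1
    · exact absurd h (not_lt.2 (ex2_mono h1).le)
    · rw [h1] at h; exact lt_irrefl _ h
  · exact ex2_mono

theorem ex2_le {x y : N} : ex2 x ≤ ex2 y ↔ x ≤ y := by
  rw [← not_lt, ← not_lt, ex2_lt]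

theorem ex2_inj {x y : N} : ex2 x = ex2 y ↔ x = y := by
  constructor
  · intro h
    exact le_antisymm (ex2_le.1 h.le) (ex2_le.1 h.ge)
  · rintro rfl; rfl

theorem ex2_dvd {x y : N} (h : x ≤ y) : ex2 x ∣ ex2 y := by
  obtain ⟨k, rfl⟩ := exists_add_of_le h
  rw [ex2_add]
  exact Dvd.intro _ rfl

theorem ex2_dvd_iff {x y : N} : ex2 x ∣ ex2 y ↔ x ≤ y :=
  ⟨fun h => ex2_le.1 (Helper81.RM.le_of_dvd' (ex2_pos y) h), ex2_dvd⟩

/-! ### division -/

/-- quotient -/
noncomputable def dv (a b : N) : N := mu (fun q => b = 0 ∨ a < b * (q + 1))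

/-- remainder -/
noncomputable def md (a b : N) : N := a - b * dv a b

theorem dv_pr : Pr (fun q : (N × N) × N => q.1.2 = 0 ∨ q.1.1 < q.1.2 * (q.2 + 1)) := by
  refine Pr.or (Pr.eq (Fn.fst Fn.snd') (Fn.const 0)) (Pr.lt (Fn.fst Fn.fst') (Fn.mul
    (Fn.fst Fn.snd') (Fn.add Fn.snd' (Fn.const 1))))

theorem dv_ex (a b : N) : ∃ q, b = 0 ∨ a < b * (q + 1) := by
  rcases eq_or_ne b 0 with hb | hb
  · exact ⟨0, Or.inl hb⟩
  · refine ⟨a, Or.inr ?_⟩
    have h := Helper81.RM.le_mul_of_pos' (a := a + 1) (Helper81.RM.pos_iff.2 hb)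
    exact lt_of_lt_of_le (lt_add_one' a) h

theorem fn_dv {a b : Γ → N} (ha : Fn a) (hb : Fn b) : Fn (fun g => dv (a g) (b g)) := by
  refine Fn.comp₂ (f := fun a b : N => dv a b) ?_ ha hb
  exact Fn.mu (P := fun (p : N × N) q => p.2 = 0 ∨ p.1 < p.2 * (q + 1)) dv_pr
    (fun p => dv_ex _ _)

theorem fn_md {a b : Γ → N} (ha : Fn a) (hb : Fn b) : Fn (fun g => md (a g) (b g)) :=
  Fn.tsub ha (Fn.mul hb (fn_dv ha hb))

theorem dv_zero (a : N) : dv a 0 = 0 := by
  unfold dv
  exact mu_eq (Pr.fix (dv_pr (N := N)) (a, 0)) (Or.inl rfl)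
    (fun m hm => absurd hm not_lt_zero)

theorem dv_unique {a b q r : N} (h : r < b) (e : a = b * q + r) : dv a b = q := by
  unfold dv
  have hb : b ≠ 0 := by
    rintro rfl
    exact not_lt_zero h
  refine mu_eq (Pr.fix (dv_pr (N := N)) (a, b)) (Or.inr ?_) ?_
  · rw [e, mul_add, mul_one]
    exact add_lt_add_right h _
  · rintro m hm (h1 | h1)
    · exact hb h1
    · have h2 : b * (m + 1) ≤ b * q := mul_le_mul_right ((succ_le_iff' m q).2 hm) b
      rw [e] at h1
      exact absurd h1 (not_lt.2 (h2.trans le_self_add))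

theorem md_unique {a b q r : N} (h : r < b) (e : a = b * q + r) : md a b = r := by
  unfold md
  rw [dv_unique h e, e, add_tsub_cancel_left]

theorem md_eq81 (a b : N) : md a b = Helper81.RM.md a b := by
  rcases eq_or_ne b 0 with rfl | hb
  · unfold md
    rw [Helper81.RM.md_mod_zero, zero_mul, tsub_zero]
  · obtain ⟨q, hq⟩ := Helper81.RM.md_spec a b
    exact md_unique (Helper81.RM.md_lt a (Helper81.RM.pos_iff.2 hb)) hq

theorem md_lt (a : N) {b : N} (hb : 0 < b) : md a b < b := by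
  rw [md_eq81]; exact Helper81.RM.md_lt a hb

theorem dv_add_md (a b : N) : b * dv a b + md a b = a := by
  rcases eq_or_ne b 0 with rfl | hb
  · rw [md_eq81, Helper81.RM.md_mod_zero, zero_mul, zero_add]
  · obtain ⟨q, hq⟩ := Helper81.RM.md_spec a b
    have h := Helper81.RM.md_lt a (Helper81.RM.pos_iff.2 hb)
    rw [dv_unique h hq, md_eq81]
    exact hq.symm

theorem md_le (a b : N) : md a b ≤ a := tsub_le_self

theorem md_of_lt {a b : N} (h : a < b) : md a b = a := md_unique (q := 0) h (by simp)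

theorem md_eq_zero {a b : N} (hb : 0 < b) : md a b = 0 ↔ b ∣ a := by
  rw [md_eq81]; exact Helper81.RM.dvd_iff_md.symm

theorem md_mul_add (a b c : N) : md (b * c + a) b = md a b := by
  rw [md_eq81, md_eq81, add_comm]; exact Helper81.RM.md_add_mul a b c

theorem pr_dvd {a b : Γ → N} (ha : Fn a) (hb : Fn b) : Pr (fun g => a g ∣ b g) :=
  Helper81.RM.Pr.dvd ha hb

theorem lt_two {a : N} (h : a < 2) : a = 0 ∨ a = 1 := by
  rw [← one_add_one_eq_two] at h
  rcases lt_or_eq_of_le ((lt_succ_iff' a 1).1 h) with h1 | h1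
  · exact Or.inl (Helper81.RM.lt_one.1 h1)
  · exact Or.inr h1

theorem md_two (n : N) : md n 2 = 0 ∨ md n 2 = 1 := lt_two (md_lt n zero_lt_two)

theorem one_lt_two' : (1 : N) < 2 := by rw [← one_add_one_eq_two]; exact lt_add_one' 1

theorem md_two_succ (n : N) : md (n + 1) 2 = 1 - md n 2 := by
  have h := dv_add_md n 2
  rcases md_two n with h1 | h1
  · rw [h1, tsub_zero]
    rw [h1, add_zero] at h
    exact md_unique (q := dv n 2) one_lt_two' (by rw [h])
  · rw [h1, tsub_self]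
    rw [h1] at h
    refine md_unique (q := dv n 2 + 1) zero_lt_two ?_
    conv_lhs => rw [← h]
    ring

theorem odd_iff {n : N} : md n 2 = 1 ↔ ∃ k, n = 2 * k + 1 := by
  constructor
  · intro h
    have := dv_add_md n 2
    rw [h] at this
    exact ⟨_, this.symm⟩
  · rintro ⟨k, rfl⟩
    exact md_unique one_lt_two' rfl

theorem even_iff {n : N} : md n 2 = 0 ↔ ∃ k, n = 2 * k := by
  rw [md_eq_zero zero_lt_two]
  rfl

/-! ### congruences -/

/-- `a` and `b` are congruent modulo `m` -/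
def cg (m a b : N) : Prop := ∃ u v, a + m * u = b + m * v

theorem cg_iff81 {m a b : N} : cg m a b ↔ Helper81.RM.md a m = Helper81.RM.md b m :=
  Helper81.RM.md_eq_iff.symm

theorem cg.refl (m a : N) : cg m a a := ⟨0, 0, rfl⟩

theorem cg.symm {m a b : N} (h : cg m a b) : cg m b a := by
  obtain ⟨u, v, h⟩ := h
  exact ⟨v, u, h.symm⟩

theorem cg.trans {m a b c : N} (h : cg m a b) (h' : cg m b c) : cg m a c :=
  cg_iff81.2 ((cg_iff81.1 h).trans (cg_iff81.1 h'))

theorem cg.add {m a b c d : N} (h : cg m a b) (h' : cg m c d) : cg m (a + c) (b + d) :=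
  cg_iff81.2 (Helper81.RM.md_add (cg_iff81.1 h) (cg_iff81.1 h'))

theorem cg.mul {m a b c d : N} (h : cg m a b) (h' : cg m c d) : cg m (a * c) (b * d) :=
  cg_iff81.2 (Helper81.RM.md_mul (cg_iff81.1 h) (cg_iff81.1 h'))

theorem cg.mul_left {m a b : N} (c : N) (h : cg m a b) : cg m (c * a) (c * b) :=
  cg.mul (cg.refl m c) h

theorem cg.of_dvd {m m' a b : N} (hm : m ∣ m') (h : cg m' a b) : cg m a b :=
  cg_iff81.2 (Helper81.RM.md_mod_dvd hm (cg_iff81.1 h))

theorem cg_md (m a : N) : cg m (md a m) a := by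
  rw [md_eq81]
  exact cg_iff81.2 (Helper81.RM.md_md a m)

theorem cg_iff_md {m a b : N} (hm : 0 < m) : cg m a b ↔ md a m = md b m := by
  rw [md_eq81, md_eq81]; exact cg_iff81

theorem cg_iff_dvd {m a b : N} : cg m a b ↔ zi m ∣ zi a - zi b := by
  constructor
  · rintro ⟨u, v, h⟩
    refine ⟨zi v - zi u, ?_⟩
    have := congrArg zi h
    rw [map_add, map_add, map_mul, map_mul] at this
    linear_combination this
  · rintro ⟨z, hz⟩
    obtain ⟨u, v, rfl⟩ := exists_sub z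
    refine ⟨v, u, zi_inj.1 ?_⟩
    rw [map_add, map_add, map_mul, map_mul]
    linear_combination hz

theorem cg.eq_of_lt {m a b : N} (h : cg m a b) (ha : a < m) (hb : b < m) : a = b := by
  have := cg_iff81.1 h
  rwa [Helper81.RM.md_of_lt ha, Helper81.RM.md_of_lt hb] at this

theorem cg_zero_iff {m a : N} : cg m a 0 ↔ m ∣ a := by
  rw [cg_iff81, Helper81.RM.md_zero]
  exact Helper81.RM.dvd_iff_md.symm

theorem cg.add_cancel {m a b c : N} (h : cg m (a + c) (b + c)) : cg m a b := by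
  obtain ⟨u, v, h⟩ := h
  refine ⟨u, v, add_right_cancel (b := c) ?_⟩
  calc a + m * u + c = a + c + m * u := by ring
    _ = b + c + m * v := h
    _ = b + m * v + c := by ring

theorem cg_iff_of_le {m a b : N} (h : b ≤ a) : cg m a b ↔ m ∣ a - b := by
  obtain ⟨c, rfl⟩ := exists_add_of_le h
  rw [add_tsub_cancel_left, ← cg_zero_iff]
  constructor
  · intro h
    refine cg.add_cancel (c := b) ?_
    rw [zero_add, add_comm]; exact h
  · intro h
    have := cg.add (cg.refl m b) h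
    rwa [add_zero] at this

theorem pr_cg {m a b : Γ → N} (hm : Fn m) (ha : Fn a) (hb : Fn b) :
    Pr (fun g => cg (m g) (a g) (b g)) :=
  (Pr.eq (Helper81.RM.Fn.md ha hm) (Helper81.RM.Fn.md hb hm)).of_iff (fun _ => cg_iff81)

end Pool.Agent.Helper7.RM
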