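import Mathlib
import Pool.Agent.Helper7.RM.Api

/-! Gödel's beta function. -/

namespace Pool.Agent.Helper7.RM

universe u

variable {N : Type u} [Mdl N] {Γ Δ Θ Λ : Type u} [Cx N Γ] [Cx N Δ] [Cx N Θ] [Cx N Λ]

/-- `x` is the remainder of `a` modulo `1 + (i+1) b` -/
def Bt (a b i x : N) : Prop := x < 1 + (i + 1) * b ∧ ∃ q, a = q * (1 + (i + 1) * b) + x

theorem Beta.sig_imp {P Q : Γ → Prop} (hP : Pr P) (hQ : Sig Q) : Sig (fun g => P g → Q g) :=
  (Sig.or hP.not.1 hQ).of_iff (fun g => by tauto)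

theorem Beta.pos_of_mod (i b : N) : 0 < 1 + (i + 1) * b :=
  lt_of_lt_of_le zero_lt_one le_self_add

theorem Beta.div_unique {m q q' x y : N} (hx : x < m) (hy : y < m)
    (h : q * m + x = q' * m + y) : q = q' ∧ x = y := by
  have aux : ∀ {q q' x y : N}, x < m → q * m + x = q' * m + y → ¬ q < q' := by
    intro q q' x y hx h hlt
    have h1 : q + 1 ≤ q' := (succ_le_iff' _ _).2 hlt
    have h2 : (q + 1) * m ≤ q' * m := mul_le_mul_left h1 m
    have h3 : q * m + x < q * m + m := add_lt_add_right hx (q * m)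
    have h4 : (q + 1) * m = q * m + m := by ring
    have h5 : q' * m ≤ q' * m + y := le_self_add
    rw [h4] at h2
    have := lt_of_lt_of_le h3 (h2.trans h5)
    rw [h] at this
    exact lt_irrefl _ this
  have e : q = q' := le_antisymm (not_lt.1 (aux hy h.symm)) (not_lt.1 (aux hx h))
  subst e
  exact ⟨rfl, add_left_cancel h⟩

theorem Bt_unique {a b i x y : N} (hx : Bt a b i x) (hy : Bt a b i y) : x = y := by
  obtain ⟨hx1, q, hq⟩ := hx
  obtain ⟨hy1, q', hq'⟩ := hy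
  exact (Beta.div_unique hx1 hy1 (hq.symm.trans hq')).2

theorem Beta.div_total {m : N} (hm : 0 < m) (a : N) : ∃ x, x < m ∧ ∃ q, a = q * m + x := by
  have hS : Sig (fun a : N => ∃ x, x < m ∧ ∃ q, a = q * m + x) := by
    refine Sig.ex (P := fun a x => x < m ∧ ∃ q, a = q * m + x) (Sig.and ?_ ?_)
    · exact (Pr.lt Fn.snd' (Fn.const m)).1
    · refine Sig.ex (P := fun (p : N × N) q => p.1 = q * m + p.2) ?_
      exact (Pr.eq (Fn.fst Fn.fst') (Fn.add (Fn.mul Fn.snd' (Fn.const m)) (Fn.fst Fn.snd'))).1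
  refine Sig.ind hS ⟨0, hm, 0, by ring⟩ ?_ a
  rintro n ⟨x, hx, q, rfl⟩
  rcases le_iff_lt_or_eq.1 ((succ_le_iff' _ _).2 hx) with h | h
  · exact ⟨x + 1, h, q, by ring⟩
  · exact ⟨0, hm, q + 1, by rw [← h]; ring⟩

theorem Bt_total (a b i : N) : ∃ x, Bt a b i x := Beta.div_total (Beta.pos_of_mod i b) a

theorem Bt_le {a b i x : N} (hx : Bt a b i x) : x ≤ a := by
  obtain ⟨_, q, hq⟩ := hx
  rw [hq]
  exact le_add_self

theorem pr_Bt : Pr (fun q : ((N × N) × N) × N => Bt q.1.1.1 q.1.1.2 q.1.2 q.2) := by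
  have h1 : Pr (fun p : ((N × N) × N) × N => p.2 < 1 + (p.1.2 + 1) * p.1.1.2 ∧
      ∃ q ≤ p.1.1.1, p.1.1.1 = q * (1 + (p.1.2 + 1) * p.1.1.2) + p.2) := by
    refine Pr.and ?_ ?_
    · exact Pr.lt Fn.snd' (Fn.add (Fn.const 1)
        (Fn.mul (Fn.succ (Fn.fst Fn.snd')) (Fn.fst (Fn.fst Fn.snd'))))
    · refine Pr.bex_le (Fn.fst (Fn.fst Fn.fst'))
        (P := fun (p : ((N × N) × N) × N) q =>
          p.1.1.1 = q * (1 + (p.1.2 + 1) * p.1.1.2) + p.2) ?_
      exact Pr.eq (Fn.fst (Fn.fst (Fn.fst Fn.fst')))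
        (Fn.add (Fn.mul Fn.snd' (Fn.add (Fn.const 1)
          (Fn.mul (Fn.succ (Fn.fst (Fn.fst Fn.snd'))) (Fn.fst (Fn.fst (Fn.fst Fn.snd'))))))
          (Fn.fst Fn.snd'))
  refine h1.of_iff (fun p => ?_)
  unfold Bt
  constructor
  · rintro ⟨h2, q, hq⟩
    refine ⟨h2, q, ?_, hq⟩
    calc q = q * 1 := (mul_one q).symm
      _ ≤ q * (1 + (p.1.2 + 1) * p.1.1.2) := mul_le_mul_right le_self_add q
      _ ≤ p.1.1.1 := by rw [hq]; exact le_self_add
  · rintro ⟨h2, q, _, hq⟩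
    exact ⟨h2, q, hq⟩

/-- a positive number divisible by `1, …, n` -/
theorem Beta.exists_mult (n : N) : ∃ B, 0 < B ∧ ∀ k < n, ∃ r, B = (k + 1) * r := by
  have hS : Sig (fun n : N => ∃ B, 0 < B ∧ ∀ k < n, ∃ r, B = (k + 1) * r) := by
    refine Sig.ex (P := fun n B => 0 < B ∧ ∀ k < n, ∃ r, B = (k + 1) * r) (Sig.and ?_ ?_)
    · exact (Pr.lt (Fn.const 0) Fn.snd').1
    · refine Sig.ball' Fn.fst' (P := fun (p : N × N) k => ∃ r, p.2 = (k + 1) * r) ?_
      refine Sig.ex (P := fun (p : (N × N) × N) r => p.1.2 = (p.2 + 1) * r) ?_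
      exact (Pr.eq (Fn.fst (Fn.fst Fn.snd')) (Fn.mul (Fn.succ (Fn.fst Fn.snd')) Fn.snd')).1
  refine Sig.ind hS ⟨1, zero_lt_one, fun k hk => absurd hk not_lt_zero⟩ ?_ n
  rintro n ⟨B, hB, h⟩
  refine ⟨B * (n + 1), mul_pos hB (lt_of_lt_of_le zero_lt_one le_add_self), fun k hk => ?_⟩
  rcases le_iff_lt_or_eq.1 ((lt_succ_iff' _ _).1 hk) with h1 | rfl
  · obtain ⟨r, hr⟩ := h k h1
    exact ⟨r * (n + 1), by rw [hr]; ring⟩
  · exact ⟨B, by ring⟩

/-- coprimality of the moduli -/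
theorem Beta.coprime {b j k r d : N} (hb : 0 < b) (hd : k = j + d) (hr : b = d * r) :
    ∃ p q, (1 + (j + 1) * b) * p = 1 + (1 + (k + 1) * b) * q := by
  have h1 : 1 ≤ (k + 1) * b := by
    have : 0 < (k + 1) * b := mul_pos (lt_of_lt_of_le zero_lt_one le_add_self) hb
    have := (succ_le_iff' _ _).2 this
    rwa [zero_add] at this
  obtain ⟨e, he⟩ := exists_add_of_le h1
  -- `A = K² r m_j`
  refine ⟨(k + 1) * (k + 1) * r * ((k + 1) * b),
    e + (k + 1) * (k + 1) * r * (j + 1) * b, ?_⟩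
  have hA : (k + 1) * (k + 1) * r * (1 + (j + 1) * b)
      = (k + 1) * (j + 1) * r + 1 + (e + (k + 1) * (k + 1) * r * (j + 1) * b) := by
    have h2 : (k + 1) * (k + 1) * r = (k + 1) * (j + 1) * r + (k + 1) * b := by
      rw [hr, hd]; ring
    calc (k + 1) * (k + 1) * r * (1 + (j + 1) * b)
        = (k + 1) * (k + 1) * r + (k + 1) * (k + 1) * r * (j + 1) * b := by ring
      _ = (k + 1) * (j + 1) * r + (k + 1) * b + (k + 1) * (k + 1) * r * (j + 1) * b := by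
          rw [← h2]
      _ = _ := by rw [he]; ring
  have hB : (k + 1) * (k + 1) * r * (1 + (j + 1) * b) + 1
      = ((k + 1) * (j + 1) * r + 1) * (1 + (k + 1) * b) := by
    have h3 : (k + 1) * (1 + (j + 1) * b) = (j + 1) * (1 + (k + 1) * b) + d := by
      rw [hd]; ring
    calc (k + 1) * (k + 1) * r * (1 + (j + 1) * b) + 1
        = (k + 1) * r * ((k + 1) * (1 + (j + 1) * b)) + 1 := by ring
      _ = (k + 1) * (j + 1) * r * (1 + (k + 1) * b) + (k + 1) * (d * r) + 1 := by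
          rw [h3]; ring
      _ = _ := by rw [← hr]; ring
  -- conclusion
  refine add_left_cancel (a := (k + 1) * (k + 1) * r * (1 + (j + 1) * b)) ?_
  calc (k + 1) * (k + 1) * r * (1 + (j + 1) * b) +
        (1 + (j + 1) * b) * ((k + 1) * (k + 1) * r * ((k + 1) * b))
      = (k + 1) * (k + 1) * r * (1 + (j + 1) * b) * (1 + (k + 1) * b) := by ring
    _ = ((k + 1) * (j + 1) * r + 1 + (e + (k + 1) * (k + 1) * r * (j + 1) * b))
          * (1 + (k + 1) * b) := by rw [hA]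
    _ = ((k + 1) * (j + 1) * r + 1) * (1 + (k + 1) * b)
          + (e + (k + 1) * (k + 1) * r * (j + 1) * b) * (1 + (k + 1) * b) := by ring
    _ = ((k + 1) * (k + 1) * r * (1 + (j + 1) * b) + 1)
          + (e + (k + 1) * (k + 1) * r * (j + 1) * b) * (1 + (k + 1) * b) := by rw [hB]
    _ = _ := by ring

/-- Chinese remainder theorem along the moduli `1 + (i+1) b`, `i ≤ n` -/
theorem Beta.crt {n b : N} (hcop : ∀ j k, j < k → k < n + 1 →
      ∃ p q, (1 + (j + 1) * b) * p = 1 + (1 + (k + 1) * b) * q)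
    {V : N → N → Prop} (hV : Sig (fun p : N × N => V p.1 p.2)) (hVt : ∀ i < n + 1, ∃ y, V i y) :
    ∃ c, ∀ i < n + 1, ∃ y, V i y ∧ ∃ q, c = q * (1 + (i + 1) * b) + y := by
  have hS : Sig (fun j : N => ∃ p : N × N,
      (∀ i < j, i < n + 1 → ∃ y, V i y ∧ ∃ q, p.1 = q * (1 + (i + 1) * b) + y) ∧
      (∀ i < j, i < n + 1 → ∃ s, p.2 = (1 + (i + 1) * b) * s) ∧
      (∀ k < n + 1, j ≤ k → ∃ w : N × N, p.2 * w.1 = 1 + (1 + (k + 1) * b) * w.2)) := by
    refine Sig.exs (P := fun (j : N) (p : N × N) =>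
      (∀ i < j, i < n + 1 → ∃ y, V i y ∧ ∃ q, p.1 = q * (1 + (i + 1) * b) + y) ∧
      (∀ i < j, i < n + 1 → ∃ s, p.2 = (1 + (i + 1) * b) * s) ∧
      (∀ k < n + 1, j ≤ k → ∃ w : N × N, p.2 * w.1 = 1 + (1 + (k + 1) * b) * w.2))
      (Sig.and ?_ (Sig.and ?_ ?_))
    · refine Sig.ball' Fn.fst' (P := fun (g : N × (N × N)) i => i < n + 1 →
        ∃ y, V i y ∧ ∃ q, g.2.1 = q * (1 + (i + 1) * b) + y) ?_
      refine Beta.sig_imp (Pr.lt Fn.snd' (Fn.const _)) ?_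
      refine Sig.ex (P := fun (g : (N × (N × N)) × N) y => V g.2 y ∧
        ∃ q, g.1.2.1 = q * (1 + (g.2 + 1) * b) + y) (Sig.and ?_ ?_)
      · exact Sig.comp₂ (P := V) hV (Fn.fst Fn.snd') Fn.snd'
      · refine Sig.ex (P := fun (g : ((N × (N × N)) × N) × N) q =>
          g.1.1.2.1 = q * (1 + (g.1.2 + 1) * b) + g.2) ?_
        exact (Pr.eq (Fn.fst (Fn.fst (Fn.fst (Fn.snd Fn.fst'))))
          (Fn.add (Fn.mul Fn.snd' (Fn.add (Fn.const 1)
            (Fn.mul (Fn.succ (Fn.fst (Fn.fst Fn.snd'))) (Fn.const b))))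
            (Fn.fst Fn.snd'))).1
    · refine Sig.ball' Fn.fst' (P := fun (g : N × (N × N)) i => i < n + 1 →
        ∃ s, g.2.2 = (1 + (i + 1) * b) * s) ?_
      refine Beta.sig_imp (Pr.lt Fn.snd' (Fn.const _)) ?_
      refine Sig.ex (P := fun (g : (N × (N × N)) × N) s =>
        g.1.2.2 = (1 + (g.2 + 1) * b) * s) ?_
      exact (Pr.eq (Fn.fst (Fn.fst (Fn.snd Fn.snd')))
        (Fn.mul (Fn.add (Fn.const 1) (Fn.mul (Fn.succ (Fn.fst Fn.snd')) (Fn.const b)))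
          Fn.snd')).1
    · refine Sig.ball' (Fn.const (n + 1)) (P := fun (g : N × (N × N)) k => g.1 ≤ k →
        ∃ w : N × N, g.2.2 * w.1 = 1 + (1 + (k + 1) * b) * w.2) ?_
      refine Beta.sig_imp (Pr.le (Fn.fst Fn.fst') Fn.snd') ?_
      refine Sig.exs (P := fun (g : (N × (N × N)) × N) (w : N × N) =>
        g.1.2.2 * w.1 = 1 + (1 + (g.2 + 1) * b) * w.2) ?_
      exact (Pr.eq (Fn.mul (Fn.fst (Fn.fst (Fn.snd Fn.snd'))) (Fn.snd Fn.fst'))
        (Fn.add (Fn.const 1) (Fn.mul (Fn.add (Fn.const 1)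
          (Fn.mul (Fn.succ (Fn.fst Fn.snd')) (Fn.const b))) (Fn.snd Fn.snd')))).1
  suffices hmain : ∀ j : N, ∃ p : N × N,
      (∀ i < j, i < n + 1 → ∃ y, V i y ∧ ∃ q, p.1 = q * (1 + (i + 1) * b) + y) ∧
      (∀ i < j, i < n + 1 → ∃ s, p.2 = (1 + (i + 1) * b) * s) ∧
      (∀ k < n + 1, j ≤ k → ∃ w : N × N, p.2 * w.1 = 1 + (1 + (k + 1) * b) * w.2) by
    obtain ⟨p, h1, _, _⟩ := hmain (n + 1)
    exact ⟨p.1, fun i hi => h1 i hi hi⟩
  refine Sig.ind hS ?_ ?_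
  · exact ⟨(0, 1), fun i hi => absurd hi not_lt_zero, fun i hi => absurd hi not_lt_zero,
      fun k _ _ => ⟨(1, 0), by dsimp only; ring⟩⟩
  · rintro j ⟨⟨c, D⟩, h1, h2, h3⟩
    dsimp only at h1 h2 h3
    rcases lt_or_ge j (n + 1) with hj | hj
    · obtain ⟨v, hv⟩ := hVt j hj
      obtain ⟨⟨y, z⟩, hyz⟩ := h3 j hj le_rfl
      dsimp only at hyz
      refine ⟨(c + D * (y * (v + (j + 1) * b * c)), D * (1 + (j + 1) * b)), ?_, ?_, ?_⟩
      · intro i hi hin
        dsimp only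
        rcases le_iff_lt_or_eq.1 ((lt_succ_iff' _ _).1 hi) with h4 | rfl
        · obtain ⟨w, hw, q, hq⟩ := h1 i h4 hin
          obtain ⟨s, hs⟩ := h2 i h4 hin
          refine ⟨w, hw, q + s * (y * (v + (j + 1) * b * c)), ?_⟩
          generalize y * (v + (j + 1) * b * c) = t
          rw [hq, hs]; ring
        · refine ⟨v, hv, c + z * (v + (i + 1) * b * c), ?_⟩
          calc c + D * (y * (v + (i + 1) * b * c))
              = c + (D * y) * (v + (i + 1) * b * c) := by ring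
            _ = c + (1 + (1 + (i + 1) * b) * z) * (v + (i + 1) * b * c) := by rw [hyz]
            _ = _ := by ring
      · intro i hi hin
        dsimp only
        rcases le_iff_lt_or_eq.1 ((lt_succ_iff' _ _).1 hi) with h4 | rfl
        · obtain ⟨s, hs⟩ := h2 i h4 hin
          exact ⟨s * (1 + (j + 1) * b), by rw [hs]; ring⟩
        · exact ⟨D, by ring⟩
      · intro k hk hjk
        dsimp only
        have hjk' : j < k := (succ_le_iff' _ _).1 hjk
        obtain ⟨⟨y', z'⟩, h5⟩ := h3 k hk hjk'.le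
        dsimp only at h5
        obtain ⟨p, q, hpq⟩ := hcop j k hjk' hk
        refine ⟨(y' * p, z' + q + (1 + (k + 1) * b) * z' * q), ?_⟩
        dsimp only
        calc D * (1 + (j + 1) * b) * (y' * p)
            = (D * y') * ((1 + (j + 1) * b) * p) := by ring
          _ = (1 + (1 + (k + 1) * b) * z') * (1 + (1 + (k + 1) * b) * q) := by rw [h5, hpq]
          _ = _ := by ring
    · refine ⟨(c, D), ?_, ?_, ?_⟩
      · intro i hi hin
        exact h1 i (lt_of_lt_of_le hin hj) hin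
      · intro i hi hin
        exact h2 i (lt_of_lt_of_le hin hj) hin
      · intro k hk hjk
        exact absurd (lt_of_lt_of_le hk hj) (not_lt.2 (le_trans le_self_add hjk))

/-- the sequence coded by `(a, b)` can be changed from place `n` on -/
theorem beta_extend (a b n x : N) :
    ∃ a' b', (∀ i < n, ∀ y, Bt a b i y → Bt a' b' i y) ∧ Bt a' b' n x := by
  obtain ⟨B, hB, hBd⟩ := Beta.exists_mult n
  have hB1 : 1 ≤ B := by
    have := (succ_le_iff' _ _).2 hB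
    rwa [zero_add] at this
  have hbig : ∀ i : N, a + x + 1 ≤ (i + 1) * (B * (a + x + 1)) := by
    intro i
    calc a + x + 1 = 1 * (1 * (a + x + 1)) := by ring
      _ ≤ (i + 1) * (B * (a + x + 1)) :=
        mul_le_mul' le_add_self (mul_le_mul' hB1 le_rfl)
  have hb' : 0 < B * (a + x + 1) := mul_pos hB (lt_of_lt_of_le zero_lt_one le_add_self)
  have hlt : ∀ i y : N, y ≤ a + x → y < 1 + (i + 1) * (B * (a + x + 1)) := by
    intro i y hy
    calc y < a + x + 1 := (lt_succ_iff' _ _).2 hy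
      _ ≤ (i + 1) * (B * (a + x + 1)) := hbig i
      _ ≤ _ := le_add_self
  have hcop : ∀ j k, j < k → k < n + 1 → ∃ p q, (1 + (j + 1) * (B * (a + x + 1))) * p
      = 1 + (1 + (k + 1) * (B * (a + x + 1))) * q := by
    intro j k hjk hk
    obtain ⟨d, hd⟩ := exists_add_of_le ((succ_le_iff' _ _).2 hjk)
    have hd' : d < n := by
      have h1 : d + 1 ≤ k := by rw [hd]; calc d + 1 ≤ j + (d + 1) := le_add_self
        _ = j + 1 + d := by ring
      exact lt_of_lt_of_le ((succ_le_iff' _ _).1 h1) ((lt_succ_iff' _ _).1 hk)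
    obtain ⟨r, hr⟩ := hBd d hd'
    exact Beta.coprime (d := d + 1) (r := r * (a + x + 1)) hb' (by rw [hd]; ring)
      (by rw [hr]; ring)
  have hBt : Pr (fun p : N × N => Bt a b p.1 p.2) :=
    Pr.comp pr_Bt (f := fun p : N × N => (((a, b), p.1), p.2))
      (Fn.pair (Fn.pair (Fn.const (a, b)) Fn.fst') Fn.snd')
  have hV : Sig (fun p : N × N => (p.1 < n ∧ Bt a b p.1 p.2) ∨ (p.1 = n ∧ p.2 = x)) :=
    (Pr.or (Pr.and (Pr.lt Fn.fst' (Fn.const n)) hBt)
      (Pr.and (Pr.eq Fn.fst' (Fn.const n)) (Pr.eq Fn.snd' (Fn.const x)))).1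
  obtain ⟨c, hc⟩ := Beta.crt (n := n) (b := B * (a + x + 1)) hcop
    (V := fun i y => (i < n ∧ Bt a b i y) ∨ (i = n ∧ y = x)) hV (by
      intro i hi
      rcases le_iff_lt_or_eq.1 ((lt_succ_iff' _ _).1 hi) with h | h
      · obtain ⟨y, hy⟩ := Bt_total a b i
        exact ⟨y, Or.inl ⟨h, hy⟩⟩
      · exact ⟨x, Or.inr ⟨h, rfl⟩⟩)
  refine ⟨c, B * (a + x + 1), ?_, ?_⟩
  · intro i hi y hy
    obtain ⟨y', h1, q, hq⟩ := hc i (lt_trans hi (lt_add_one' n))
    rcases h1 with ⟨_, h1⟩ | ⟨h1, _⟩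
    · obtain rfl := Bt_unique hy h1
      exact ⟨hlt i y ((Bt_le hy).trans le_self_add), q, hq⟩
    · exact absurd hi (by rw [h1]; exact lt_irrefl n)
  · obtain ⟨y', h1, q, hq⟩ := hc n (lt_add_one' n)
    rcases h1 with ⟨h1, _⟩ | ⟨_, h1⟩
    · exact absurd h1 (lt_irrefl n)
    · subst h1
      exact ⟨hlt n y' le_add_self, q, hq⟩

end Pool.Agent.Helper7.RM
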