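import Mathlib
import Pool.Agent.Helper7.RM.Basic

/-! Counting, the pigeonhole principle, boundedness of the set of events. -/

namespace Pool.Agent.Helper7.RM

universe u

variable {N : Type u} [Mdl N] {Γ Δ Θ Λ : Type u} [Cx N Γ] [Cx N Δ] [Cx N Θ] [Cx N Λ]

open Classical in
theorem exists_count {P : Γ → N → Prop} (hP : Pr (fun p : Γ × N => P p.1 p.2)) :
    ∃ c : Γ → N → N, Fn (fun p : Γ × N => c p.1 p.2) ∧ (∀ g, c g 0 = 0) ∧
      ∀ g n, c g (n + 1) = c g n + (if P g n then 1 else 0) := by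
  refine exists_prec (a := fun _ : Γ => (0 : N)) (Fn.const 0)
    (h := fun g n y => y + (if P g n then 1 else 0)) ?_
  refine Fn.add Fn.snd' (Fn.ite (P := fun q : (Γ × N) × N => P q.1.1 q.1.2) hP.fst
    (Fn.const 1) (Fn.const 0))

/-- the pigeonhole principle -/
theorem php {f : N → N} (hf : Fn f) (K : N) (h : ∀ i ≤ K, f i < K) :
    ∃ i j, i < j ∧ j ≤ K ∧ f i = f j := by
  classical
  by_contra hc
  have hinj : ∀ i j, i < j → j ≤ K → f i ≠ f j := fun i j h1 h2 h3 => hc ⟨i, j, h1, h2, h3⟩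
  obtain ⟨c, hcF, hc0, hcs⟩ := exists_count (N := N) (Γ := N) (P := fun v i => f i = v)
    (Pr.eq (hf.comp Fn.snd') Fn.fst')
  obtain ⟨G, hGF, hG0, hGs⟩ := exists_count (N := N) (Γ := N) (P := fun v i => f i < v)
    (Pr.lt (hf.comp Fn.snd') Fn.fst')
  have hcF' : ∀ v, Fn (fun T : N => c v T) := fun v => Fn.fix hcF v
  have hGF' : ∀ v, Fn (fun T : N => G v T) := fun v => Fn.fix hGF v
  have h1 : ∀ m T, G (m + 1) T = G m T + c m T := by
    intro m
    refine Pr.ind (P := fun T => G (m + 1) T = G m T + c m T)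
      (Pr.eq (hGF' _) (Fn.add (hGF' _) (hcF' _))) ?_ ?_
    · rw [hG0, hG0, hc0, add_zero]
    · intro T ih
      rw [hGs, hGs, hcs, ih]
      rcases lt_trichotomy (f T) m with h2 | h2 | h2
      · rw [if_pos ((lt_succ_iff' _ _).2 h2.le), if_pos h2, if_neg h2.ne]
        ring
      · rw [if_pos ((lt_succ_iff' _ _).2 h2.le), if_neg (by rw [h2]; exact lt_irrefl _),
          if_pos h2]
        ring
      · rw [if_neg (fun h3 => absurd ((lt_succ_iff' _ _).1 h3) (not_le.2 h2)),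
          if_neg (fun h3 => absurd h3 (not_lt.2 h2.le)), if_neg h2.ne']
        ring
  have h2 : ∀ T, T ≤ K + 1 → G K T = T := by
    refine Pr.ind (P := fun T => T ≤ K + 1 → G K T = T)
      (Pr.imp (Pr.le Fn.id (Fn.const _)) (Pr.eq (hGF' _) Fn.id)) ?_ ?_
    · intro _; exact hG0 _
    · intro T ih hT
      have hT' : T ≤ K := (lt_succ_iff' _ _).1 ((succ_le_iff' _ _).1 hT)
      rw [hGs, ih (le_trans hT' le_self_add), if_pos (h T hT')]
  have h3 : ∀ v T, (∀ i < T, f i ≠ v) → c v T = 0 := by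
    intro v
    refine Pr.ind (P := fun T => (∀ i < T, f i ≠ v) → c v T = 0)
      (Pr.imp (Pr.ball Fn.id (P := fun _ i => f i ≠ v)
        (Pr.ne (hf.comp Fn.snd') (Fn.const _))) (Pr.eq (hcF' _) (Fn.const _))) ?_ ?_
    · intro _; exact hc0 _
    · intro T ih hT
      rw [hcs, ih (fun i hi => hT i (lt_trans hi ((lt_succ_iff' _ _).2 le_rfl))),
        if_neg (hT T ((lt_succ_iff' _ _).2 le_rfl)), add_zero]
  have h4 : ∀ v T, T ≤ K + 1 → c v T ≤ 1 := by
    intro v
    refine Pr.ind (P := fun T => T ≤ K + 1 → c v T ≤ 1)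
      (Pr.imp (Pr.le Fn.id (Fn.const _)) (Pr.le (hcF' _) (Fn.const _))) ?_ ?_
    · intro _; rw [hc0]; exact zero_le
    · intro T ih hT
      have hT' : T ≤ K := (lt_succ_iff' _ _).1 ((succ_le_iff' _ _).1 hT)
      rw [hcs]
      by_cases h5 : f T = v
      · rw [if_pos h5, h3 v T (fun i hi h6 => hinj i T hi hT' (by rw [h6, h5])), zero_add]
      · rw [if_neg h5, add_zero]
        exact ih (le_trans hT' le_self_add)
  have h5 : ∀ T, G 0 T = 0 := by
    refine Pr.ind (P := fun T => G 0 T = 0) (Pr.eq (hGF' _) (Fn.const _)) (hG0 _) ?_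
    intro T ih
    rw [hGs, ih, if_neg not_lt_zero, add_zero]
  have h6 : ∀ m, G m (K + 1) ≤ m := by
    refine Pr.ind (P := fun m => G m (K + 1) ≤ m)
      (Pr.le (Fn.comp₂ (f := G) hGF Fn.id (Fn.const _)) Fn.id) ?_ ?_
    · rw [h5]
    · intro m ih
      rw [h1]
      exact add_le_add ih (h4 m _ le_rfl)
  have h7 := h6 K
  rw [h2 _ le_rfl] at h7
  exact absurd h7 (not_le.2 ((lt_succ_iff' _ _).2 le_rfl))

/-- `t` is the first place of its value, and this value is below `k` -/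
def tt (f : N → N) (k t : N) : Prop := f t < k ∧ ∀ s < t, f s ≠ f t

theorem pr_tt {f : N → N} (hf : Fn f) {k t : Γ → N} (hk : Fn k) (ht : Fn t) :
    Pr (fun g => tt f (k g) (t g)) :=
  Pr.and (Pr.lt (hf.comp ht) hk) (Pr.ball ht (P := fun g s => f s ≠ f (t g))
    (Pr.ne (hf.comp Fn.snd') (hf.comp (Fn.fst ht))))

theorem tt_mono {f : N → N} {i j t : N} (h : i ≤ j) (ht : tt f i t) : tt f j t :=
  ⟨lt_of_lt_of_le ht.1 h, ht.2⟩

theorem tt_find {f : N → N} (hf : Fn f) {e s : N} (h : f s = e) :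
    ∃ t ≤ s, f t = e ∧ ∀ r < t, f r ≠ f t := by
  obtain ⟨t, h1, h2⟩ := Pr.least (P := fun t => f t = e) (Pr.eq hf (Fn.const _)) ⟨s, h⟩
  exact ⟨t, not_lt.1 fun h3 => h2 s h3 h, h1, fun r hr => by rw [h1]; exact h2 r hr⟩

/-- strong collection for the events -/
theorem tt_bdd {f : N → N} (hf : Fn f) (k : N) : ∃ J, ∀ t, tt f k t → t < J := by
  classical
  have hP : Pr (fun p : N × N => ∃ t < p.1, f t = p.2) :=
    Pr.bex (Fn.fst') (P := fun (p : N × N) t => f t = p.2)
      (Pr.eq (hf.comp Fn.snd') (Fn.fst Fn.snd'))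
  obtain ⟨c, hcF, hc0, hcs⟩ := exists_count (N := N) (Γ := N)
    (P := fun J v => ∃ t < J, f t = v) hP
  have hcF' : ∀ v, Fn (fun T : N => c v T) := fun v => Fn.fix hcF v
  have h1 : ∀ J m, c J m ≤ m := by
    intro J
    refine Pr.ind (P := fun m => c J m ≤ m) (Pr.le (hcF' _) Fn.id) (by rw [hc0]) ?_
    intro m ih
    rw [hcs]
    refine add_le_add ih ?_
    split_ifs
    · exact le_rfl
    · exact zero_le
  obtain ⟨n, ⟨J, hJ⟩, hn⟩ := Sig.greatest (P := fun n => ∃ J, n ≤ c J k) (b := k)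
    (Sig.ex (P := fun n J => n ≤ c J k)
      (Pr.le Fn.fst' (Fn.comp₂ (f := c) hcF Fn.snd' (Fn.const _))).1)
    ⟨0, 0, zero_le⟩ (fun n hn => by
      obtain ⟨J, hJ⟩ := hn
      exact le_trans hJ (h1 J k))
  refine ⟨J, fun t ht => ?_⟩
  by_contra hlt
  have hJt : J ≤ t := not_lt.1 hlt
  have h2 : ∀ m, c J m + (if f t < m then 1 else 0) ≤ c (t + 1) m := by
    refine Pr.ind (P := fun m => c J m + (if f t < m then 1 else 0) ≤ c (t + 1) m)
      (Pr.le (Fn.add (hcF' _) (Fn.ite' (P := fun m => f t < m) (Pr.lt (Fn.const _) Fn.id)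
        (Fn.const _) (Fn.const _))) (hcF' _)) ?_ ?_
    · rw [hc0, hc0, if_neg not_lt_zero, add_zero]
    · intro m ih
      rw [hcs, hcs]
      by_cases h3 : f t = m
      · have e1 : ¬ ∃ s < J, f s = m := by
          rintro ⟨s, hs, hs'⟩
          exact ht.2 s (lt_of_lt_of_le hs hJt) (by rw [hs', h3])
        have e2 : ∃ s < t + 1, f s = m := ⟨t, (lt_succ_iff' _ _).2 le_rfl, h3⟩
        rw [if_neg e1, if_pos e2, if_pos ((lt_succ_iff' _ _).2 h3.le)]
        rw [if_neg (fun h4 => absurd h3 h4.ne)] at ih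
        rw [add_zero] at ih ⊢
        exact add_le_add ih le_rfl
      · have e3 : f t < m + 1 ↔ f t < m := by
          rw [lt_succ_iff']
          exact ⟨fun h4 => lt_of_le_of_ne h4 h3, le_of_lt⟩
        have e4 : (if ∃ s < J, f s = m then 1 else 0 : N) ≤
            (if ∃ s < t + 1, f s = m then 1 else 0) := by
          by_cases h4 : ∃ s < J, f s = m
          · have h5 : ∃ s < t + 1, f s = m := by
              obtain ⟨s, hs, hs'⟩ := h4
              exact ⟨s, (lt_succ_iff' _ _).2 (le_trans hs.le hJt), hs'⟩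
            rw [if_pos h4, if_pos h5]
          · rw [if_neg h4]; exact zero_le
        simp only [e3]
        calc c J m + (if ∃ s < J, f s = m then 1 else 0) + (if f t < m then 1 else 0)
            = (c J m + (if f t < m then 1 else 0)) + (if ∃ s < J, f s = m then 1 else 0) := by
              ring
          _ ≤ _ := add_le_add ih e4
  have h3 := h2 k
  rw [if_pos ht.1] at h3
  have h4 : n + 1 ≤ c (t + 1) k := le_trans (add_le_add hJ le_rfl) h3
  exact absurd (hn (n + 1) ⟨t + 1, h4⟩) (not_le.2 ((lt_succ_iff' _ _).2 le_rfl))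

/-- the last event -/
theorem tt_last {f : N → N} (hf : Fn f) {k : N} (h : ∃ t, tt f k t) :
    ∃ t, tt f k t ∧ ∀ t', tt f k t' → t' ≤ t := by
  obtain ⟨J, hJ⟩ := tt_bdd hf k
  obtain ⟨t, ht⟩ := h
  obtain ⟨s, _, hs, hs'⟩ := Pr.greatest (P := fun t => tt f k t) (b := J)
    (pr_tt hf (Fn.const _) Fn.id) ⟨t, (hJ t ht).le, ht⟩
  exact ⟨s, hs, fun t' ht' => hs' t' (hJ t' ht').le ht'⟩

end Pool.Agent.Helper7.RM
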