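import Mathlib
import Pool.Agent.Helper7.RM.Basic

/-! Valuation and odd part. -/

namespace Pool.Agent.Helper7.RM

universe u

variable {N : Type u} [Mdl N] {Γ Δ Θ Λ : Type u} [Cx N Γ] [Cx N Δ] [Cx N Θ] [Cx N Λ]

/-- the exponent of two -/
noncomputable def vv (n : N) : N := grt (fun k => ex2 k ∣ n) n

/-- the odd part -/
noncomputable def od (n : N) : N := dv n (ex2 (vv n))

theorem fn_vv {a : Γ → N} (ha : Fn a) : Fn (fun g => vv (a g)) :=
  Fn.grt (P := fun g k => ex2 k ∣ a g) (pr_dvd (fn_ex2 Fn.snd') (Fn.fst ha)) ha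

theorem fn_od {a : Γ → N} (ha : Fn a) : Fn (fun g => od (a g)) :=
  fn_dv ha (fn_ex2 (fn_vv ha))

theorem val_spec {n : N} (_hn : 0 < n) :
    vv n ≤ n ∧ ex2 (vv n) ∣ n ∧ ∀ s ≤ n, ex2 s ∣ n → s ≤ vv n := by
  have hP : Pr (fun k : N => ex2 k ∣ n) := pr_dvd (fn_ex2 Fn.id) (Fn.const n)
  exact grt_spec (P := fun k : N => ex2 k ∣ n) hP ⟨0, zero_le, by rw [ex2_zero]; exact one_dvd n⟩

theorem val_le_of_dvd {n k : N} (hn : 0 < n) (h : ex2 k ∣ n) : k < n := by
  obtain ⟨c, hc⟩ := h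
  have hc0 : 0 < c := by
    rcases eq_or_ne c 0 with h0 | h0
    · rw [h0, mul_zero] at hc
      exact absurd hc hn.ne'
    · exact pos_iff_ne_zero.2 h0
  have h1 : ex2 k ≤ n := by
    rw [hc]
    exact le_mul_of_one_le_right zero_le (by
      have := (succ_le_iff' 0 c).2 hc0
      simpa using this)
  exact lt_of_lt_of_le (lt_ex2 k) h1

theorem val_odd_of {b : N} (h : md b 2 ≠ 0) : md b 2 = 1 := by
  rcases md_two b with h0 | h1
  · exact absurd h0 h
  · exact h1

theorem val_not_even {b : N} (h : md b 2 = 1) : md b 2 ≠ 0 := by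
  rw [h]; exact one_ne_zero

theorem val_odd_ne {b : N} (h : md b 2 = 1) : 0 < b := by
  rcases eq_or_ne b 0 with h0 | h0
  · exfalso
    refine val_not_even h ?_
    rw [h0]
    exact even_iff.2 ⟨0, by simp⟩
  · exact pos_iff_ne_zero.2 h0

theorem val_odd_mul {b c : N} (hb : md b 2 = 1) (hc : md c 2 = 1) : md (b * c) 2 = 1 := by
  obtain ⟨k, rfl⟩ := odd_iff.1 hb
  obtain ⟨l, rfl⟩ := odd_iff.1 hc
  exact odd_iff.2 ⟨2 * k * l + k + l, by ring⟩

theorem od_spec {n : N} (hn : 0 < n) : n = ex2 (vv n) * od n ∧ md (od n) 2 = 1 := by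
  obtain ⟨_, ⟨q, hq⟩, h3⟩ := val_spec hn
  have h4 : od n = q := by
    unfold od
    exact dv_unique (r := 0) (ex2_pos _) (by rw [add_zero]; exact hq)
  have h5 : n = ex2 (vv n) * od n := by rw [h4]; exact hq
  refine ⟨h5, val_odd_of (fun h => ?_)⟩
  obtain ⟨k, hk⟩ := even_iff.1 h
  have h6 : ex2 (vv n + 1) ∣ n := by
    refine ⟨k, ?_⟩
    rw [ex2_succ]
    calc n = ex2 (vv n) * od n := h5
      _ = ex2 (vv n) * (2 * k) := by rw [hk]
      _ = _ := by ring
  have h7 := h3 _ (val_le_of_dvd hn h6).le h6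
  exact absurd ((succ_le_iff' _ _).1 h7) (lt_irrefl _)

theorem le_vv {n k : N} (hn : 0 < n) : k ≤ vv n ↔ ex2 k ∣ n := by
  obtain ⟨_, h2, h3⟩ := val_spec hn
  exact ⟨fun h => (ex2_dvd h).trans h2, fun h => h3 k (val_le_of_dvd hn h).le h⟩

/-- an odd number congruent to zero -/
theorem not_dvd_odd {k b : N} (hb : md b 2 = 1) (hk : 0 < k) : ¬ ex2 k ∣ b := by
  intro h
  have h1 : ex2 1 ∣ ex2 k := ex2_dvd (by
    have := (succ_le_iff' 0 k).2 hk
    simpa using this)
  rw [ex2_one] at h1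
  obtain ⟨c, hc⟩ := h1.trans h
  exact val_not_even hb (even_iff.2 ⟨c, hc⟩)

theorem vv_eq {k b n : N} (hb : md b 2 = 1) (hn : n = ex2 k * b) : vv n = k := by
  have h0 : 0 < n := by
    rw [hn]
    exact mul_pos (ex2_pos k) (val_odd_ne hb)
  have h1 : k ≤ vv n := (le_vv h0).2 ⟨b, hn⟩
  rcases h1.eq_or_lt with h | h
  · exact h.symm
  · exfalso
    have h2 : ex2 (k + 1) ∣ n := (le_vv h0).1 ((succ_le_iff' _ _).2 h)
    obtain ⟨c, hc⟩ := h2
    rw [hn, ex2_succ] at hc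
    have h3 : ex2 k * b = ex2 k * (2 * c) := by rw [hc]; ring
    have h4 : b = 2 * c := mul_left_cancel₀ (ex2_pos k).ne' h3
    exact val_not_even hb (even_iff.2 ⟨c, h4⟩)

theorem od_eq {k b n : N} (hb : md b 2 = 1) (hn : n = ex2 k * b) : od n = b := by
  have h0 : 0 < n := by
    rw [hn]
    exact mul_pos (ex2_pos k) (val_odd_ne hb)
  have h1 := (od_spec h0).1
  rw [vv_eq hb hn] at h1
  have h2 : ex2 k * od n = ex2 k * b := by rw [← h1, hn]
  exact mul_left_cancel₀ (ex2_pos k).ne' h2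

theorem od_pos {n : N} (hn : 0 < n) : 0 < od n := val_odd_ne (od_spec hn).2

theorem od_le {n : N} (hn : 0 < n) : od n ≤ n := by
  have h1 := (od_spec hn).1
  calc od n ≤ ex2 (vv n) * od n := le_mul_of_one_le_left zero_le (by
        have := (succ_le_iff' 0 _).2 (ex2_pos (vv n))
        simpa using this)
    _ = n := h1.symm

theorem ex2_vv_le {n : N} (hn : 0 < n) : ex2 (vv n) ≤ n := by
  have h1 := (od_spec hn).1
  calc ex2 (vv n) ≤ ex2 (vv n) * od n := le_mul_of_one_le_right zero_le (by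
        have := (succ_le_iff' 0 _).2 (od_pos hn)
        simpa using this)
    _ = n := h1.symm

theorem vv_lt {n : N} (hn : 0 < n) : vv n < n := lt_of_lt_of_le (lt_ex2 _) (ex2_vv_le hn)

theorem val_pow_mul (k : N) {n : N} (hn : 0 < n) :
    ex2 k * n = ex2 (k + vv n) * od n := by
  rw [ex2_add, mul_assoc, ← (od_spec hn).1]

theorem vv_pow_mul (k : N) {n : N} (hn : 0 < n) : vv (ex2 k * n) = k + vv n :=
  vv_eq (od_spec hn).2 (val_pow_mul k hn)

theorem od_pow_mul (k : N) {n : N} (hn : 0 < n) : od (ex2 k * n) = od n :=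
  od_eq (od_spec hn).2 (val_pow_mul k hn)

theorem od_od {n : N} (hn : 0 < n) : od (od n) = od n :=
  od_eq (k := 0) (od_spec hn).2 (by rw [ex2_zero, one_mul])

/-- odd numbers can be cancelled modulo powers of two -/
theorem dvd_of_dvd_mul_odd {k a b : N} (hb : md b 2 = 1) (h : ex2 k ∣ b * a) : ex2 k ∣ a := by
  rcases eq_or_ne a 0 with h0 | h0
  · rw [h0]; exact dvd_zero _
  · have ha : 0 < a := pos_iff_ne_zero.2 h0
    have h1 : b * a = ex2 (vv a) * (b * od a) := by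
      calc b * a = b * (ex2 (vv a) * od a) := by rw [← (od_spec ha).1]
        _ = _ := by ring
    have h2 : vv (b * a) = vv a := vv_eq (val_odd_mul hb (od_spec ha).2) h1
    have h3 : 0 < b * a := mul_pos (val_odd_ne hb) ha
    rw [← le_vv ha, ← h2, le_vv h3]
    exact h

end Pool.Agent.Helper7.RM
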