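import Mathlib
import Pool.Agent.Helper7.RM.Val

/-! The moduli `2^(2^j) - 1` and the minimum of the orbit of doubling. -/

namespace Pool.Agent.Helper7.RM

universe u

variable {N : Type u} [Mdl N] {Γ Δ Θ Λ : Type u} [Cx N Γ] [Cx N Δ] [Cx N Θ] [Cx N Λ]

/-- `2^(2^j) - 1` -/
noncomputable def MM (j : N) : N := ex2 (ex2 j) - 1

theorem fn_MM {a : Γ → N} (ha : Fn a) : Fn (fun g => MM (a g)) :=
  Fn.tsub (fn_ex2 (fn_ex2 ha)) (Fn.const 1)

theorem orb_one_le_iff {a : N} : 1 ≤ a ↔ 0 < a := by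
  have := succ_le_iff' (0 : N) a
  rwa [zero_add] at this

theorem MM_add_one (j : N) : MM j + 1 = ex2 (ex2 j) :=
  tsub_add_cancel_of_le (orb_one_le_iff.2 (ex2_pos _))

theorem MM_pos (j : N) : 0 < MM j := by
  have h1 : ex2 (1 : N) ≤ ex2 (ex2 j) := ex2_le.2 (orb_one_le_iff.2 (ex2_pos _))
  rw [ex2_one, ← MM_add_one] at h1
  have h2 : (1 : N) + 1 ≤ MM j + 1 := by rw [one_add_one_eq_two]; exact h1
  exact orb_one_le_iff.1 (le_of_add_le_add_right h2)

theorem le_MM (j : N) : j ≤ MM j := by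
  have h1 : j < MM j + 1 := by
    rw [MM_add_one]
    exact lt_trans (lt_ex2 j) (lt_ex2 _)
  exact (lt_succ_iff' _ _).1 h1

theorem MM_lt {i j : N} (h : i < j) : MM i < MM j := by
  have h1 : MM i + 1 < MM j + 1 := by
    rw [MM_add_one, MM_add_one]
    exact ex2_lt.2 (ex2_lt.2 h)
  exact lt_of_add_lt_add_right h1

theorem MM_succ (j : N) : MM (j + 1) = MM j * (MM j + 2) := by
  have h1 : MM (j + 1) + 1 = MM j * (MM j + 2) + 1 := by
    rw [MM_add_one, ex2_succ, two_mul, ex2_add, ← MM_add_one]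
    ring
  exact add_right_cancel h1

theorem MM_dvd {i j : N} (h : i ≤ j) : MM i ∣ MM j := by
  obtain ⟨k, rfl⟩ := exists_add_of_le h
  refine Pr.ind (P := fun k : N => MM i ∣ MM (i + k))
    (pr_dvd (Fn.const _) (fn_MM (Fn.add (Fn.const _) Fn.id))) ?_ ?_ k
  · rw [add_zero]
  · intro n hn
    rw [← add_assoc, MM_succ]
    exact Dvd.dvd.mul_right hn _

theorem MM_odd (j : N) : md (MM j) 2 = 1 := by
  obtain ⟨e, he⟩ := exists_add_of_le (orb_one_le_iff.2 (ex2_pos j))
  obtain ⟨k, hk⟩ := exists_add_of_le (orb_one_le_iff.2 (ex2_pos e))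
  refine odd_iff.2 ⟨k, ?_⟩
  have h1 : MM j + 1 = 2 * k + 1 + 1 := by
    rw [MM_add_one, he, add_comm 1 e, ex2_succ, hk]
    ring
  exact add_right_cancel h1

theorem ex2_mul_cg (j k : N) : cg (MM j) (ex2 (ex2 j * k)) 1 := by
  refine Pr.ind (P := fun k : N => cg (MM j) (ex2 (ex2 j * k)) 1)
    (pr_cg (Fn.const _) (fn_ex2 (Fn.mul (Fn.const _) Fn.id)) (Fn.const _)) ?_ ?_ k
  · rw [mul_zero, ex2_zero]
    exact cg.refl _ _
  · intro n hn
    rw [mul_add, mul_one, ex2_add]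
    have h1 : cg (MM j) (ex2 (ex2 j)) 1 := ⟨0, 1, by rw [← MM_add_one]; ring⟩
    have h2 := cg.mul hn h1
    rwa [mul_one] at h2

/-- only the residue of the exponent matters -/
theorem period (j s n : N) : cg (MM j) (ex2 s * n) (ex2 (md s (ex2 j)) * n) := by
  have h1 : ex2 s * n = ex2 (ex2 j * dv s (ex2 j)) * (ex2 (md s (ex2 j)) * n) := by
    rw [← mul_assoc, ← ex2_add, dv_add_md]
  rw [h1]
  have h2 := cg.mul (ex2_mul_cg j (dv s (ex2 j))) (cg.refl (MM j) (ex2 (md s (ex2 j)) * n))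
  rwa [one_mul] at h2

theorem orb_mul_cg (j k a : N) : cg (MM j) (ex2 (ex2 j * k) * a) a := by
  have h2 := cg.mul (ex2_mul_cg j k) (cg.refl (MM j) a)
  rwa [one_mul] at h2

theorem orb_exists_compl (j s : N) : ∃ t, t + s = ex2 j * s := by
  have h1 : s ≤ ex2 j * s := by
    have := mul_le_mul_left (orb_one_le_iff.2 (ex2_pos j)) s
    simpa using this
  obtain ⟨t, ht⟩ := exists_add_of_le h1
  exact ⟨t, by rw [add_comm]; exact ht.symm⟩

/-- multiplication by powers of two is injective modulo `MM j` -/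
theorem cancel_ex2 {j s a b : N} (h : cg (MM j) (ex2 s * a) (ex2 s * b)) : cg (MM j) a b := by
  obtain ⟨t, ht⟩ := orb_exists_compl j s
  have h1 := cg.mul_left (ex2 t) h
  rw [← mul_assoc, ← mul_assoc, ← ex2_add, ht] at h1
  exact cg.trans (cg.symm (orb_mul_cg j s a)) (cg.trans h1 (orb_mul_cg j s b))

/-- the minimum of the orbit -/
noncomputable def AA (j n : N) : N := mu (fun r => ∃ s < ex2 j, md (ex2 s * n) (MM j) = r)

theorem orb_pr {a b : Γ → N} (ha : Fn a) (hb : Fn b) :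
    Pr (fun p : Γ × N => ∃ s < ex2 (a p.1), md (ex2 s * b p.1) (MM (a p.1)) = p.2) := by
  refine Pr.bex (a := fun p : Γ × N => ex2 (a p.1)) (fn_ex2 (Fn.fst ha))
    (P := fun (p : Γ × N) s => md (ex2 s * b p.1) (MM (a p.1)) = p.2) ?_
  exact Pr.eq (fn_md (Fn.mul (fn_ex2 Fn.snd') (Fn.fst (Fn.fst hb))) (fn_MM (Fn.fst (Fn.fst ha))))
    (Fn.fst Fn.snd')

theorem orb_ex (j n : N) : ∃ y, ∃ s < ex2 j, md (ex2 s * n) (MM j) = y :=
  ⟨_, 0, ex2_pos j, rfl⟩

theorem fn_AA {a b : Γ → N} (ha : Fn a) (hb : Fn b) : Fn (fun g => AA (a g) (b g)) :=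
  Fn.mu (P := fun g r => ∃ s < ex2 (a g), md (ex2 s * b g) (MM (a g)) = r) (orb_pr ha hb)
    (fun g => orb_ex (a g) (b g))

theorem orb_pr' (j n : N) : Pr (fun r : N => ∃ s < ex2 j, md (ex2 s * n) (MM j) = r) :=
  Pr.fix (orb_pr (Γ := N) (Fn.const j) (Fn.const n)) 0

theorem AA_le (j n s : N) : AA j n ≤ md (ex2 s * n) (MM j) := by
  refine mu_le (orb_pr' j n) ⟨md s (ex2 j), md_lt _ (ex2_pos j), ?_⟩
  exact ((cg_iff_md (MM_pos j)).1 (period j s n)).symm

theorem AA_mem (j n : N) : ∃ s < ex2 j, md (ex2 s * n) (MM j) = AA j n :=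
  (mu_spec (orb_pr' j n) (orb_ex j n)).1

theorem AA_lt (j n : N) : AA j n < MM j := by
  obtain ⟨s, _, h⟩ := AA_mem j n
  rw [← h]
  exact md_lt _ (MM_pos j)

theorem orb_congr_le {j n n' : N} (h : cg (MM j) n n') : AA j n ≤ AA j n' := by
  obtain ⟨s, _, hs⟩ := AA_mem j n'
  rw [← hs, ← (cg_iff_md (MM_pos j)).1 (cg.mul_left (ex2 s) h)]
  exact AA_le j n s

theorem AA_congr {j n n' : N} (h : cg (MM j) n n') : AA j n = AA j n' :=
  le_antisymm (orb_congr_le h) (orb_congr_le h.symm)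

theorem AA_pow_mul (j k n : N) : AA j (ex2 k * n) = AA j n := by
  apply le_antisymm
  · obtain ⟨s, _, hs⟩ := AA_mem j n
    obtain ⟨t, ht⟩ := orb_exists_compl j k
    have h1 : ex2 (s + t) * (ex2 k * n) = ex2 (ex2 j * k) * (ex2 s * n) := by
      rw [← mul_assoc, ← ex2_add, ← mul_assoc, ← ex2_add]
      congr 2
      rw [add_assoc, ht, add_comm]
    have h2 : md (ex2 (s + t) * (ex2 k * n)) (MM j) = md (ex2 s * n) (MM j) := by
      rw [h1]
      exact (cg_iff_md (MM_pos j)).1 (orb_mul_cg j k _)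
    rw [← hs, ← h2]
    exact AA_le j _ _
  · obtain ⟨s, _, hs⟩ := AA_mem j (ex2 k * n)
    rw [← hs, ← mul_assoc, ← ex2_add]
    exact AA_le j _ _

theorem AA_two_mul (j n : N) : AA j (2 * n) = AA j n := by
  have h := AA_pow_mul j 1 n
  rwa [ex2_one] at h

theorem orb_ofnat_two : (2 : N) = 1 + 1 := one_add_one_eq_two.symm

theorem AA_mono {i j : N} (h : i ≤ j) (n : N) : AA i n ≤ AA j n := by
  obtain ⟨s, _, hs⟩ := AA_mem j n
  have h1 : cg (MM i) (AA j n) (ex2 s * n) := by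
    rw [← hs]
    exact (cg_md (MM j) (ex2 s * n)).of_dvd (MM_dvd h)
  calc AA i n ≤ md (ex2 s * n) (MM i) := AA_le i n s
    _ = md (AA j n) (MM i) := ((cg_iff_md (MM_pos i)).1 h1).symm
    _ ≤ AA j n := md_le _ _

theorem AA_le_od (j : N) {n : N} (hn : 0 < n) : AA j n ≤ od n := by
  obtain ⟨t, ht⟩ := orb_exists_compl j (vv n)
  have h1 : ex2 t * n = ex2 (ex2 j * vv n) * od n := by
    conv_lhs => rw [(od_spec hn).1]
    rw [← mul_assoc, ← ex2_add, ht]
  calc AA j n ≤ md (ex2 t * n) (MM j) := AA_le j n t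
    _ = md (od n) (MM j) := by
        rw [h1]
        exact (cg_iff_md (MM_pos j)).1 (orb_mul_cg j _ _)
    _ ≤ od n := md_le _ _

theorem orb_lt_MM (j : N) : j < MM j := by
  have h1 : ex2 j + 1 ≤ MM j + 1 := by
    rw [MM_add_one]
    exact (succ_le_iff' _ _).2 (lt_ex2 _)
  exact lt_of_lt_of_le (lt_ex2 j) (le_of_add_le_add_right h1)

theorem orb_two_mul_le {j : N} (hj : 0 < j) : 2 * j ≤ ex2 j := by
  obtain ⟨k, rfl⟩ := exists_add_of_le (orb_one_le_iff.2 hj)
  rw [add_comm 1 k, ex2_succ]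
  exact mul_le_mul_right ((succ_le_iff' _ _).2 (lt_ex2 k)) 2

theorem orb_value {j b e : N} (hb : md b 2 = 1) (hbj : b ≤ j) (he : e < ex2 j) :
    b ≤ md (ex2 e * b) (MM j) := by
  have hb0 : 0 < b := by
    rcases eq_or_lt_of_le (zero_le (a := b)) with h | h
    · rw [← h] at hb
      have h2 : md (0 : N) 2 ≤ 0 := md_le _ _
      rw [hb] at h2
      exact absurd h2 (not_le.2 (orb_one_le_iff.1 le_rfl))
    · exact h
  have he1 : 1 ≤ ex2 e := orb_one_le_iff.2 (ex2_pos e)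
  by_cases h1 : ex2 e * b < MM j
  · rw [md_of_lt h1]
    have h2 := mul_le_mul_left he1 b
    rwa [one_mul] at h2
  · have h2 : MM j ≤ ex2 e * b := not_lt.1 h1
    obtain ⟨w, hw⟩ := exists_add_of_le he.le
    have hw0 : 0 < w := by
      rcases eq_or_lt_of_le (zero_le (a := w)) with h | h
      · rw [← h, add_zero] at hw
        exact absurd hw.symm (ne_of_lt he)
      · exact h
    -- b ≤ 2 ^ e
    have h3 : b ≤ ex2 e := by
      by_contra h4
      have h5 : ex2 e + 1 ≤ j := (succ_le_iff' _ _).2 (lt_of_lt_of_le (not_le.1 h4) hbj)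
      have h6 : e + 1 ≤ ex2 e := (succ_le_iff' _ _).2 (lt_ex2 e)
      have hj0 : 0 < j := lt_of_lt_of_le hb0 hbj
      have h7 : e + j + 1 ≤ ex2 j := by
        have h8 := orb_two_mul_le hj0
        rw [← zi_le] at h5 h6 h8 ⊢
        simp only [map_add, map_mul, map_one, map_ofNat] at h5 h6 h8 ⊢
        linarith
      have h9 : 2 * ex2 (e + j) ≤ MM j + 1 := by
        rw [← ex2_succ, MM_add_one]
        exact ex2_le.2 h7
      have h10 : ex2 e * b < ex2 (e + j) := by
        rw [ex2_add]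
        exact mul_lt_mul_of_pos_left (lt_of_le_of_lt hbj (lt_ex2 j)) (ex2_pos e)
      have h11 : 1 ≤ ex2 (e + j) := orb_one_le_iff.2 (ex2_pos _)
      have h12 : ex2 (e + j) ≤ MM j := by
        rw [← zi_le] at h9 h11 ⊢
        simp only [map_add, map_mul, map_one, map_ofNat] at h9 h11 ⊢
        linarith
      exact h1 (lt_of_lt_of_le h10 h12)
    have he0 : 2 ≤ ex2 e := by
      have h13 : 0 < e := by
        rcases eq_or_lt_of_le (zero_le (a := e)) with h | h
        · rw [← h, ex2_zero, one_mul] at h1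
          exact absurd (lt_of_le_of_lt hbj (orb_lt_MM j)) h1
        · exact h
      have h14 := ex2_le.2 (orb_one_le_iff.2 h13)
      rwa [ex2_one] at h14
    have hr : 0 < md b (ex2 w) := by
      rcases eq_or_lt_of_le (zero_le (a := md b (ex2 w))) with h | h
      · exact absurd ((md_eq_zero (ex2_pos w)).1 h.symm) (not_dvd_odd hb hw0)
      · exact h
    have hdec := dv_add_md b (ex2 w)
    have hrlt := md_lt b (ex2_pos w)
    set q := dv b (ex2 w) with hq
    set r := md b (ex2 w) with hrr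
    have h15 : ex2 e * b = MM j * q + (q + ex2 e * r) := by
      have h16 : ex2 e * ex2 w = MM j + 1 := by rw [← ex2_add, ← hw, MM_add_one]
      calc ex2 e * b = ex2 e * (ex2 w * q + r) := by rw [hdec]
        _ = (ex2 e * ex2 w) * q + ex2 e * r := by ring
        _ = MM j * q + (q + ex2 e * r) := by rw [h16]; ring
    have hw2 : 2 ≤ ex2 w := by
      have h14 := ex2_le.2 (orb_one_le_iff.2 hw0)
      rwa [ex2_one] at h14
    have h17 : 2 * q + 1 ≤ b := by
      rw [← hdec]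
      exact add_le_add (mul_le_mul_left hw2 q) (orb_one_le_iff.2 hr)
    have h18 : q + 2 ≤ ex2 e := by
      rcases eq_or_lt_of_le (zero_le (a := q)) with h | h
      · rw [← h, zero_add]; exact he0
      · have h19 := orb_one_le_iff.2 h
        rw [← zi_le] at h17 h19 h3 ⊢
        simp only [map_add, map_mul, map_one, map_ofNat] at h17 h19 h3 ⊢
        linarith
    have h20 : ex2 e * (r + 1) ≤ MM j + 1 := by
      rw [MM_add_one, hw, ex2_add]
      exact mul_le_mul_right ((succ_le_iff' _ _).2 hrlt) (ex2 e)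
    have h21 : q + ex2 e * r < MM j := by
      rw [← succ_le_iff', ← zi_le]
      rw [← zi_le] at h18 h20
      simp only [map_add, map_mul, map_one, map_ofNat] at h18 h20 ⊢
      linarith
    rw [md_unique h21 h15]
    have h22 : ex2 e * 1 ≤ ex2 e * r := mul_le_mul_right (orb_one_le_iff.2 hr) (ex2 e)
    rw [mul_one] at h22
    exact h3.trans (h22.trans le_add_self)

theorem AA_eq_od {j n : N} (hn : 0 < n) (h : n ≤ j) : AA j n = od n := by
  apply le_antisymm (AA_le_od j hn)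
  have h1 : AA j n = AA j (od n) := by
    conv_lhs => rw [(od_spec hn).1]
    exact AA_pow_mul j _ _
  rw [h1]
  obtain ⟨s, hs, hs2⟩ := AA_mem j (od n)
  rw [← hs2]
  exact orb_value (od_spec hn).2 ((od_le hn).trans h) hs

theorem AA_congr_le {J j n n' : N} (hj : j ≤ J) (h : cg (MM J) n n') : AA j n = AA j n' :=
  AA_congr (h.of_dvd (MM_dvd hj))

end Pool.Agent.Helper7.RM
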