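import Mathlib
import Pool.Agent.Helper7.RM.Orbit

/-! The level and the phase. -/

namespace Pool.Agent.Helper7.RM

universe u

variable {N : Type u} [Mdl N] {Γ Δ Θ Λ : Type u} [Cx N Γ] [Cx N Δ] [Cx N Θ] [Cx N Λ]

/-- the greatest `j` with `MM j ∣ n` -/
noncomputable def th (n : N) : N := mu (fun j => n = 0 ∨ ¬ MM (j + 1) ∣ n)

theorem ph_le_of_dvd {m n : N} (hn : 0 < n) (h : m ∣ n) : m ≤ n := by
  obtain ⟨c, hc⟩ := h
  have hc0 : 0 < c := by
    rcases eq_or_ne c 0 with h0 | h0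
    · rw [h0, mul_zero] at hc
      exact absurd hc hn.ne'
    · exact pos_iff_ne_zero.2 h0
  rw [hc]
  exact le_mul_of_one_le_right zero_le (by
    have := (succ_le_iff' 0 c).2 hc0
    simpa using this)

theorem ph_ex (n : N) : ∃ j, n = 0 ∨ ¬ MM (j + 1) ∣ n := by
  refine ⟨n, ?_⟩
  rcases eq_or_ne n 0 with h | h
  · exact Or.inl h
  · refine Or.inr (fun h1 => ?_)
    have h2 := ph_le_of_dvd (pos_iff_ne_zero.2 h) h1
    have h3 := (le_MM (n + 1)).trans h2
    exact absurd ((succ_le_iff' _ _).1 h3) (lt_irrefl _)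

theorem fn_th {a : Γ → N} (ha : Fn a) : Fn (fun g => th (a g)) :=
  Fn.mu (P := fun g j => a g = 0 ∨ ¬ MM (j + 1) ∣ a g)
    (Pr.or (Pr.eq (Fn.fst ha) (Fn.const 0))
      (pr_dvd (fn_MM (Fn.succ Fn.snd')) (Fn.fst ha)).not) (fun g => ph_ex (a g))

theorem ph_th_spec (n : N) :
    (n = 0 ∨ ¬ MM (th n + 1) ∣ n) ∧ ∀ m < th n, ¬ (n = 0 ∨ ¬ MM (m + 1) ∣ n) := by
  have hP : Pr (fun j : N => n = 0 ∨ ¬ MM (j + 1) ∣ n) :=
    Pr.or (Pr.const _) (pr_dvd (fn_MM (Fn.succ Fn.id)) (Fn.const n)).not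
  exact mu_spec (P := fun j : N => n = 0 ∨ ¬ MM (j + 1) ∣ n) hP (ph_ex n)

theorem ph_MM_zero : MM (0 : N) = 1 := by
  have h := MM_add_one (0 : N)
  rw [ex2_zero, ex2_one] at h
  have h2 : MM (0 : N) + 1 = 1 + 1 := by rw [h]; norm_num
  exact add_right_cancel h2

theorem ph_not_dvd {n : N} (hn : 0 < n) : ¬ MM (th n + 1) ∣ n := by
  rcases (ph_th_spec n).1 with h | h
  · exact absurd h hn.ne'
  · exact h

theorem th_iff {j n : N} (hn : 0 < n) : MM j ∣ n ↔ j ≤ th n := by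
  constructor
  · intro h
    by_contra hc
    have h1 : th n + 1 ≤ j := (succ_le_iff' _ _).2 (not_le.1 hc)
    exact ph_not_dvd hn ((MM_dvd h1).trans h)
  · intro h
    rcases eq_or_ne j 0 with h0 | h0
    · rw [h0, ph_MM_zero]
      exact one_dvd n
    · have h1 : 1 ≤ j := by
        have := (succ_le_iff' 0 j).2 (pos_iff_ne_zero.2 h0)
        simpa using this
      have h2 : (j - 1) + 1 = j := tsub_add_cancel_of_le h1
      have h3 : j - 1 < th n := (succ_le_iff' _ _).1 (by rw [h2]; exact h)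
      have h4 := (ph_th_spec n).2 _ h3
      rw [h2] at h4
      by_contra h5
      exact h4 (Or.inr h5)

theorem th_le {n : N} (hn : 0 < n) : th n ≤ n :=
  (le_MM (th n)).trans (ph_le_of_dvd hn ((th_iff hn).2 le_rfl))

theorem ph_pow_pos (k : N) {n : N} (hn : 0 < n) : 0 < ex2 k * n := mul_pos (ex2_pos k) hn

theorem ph_dvd_pow_mul (j k n : N) : MM j ∣ ex2 k * n ↔ MM j ∣ n := by
  constructor
  · intro h
    rw [← cg_zero_iff] at h ⊢
    refine cancel_ex2 (s := k) ?_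
    rw [mul_zero]
    exact h
  · intro h
    exact h.mul_left _

theorem th_pow_mul (k : N) {n : N} (hn : 0 < n) : th (ex2 k * n) = th n := by
  have h0 := ph_pow_pos k hn
  refine le_antisymm ?_ ?_
  · rw [← th_iff hn, ← ph_dvd_pow_mul _ k, th_iff h0]
  · rw [← th_iff h0, ph_dvd_pow_mul _ k, th_iff hn]

theorem th_od {n : N} (hn : 0 < n) : th (od n) = th n := by
  have h := th_pow_mul (vv n) (od_pos hn)
  rw [← (od_spec hn).1] at h
  exact h.symm

theorem ph_dvd_congr {J j n n' : N} (hj : j ≤ J) (h : cg (MM J) n n') :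
    MM j ∣ n ↔ MM j ∣ n' := by
  have h1 : cg (MM j) n n' := cg.of_dvd (MM_dvd hj) h
  rw [← cg_zero_iff, ← cg_zero_iff]
  exact ⟨fun h2 => h1.symm.trans h2, fun h2 => h1.trans h2⟩

theorem th_congr {J n n' : N} (hn : 0 < n) (hn' : 0 < n') (hJ : th n < J)
    (h : cg (MM J) n n') : th n' = th n := by
  have h1 : th n + 1 ≤ J := (succ_le_iff' _ _).2 hJ
  refine le_antisymm ?_ ?_
  · by_contra hc
    have h2 : th n + 1 ≤ th n' := (succ_le_iff' _ _).2 (not_le.1 hc)
    rw [← th_iff hn'] at h2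
    exact ph_not_dvd hn ((ph_dvd_congr h1 h).2 h2)
  · rw [← th_iff hn']
    exact (ph_dvd_congr hJ.le h).1 ((th_iff hn).2 le_rfl)

open Classical in
/-- the phase -/
noncomputable def cph (n : N) : N :=
  if ∃ s < ex2 (th n + 1), md s 2 = 1 ∧
    md (ex2 s * n) (MM (th n + 1)) = AA (th n + 1) n then 1 else 0

theorem fn_cph {a : Γ → N} (ha : Fn a) : Fn (fun g => cph (a g)) := by
  have h1 : Pr (fun g => ∃ s < ex2 (th (a g) + 1), md s 2 = 1 ∧
      md (ex2 s * a g) (MM (th (a g) + 1)) = AA (th (a g) + 1) (a g)) := by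
    refine Pr.bex (a := fun g => ex2 (th (a g) + 1)) (fn_ex2 (Fn.succ (fn_th ha)))
      (P := fun g s => md s 2 = 1 ∧
        md (ex2 s * a g) (MM (th (a g) + 1)) = AA (th (a g) + 1) (a g)) ?_
    refine Pr.and (Pr.eq (fn_md Fn.snd' (Fn.const 2)) (Fn.const 1)) (Pr.eq ?_ ?_)
    · exact fn_md (Fn.mul (fn_ex2 Fn.snd') (Fn.fst ha)) (fn_MM (Fn.succ (fn_th (Fn.fst ha))))
    · exact fn_AA (Fn.succ (fn_th (Fn.fst ha))) (Fn.fst ha)
  exact Fn.ite h1 (Fn.const 1) (Fn.const 0)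

/-- an odd number is invertible modulo `2^j` -/
theorem odd_inverse {d : N} (hd : md d 2 = 1) (j : N) : ∃ u v, u * d = 1 + v * ex2 j := by
  obtain ⟨k, hk⟩ := odd_iff.1 hd
  refine Sig.ind (P := fun j : N => ∃ u v, u * d = 1 + v * ex2 j) ?_ ?_ ?_ j
  · refine Sig.ex (P := fun j u => ∃ v, u * d = 1 + v * ex2 j) ?_
    refine Sig.ex (P := fun (p : N × N) v => p.2 * d = 1 + v * ex2 p.1) ?_
    exact (Pr.eq (Fn.mul (Fn.fst Fn.snd') (Fn.const d))
      (Fn.add (Fn.const 1) (Fn.mul Fn.snd' (fn_ex2 (Fn.fst Fn.fst'))))).1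
  · refine ⟨1, 2 * k, ?_⟩
    rw [ex2_zero, hk]
    ring
  · rintro i ⟨u, v, h⟩
    rcases md_two v with h0 | h1
    · obtain ⟨w, hw⟩ := even_iff.1 h0
      refine ⟨u, w, ?_⟩
      rw [h, hw, ex2_succ]
      ring
    · obtain ⟨w, hw⟩ := odd_iff.1 h1
      refine ⟨u + ex2 i, w + k + 1, ?_⟩
      calc (u + ex2 i) * d = u * d + ex2 i * d := by ring
        _ = (1 + v * ex2 i) + ex2 i * d := by rw [h]
        _ = (1 + (2 * w + 1) * ex2 i) + ex2 i * (2 * k + 1) := by rw [hw, ← hk]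
        _ = 1 + (w + k + 1) * (2 * ex2 i) := by ring
        _ = _ := by rw [ex2_succ]

theorem ph_iter {m d n : N} (h : cg m n (ex2 d * n)) (u : N) : cg m n (ex2 (u * d) * n) := by
  refine Pr.ind (P := fun u : N => cg m n (ex2 (u * d) * n)) ?_ ?_ ?_ u
  · exact pr_cg (Fn.const m) (Fn.const n)
      (Fn.mul (fn_ex2 (Fn.mul Fn.id (Fn.const d))) (Fn.const n))
  · rw [zero_mul, ex2_zero, one_mul]
    exact cg.refl m n
  · intro w hw
    have h1 : cg m (ex2 (w * d) * n) (ex2 (w * d) * (ex2 d * n)) := h.mul_left _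
    have h2 : ex2 (w * d) * (ex2 d * n) = ex2 ((w + 1) * d) * n := by
      rw [← mul_assoc, ← ex2_add]
      congr 2
      ring
    rw [h2] at h1
    exact hw.trans h1

theorem ph_unique_aux {j n s d : N} (hn : ¬ MM j ∣ n)
    (h : cg (MM j) (ex2 s * n) (ex2 (s + d) * n)) : md s 2 = md (s + d) 2 := by
  have h1 : cg (MM j) n (ex2 d * n) := by
    refine cancel_ex2 (s := s) ?_
    rw [← mul_assoc, ← ex2_add]
    exact h
  rcases md_two d with h0 | h2
  · obtain ⟨k, hk⟩ := even_iff.1 h0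
    rw [hk, add_comm s (2 * k), md_mul_add]
  · exfalso
    obtain ⟨u, v, huv⟩ := odd_inverse h2 j
    have h3 := ph_iter h1 u
    have h4 : ex2 (u * d) * n = ex2 (ex2 j * v) * (2 * n) := by
      rw [huv, ex2_add, ex2_one, mul_comm v (ex2 j)]
      ring
    rw [h4] at h3
    have h5 : cg (MM j) (ex2 (ex2 j * v) * (2 * n)) (1 * (2 * n)) :=
      (ex2_mul_cg j v).mul (cg.refl _ _)
    have h6 := (h3.trans h5).symm
    have h7 : cg (MM j) (n + n) (0 + n) := by
      have e1 : n + n = 1 * (2 * n) := by ring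
      rw [e1, zero_add]
      exact h6
    exact hn (cg_zero_iff.1 h7.add_cancel)

/-- the exponents reaching the same element of a nonzero orbit have the same parity -/
theorem phase_unique {j n s t : N} (hn : ¬ MM j ∣ n)
    (h : cg (MM j) (ex2 s * n) (ex2 t * n)) : md s 2 = md t 2 := by
  rcases le_total s t with hst | hst
  · obtain ⟨d, rfl⟩ := exists_add_of_le hst
    exact ph_unique_aux hn h
  · obtain ⟨d, rfl⟩ := exists_add_of_le hst
    exact (ph_unique_aux hn h.symm).symm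

theorem ph_cph_eq {n t : N} (hn : 0 < n)
    (ht : md (ex2 t * n) (MM (th n + 1)) = AA (th n + 1) n) : cph n = md t 2 := by
  have h0 := ph_not_dvd hn
  have key : ∀ s, md (ex2 s * n) (MM (th n + 1)) = AA (th n + 1) n → md s 2 = md t 2 := by
    intro s hs
    refine phase_unique h0 ?_
    rw [cg_iff_md (MM_pos _), hs, ht]
  obtain ⟨s, hs, hs2⟩ := AA_mem (th n + 1) n
  unfold cph
  rcases md_two t with h1 | h1
  · rw [if_neg, h1]
    rintro ⟨r, _, hr1, hr2⟩
    rw [key r hr2, h1] at hr1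
    exact zero_ne_one hr1
  · rw [if_pos, h1]
    exact ⟨s, hs, by rw [key s hs2, h1], hs2⟩

theorem cph_two_mul {n : N} (hn : 0 < n) : md (cph (2 * n) + cph n) 2 = 1 := by
  have h2n : 0 < 2 * n := mul_pos two_pos hn
  have hth : th (2 * n) = th n := by
    have := th_pow_mul 1 hn
    rwa [ex2_one] at this
  obtain ⟨s, _, hs2⟩ := AA_mem (th (2 * n) + 1) (2 * n)
  have h1 : cph (2 * n) = md s 2 := ph_cph_eq h2n hs2
  have h2 : cph n = md (s + 1) 2 := by
    refine ph_cph_eq hn ?_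
    rw [hth, AA_two_mul] at hs2
    rw [← hs2, ex2_succ]
    congr 1
    ring
  rw [h1, h2, md_two_succ]
  rcases md_two s with h3 | h3
  · rw [h3, zero_add, tsub_zero]
    exact odd_iff.2 ⟨0, by ring⟩
  · rw [h3, tsub_self, add_zero]
    exact odd_iff.2 ⟨0, by ring⟩

theorem cph_congr {J n n' : N} (hn : 0 < n) (hn' : 0 < n') (hJ : th n < J)
    (h : cg (MM J) n n') : cph n' = cph n := by
  have hth := th_congr hn hn' hJ h
  have h1 : cg (MM (th n + 1)) n n' := cg.of_dvd (MM_dvd ((succ_le_iff' _ _).2 hJ)) h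
  obtain ⟨s, _, hs2⟩ := AA_mem (th n + 1) n
  rw [ph_cph_eq hn hs2]
  refine ph_cph_eq hn' ?_
  rw [hth, ← AA_congr h1, ← hs2, ← cg_iff_md (MM_pos _)]
  exact h1.symm.mul_left _

end Pool.Agent.Helper7.RM
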