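import Mathlib
import Pool.Agent.Helper7.RM.Phase
import Pool.Agent.Helper7.RM.Count

/-! The correction. -/

namespace Pool.Agent.Helper7.RM

universe u

variable {N : Type u} [Mdl N] {Γ Δ Θ Λ : Type u} [Cx N Γ] [Cx N Δ] [Cx N Θ] [Cx N Λ]

/-- the copy predicate -/
def cpy (m b n : N) : Prop := b < n ∧ m ≤ vv (n - b) ∧ cg (ex2 m) (od (n - b)) b

theorem pr_cpy {m b n : Γ → N} (hm : Fn m) (hb : Fn b) (hn : Fn n) :
    Pr (fun g => cpy (m g) (b g) (n g)) :=
  Pr.and (Pr.lt hb hn) (Pr.and (Pr.le hm (fn_vv (Fn.tsub hn hb)))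
    (pr_cg (fn_ex2 hm) (fn_od (Fn.tsub hn hb)) hb))

open Classical in
/-- specification of the correction function for the event predicate `T` -/
structure IsHH (T : N → N → Prop) (H : N → N) : Prop where
  pr : Pr (fun p : N × N => T p.1 p.2)
  fn : Fn H
  zero : H 0 = 0
  none : ∀ n, 0 < n → (∀ t, T (th n) t → AA t n = od n) → H n = 0
  some : ∀ n t, 0 < n → T (th n) t → AA t n ≠ od n →
    (∀ t', T (th n) t' → t < t' → AA t' n = od n) →
    H n = H (AA t n) + (if cpy (3 * t + 10) (AA t n) (od n) then 0 else 1)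

theorem exists_HH {T : N → N → Prop} (hT : Pr (fun p : N × N => T p.1 p.2)) :
    ∃ H, IsHH T H := by
  classical
  -- the relevant events
  set E : N → N → Prop := fun n t => 0 < n ∧ T (th n) t ∧ AA t n ≠ od n with hE
  have hEpr : Pr (fun p : N × N => E p.1 p.2) := by
    refine Pr.and (Pr.lt (Fn.const 0) Fn.fst') (Pr.and ?_ (Pr.ne (fn_AA Fn.snd' Fn.fst')
      (fn_od Fn.fst')))
    exact Pr.comp₂ (P := T) hT (fn_th Fn.fst') Fn.snd'
  have hEn : ∀ n t, E n t → t < n := by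
    rintro n t ⟨h0, _, h2⟩
    by_contra hc
    exact h2 (AA_eq_od h0 (not_lt.1 hc))
  have hlst : Fn (fun n : N => grt (E n) n) := Fn.grt hEpr Fn.id
  have hex : Pr (fun n : N => ∃ t ≤ n, E n t) := Pr.bex_le Fn.id hEpr
  have hd : Fn (fun n : N => if ∃ t ≤ n, E n t then AA (grt (E n) n) n else n) :=
    Fn.ite' hex (fn_AA hlst Fn.id) Fn.id
  have hspec : ∀ n, (∃ t ≤ n, E n t) → E n (grt (E n) n) := fun n h =>
    (grt_spec (Pr.fix hEpr n) h).2.1
  obtain ⟨r, hr, h⟩ := Helper81.RM.wf_rec (Γ := N)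
    (d := fun _ n => if ∃ t ≤ n, E n t then AA (grt (E n) n) n else n) (β := fun _ _ => 0)
    (ψ := fun _ n y => y + (if cpy (3 * grt (E n) n + 10) (AA (grt (E n) n) n) (od n) then 0
      else 1))
    (Fn.snd hd) (Fn.const 0) (by
      have h1 : Fn (fun n : N => if cpy (3 * grt (E n) n + 10) (AA (grt (E n) n) n) (od n)
          then (0 : N) else 1) := by
        refine Fn.ite' (pr_cpy (Fn.add (Fn.mul (Fn.const 3) hlst) (Fn.const 10))
          (fn_AA hlst Fn.id) (fn_od Fn.id)) (Fn.const 0) (Fn.const 1)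
      exact Fn.add Fn.snd' (Fn.fst (Fn.snd h1)))
  refine ⟨fun n => r 0 n, hT, Fn.comp (f := fun q : N × N => r q.1 q.2) hr
    (Fn.pair (Fn.const 0) Fn.id), ?_, ?_, ?_⟩
  · show r 0 0 = 0
    rw [h, if_neg not_lt_zero]
  · intro n hn hno
    show r 0 n = 0
    have h1 : ¬ ∃ t ≤ n, E n t := by
      rintro ⟨t, _, _, h2, h3⟩
      exact h3 (hno t h2)
    rw [h, if_neg]
    rw [if_neg h1]
    exact lt_irrefl n
  · intro n t hn hTt hAA hlater
    show r 0 n = r 0 _ + _
    have hEt : E n t := ⟨hn, hTt, hAA⟩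
    have h1 : ∃ t ≤ n, E n t := ⟨t, (hEn n t hEt).le, hEt⟩
    have h2 : grt (E n) n = t := by
      obtain ⟨_, h3, h4⟩ := grt_spec (Pr.fix hEpr n) h1
      refine le_antisymm ?_ (h4 t (hEn n t hEt).le hEt)
      by_contra hc
      exact h3.2.2 (hlater _ h3.2.1 (not_le.1 hc))
    rw [h, if_pos h1, h2, if_pos]
    exact lt_of_lt_of_le (lt_of_le_of_ne (AA_le_od t hn) hAA) (od_le hn)

theorem IsHH.pow_mul {T : N → N → Prop} {H : N → N} (hH : IsHH T H) (k n : N) :
    H (ex2 k * n) = H n := by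
  rcases eq_or_ne n 0 with rfl | hn0
  · rw [mul_zero]
  have hn : 0 < n := Helper81.RM.pos_iff.2 hn0
  have hn' : 0 < ex2 k * n := mul_pos (ex2_pos k) hn
  by_cases h : ∃ t, T (th n) t ∧ AA t n ≠ RM.od n
  · have hpr : Pr (fun t : N => T (th n) t ∧ AA t n ≠ RM.od n) :=
      Pr.and (Pr.fix hH.pr (th n)) (Pr.ne (fn_AA Fn.id (Fn.const n)) (Fn.const _))
    have hb : ∀ t, (T (th n) t ∧ AA t n ≠ RM.od n) → t ≤ n := by
      intro t ht
      by_contra hc
      exact ht.2 (AA_eq_od hn (not_le.1 hc).le)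
    obtain ⟨t, ht, hmax⟩ := Sig.greatest hpr.1 h hb
    have e1 := hH.some n t hn ht.1 ht.2 (fun t' h1 h2 => by
      by_contra hc
      exact absurd (hmax t' ⟨h1, hc⟩) (not_le.2 h2))
    have e2 := hH.some (ex2 k * n) t hn' (by rw [th_pow_mul k hn]; exact ht.1)
      (by rw [AA_pow_mul, od_pow_mul k hn]; exact ht.2) (fun t' h1 h2 => by
        rw [AA_pow_mul, od_pow_mul k hn]
        rw [th_pow_mul k hn] at h1
        by_contra hc
        exact absurd (hmax t' ⟨h1, hc⟩) (not_le.2 h2))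
    rw [e1, e2, AA_pow_mul, od_pow_mul k hn]
  · push Not at h
    rw [hH.none n hn h, hH.none (ex2 k * n) hn' (fun t ht => by
      rw [AA_pow_mul, od_pow_mul k hn]
      rw [th_pow_mul k hn] at ht
      exact h t ht)]

theorem IsHH.od {T : N → N → Prop} {H : N → N} (hH : IsHH T H) {n : N} (hn : 0 < n) :
    H (od n) = H n := by
  have h := hH.pow_mul (vv n) (RM.od n)
  rw [← (od_spec hn).1] at h
  exact h.symm

open Classical in
theorem IsHH.last {T : N → N → Prop} {H : N → N} (hH : IsHH T H) {n t : N} (hn : 0 < n)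
    (h : T (th n) t) (hmax : ∀ t', T (th n) t' → t' ≤ t) :
    H n = H (AA t n) +
      (if RM.od n = AA t n ∨ cpy (3 * t + 10) (AA t n) (RM.od n) then 0 else 1) := by
  by_cases h1 : AA t n = RM.od n
  · rw [if_pos (Or.inl h1.symm), h1, hH.od hn, add_zero]
  · have e1 := hH.some n t hn h h1 (fun t' h2 h3 => absurd (hmax t' h2) (not_le.2 h3))
    rw [e1]
    congr 1
    by_cases h2 : cpy (3 * t + 10) (AA t n) (RM.od n)
    · rw [if_pos h2, if_pos (Or.inr h2)]
    · rw [if_neg h2, if_neg]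
      rintro (h3 | h3)
      · exact h1 h3.symm
      · exact h2 h3

end Pool.Agent.Helper7.RM
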