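import Mathlib
import Pool.Agent.Helper7.RM.Corr

/-! The arithmetic of the decoding. -/

namespace Pool.Agent.Helper7.RM

universe u

variable {N : Type u} [Mdl N]

theorem odd_unique {a b k l : N} (ha : md a 2 = 1) (hb : md b 2 = 1)
    (h : ex2 k * a = ex2 l * b) : a = b := by
  have h1 := od_eq ha (rfl : ex2 k * a = ex2 k * a)
  have h2 := od_eq hb h
  rw [← h1, h2]

theorem co_le_of_dvd {a b : N} (hb : 0 < b) (h : a ∣ b) : a ≤ b := by
  obtain ⟨c, rfl⟩ := h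
  have hc : c ≠ 0 := by
    rintro rfl
    rw [mul_zero] at hb
    exact lt_irrefl _ hb
  have h1 : 1 ≤ c := by
    have := (succ_le_iff' 0 c).2 (pos_iff_ne_zero.2 hc)
    rwa [zero_add] at this
  calc a = a * 1 := (mul_one a).symm
    _ ≤ a * c := mul_le_mul_right h1 a

theorem co_le_abs {m : N} {z : ZZ N} (hz : z ≠ 0) (h : zi m ∣ z) : zi m ≤ |z| := by
  obtain ⟨y, rfl⟩ := h
  have hy : y ≠ 0 := by
    rintro rfl
    exact hz (mul_zero _)
  have h1 : 1 ≤ |y| := z_discrete (abs_pos.2 hy)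
  have h0 : 0 ≤ zi m := zi_nonneg m
  rw [abs_mul, abs_of_nonneg h0]
  nlinarith

theorem not_two {w1 w2 u B : N} (hw1 : 0 < w1) (hw2 : 0 < w2) (h1B : w1 ≤ B) (h2B : w2 ≤ B)
    (hlt : w1 < w2) (hu : B * B < u) (h1 : od (w1 + u) = od w1) (h2 : od (w2 + u) = od w2) :
    False := by
  have p1 : 0 < w1 + u := lt_of_lt_of_le hw1 le_self_add
  have p2 : 0 < w2 + u := lt_of_lt_of_le hw2 le_self_add
  have s1 := (od_spec p1).1
  have s2 := (od_spec p2).1
  rw [h1] at s1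
  rw [h2] at s2
  have o1 := od_le hw1
  have o2 := od_le hw2
  generalize vv (w1 + u) = k1 at s1
  generalize vv (w2 + u) = k2 at s2
  have key : ∀ k o : N, o ≤ B → u ≤ ex2 k * o → B < ex2 k := by
    intro k o ho hk
    by_contra hc
    have hc' := not_lt.1 hc
    have h3 : ex2 k * o ≤ B * B := mul_le_mul hc' ho zero_le zero_le
    exact absurd (lt_of_lt_of_le hu (le_trans hk h3)) (lt_irrefl _)
  have g1 : B < ex2 k1 := key k1 (od w1) (le_trans o1 h1B) (by rw [← s1]; exact le_add_self)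
  have g2 : B < ex2 k2 := key k2 (od w2) (le_trans o2 h2B) (by rw [← s2]; exact le_add_self)
  have d1 : ex2 (min k1 k2) ∣ w1 + u := by
    rw [s1]; exact Dvd.dvd.mul_right (ex2_dvd (min_le_left _ _)) _
  have d2 : ex2 (min k1 k2) ∣ w2 + u := by
    rw [s2]; exact Dvd.dvd.mul_right (ex2_dvd (min_le_right _ _)) _
  have d3 : zi (ex2 (min k1 k2)) ∣ zi w2 - zi w1 := by
    have h3 := dvd_sub (zi_dvd.2 d2) (zi_dvd.2 d1)
    have e : zi (w2 + u) - zi (w1 + u) = zi w2 - zi w1 := by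
      rw [map_add, map_add]; ring
    rwa [e] at h3
  have d4 : ex2 (min k1 k2) ∣ w2 - w1 := zi_dvd.1 (by rw [zi_sub hlt.le]; exact d3)
  have d5 := co_le_of_dvd (tsub_pos_of_lt hlt) d4
  have g3 : B < ex2 (min k1 k2) := by
    rcases le_total k1 k2 with h | h
    · rw [min_eq_left h]; exact g1
    · rw [min_eq_right h]; exact g2
  exact absurd (lt_of_lt_of_le g3 (le_trans d5 (le_trans tsub_le_self h2B))) (lt_irrefl _)

theorem co_one_le_ex2 (x : N) : 1 ≤ zi (ex2 x) := by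
  refine z_discrete ?_
  have := zi_lt.2 (ex2_pos x)
  rwa [map_zero] at this

theorem big_pow (B : N) : 2 * B + 2 * B * B + 2 * B < ex2 (3 * B + 10) := by
  have h2 : ex2 (3 * B + 10) = 8 * (ex2 B * ex2 B * ex2 B) * ex2 7 := by
    have e : 3 * B + 10 = B + (B + (B + (1 + (1 + (1 + 7))))) := by ring
    rw [e]
    simp only [ex2_add, ex2_one]
    ring
  rw [h2, ← zi_lt]
  simp only [map_add, map_mul, map_ofNat]
  have hB : zi B < zi (ex2 B) := zi_lt.2 (lt_ex2 B)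
  have hB0 : 0 ≤ zi B := zi_nonneg B
  have h7 := co_one_le_ex2 (N := N) 7
  have hE := co_one_le_ex2 B
  generalize zi B = b at *
  generalize zi (ex2 B) = E at *
  generalize zi (ex2 (7 : N)) = F at *
  have h3 : b * b ≤ E * E := mul_le_mul hB.le hB.le hB0 (by linarith)
  have h4 : E * 1 ≤ E * E := mul_le_mul_of_nonneg_left hE (by linarith)
  have h5 : E * E * 1 ≤ E * E * E := mul_le_mul_of_nonneg_left hE (by positivity)
  have h6 : 8 * (E * E * E) * 1 ≤ 8 * (E * E * E) * F :=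
    mul_le_mul_of_nonneg_left h7 (by positivity)
  nlinarith

theorem coreOne {w1 w2 u B k1 k2 L1 L2 b1 b2 c1 c2 : N}
    (h1B : w1 ≤ B) (h2B : w2 ≤ B) (b1B : b1 ≤ B) (b2B : b2 ≤ B)
    (ho1 : md b1 2 = 1) (ho2 : md b2 2 = 1) (hc1 : md c1 2 = 1) (hc2 : md c2 2 = 1)
    (e1 : w1 + u = ex2 k1 * (b1 + ex2 L1 * c1)) (e2 : w2 + u = ex2 k2 * (b2 + ex2 L2 * c2))
    (hL1 : 3 * B + 10 ≤ L1) (hL2 : 3 * B + 10 ≤ L2)
    (m1 : cg (ex2 (3 * B + 10)) c1 b1) (m2 : cg (ex2 (3 * B + 10)) c2 b2)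
    (hk : k1 ≤ k2) : b1 = b2 := by
  have hbig := big_pow B
  have hL2' : 1 ≤ L2 := by
    refine le_trans ?_ hL2
    have : 3 * B + 10 = 1 + (3 * B + 9) := by ring
    rw [this]; exact le_self_add
  generalize 3 * B + 10 = m at *
  have hBm : B < ex2 m := by
    refine lt_of_le_of_lt ?_ hbig
    have : 2 * B + 2 * B * B + 2 * B = B + (B + 2 * B * B + 2 * B) := by ring
    rw [this]; exact le_self_add
  have hmod : ∀ c : N, cg (ex2 m) c b1 → cg (ex2 m) c b2 → b1 = b2 := by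
    intro c ha hb
    exact cg.eq_of_lt (cg.trans ha.symm hb) (lt_of_le_of_lt b1B hBm) (lt_of_le_of_lt b2B hBm)
  have h5 : md (b2 + ex2 L2 * c2) 2 = 1 := by
    obtain ⟨L, hL⟩ := exists_add_of_le hL2'
    have : b2 + ex2 L2 * c2 = 2 * (ex2 L * c2) + b2 := by
      rw [hL, ex2_add, ex2_one]; ring
    rw [this, md_mul_add]; exact ho2
  obtain ⟨d, rfl⟩ := exists_add_of_le hk
  -- the integer D
  have e1' : zi w1 + zi u = zi (ex2 k1) * (zi b1 + zi (ex2 L1) * zi c1) := by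
    rw [← map_add, e1, map_mul, map_add, map_mul]
  have e2' : zi w2 + zi u = zi (ex2 k1) * zi (ex2 d) * (zi b2 + zi (ex2 L2) * zi c2) := by
    rw [← map_add, e2, ex2_add]
    simp only [map_mul, map_add]
  obtain ⟨D, hDdef⟩ : ∃ D : ZZ N, D = zi (ex2 d) * zi b2 + zi (ex2 d) * zi (ex2 L2) * zi c2
    - (zi b1 + zi (ex2 L1) * zi c1) := ⟨_, rfl⟩
  have hD : zi w2 - zi w1 = zi (ex2 k1) * D := by
    rw [hDdef]; linear_combination e2' - e1'
  have q1 : zi w1 ≤ zi B := zi_le.2 h1B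
  have q2 : zi w2 ≤ zi B := zi_le.2 h2B
  have q3 : 0 ≤ zi w1 := zi_nonneg _
  have q4 : 0 ≤ zi w2 := zi_nonneg _
  have q5 : zi b1 ≤ zi B := zi_le.2 b1B
  have q6 : zi b2 ≤ zi B := zi_le.2 b2B
  have q7 : 0 ≤ zi b1 := zi_nonneg _
  have q8 : 0 ≤ zi b2 := zi_nonneg _
  have q9 : 0 ≤ zi B := zi_nonneg _
  have hDabs : |D| ≤ zi B := by
    have h1 : |zi w2 - zi w1| ≤ zi B := by
      rw [abs_le]; constructor <;> linarith
    have h2 := co_one_le_ex2 k1
    rw [hD, abs_mul, abs_of_nonneg (by linarith : 0 ≤ zi (ex2 k1))] at h1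
    nlinarith [abs_nonneg D]
  have hDB := abs_le.1 hDabs
  have hDeq : D + zi b1 = zi (ex2 d) * zi b2 + zi (ex2 d) * (zi (ex2 L2) * zi c2)
      - zi (ex2 L1) * zi c1 := by
    rw [hDdef]; ring
  have hbig' : 2 * zi B + 2 * zi B * zi B + 2 * zi B < zi (ex2 m) := by
    have := zi_lt.2 hbig
    simpa only [map_add, map_mul, map_ofNat] using this
  have v1 : zi (ex2 m) ∣ zi (ex2 L1) := zi_dvd.2 (ex2_dvd hL1)
  have v2 : zi (ex2 m) ∣ zi (ex2 L2) := zi_dvd.2 (ex2_dvd hL2)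
  have hd0 := co_one_le_ex2 d
  rcases le_or_gt m d with hmd | hmd
  · have v3 : zi (ex2 m) ∣ zi (ex2 d) := zi_dvd.2 (ex2_dvd hmd)
    have hdvd : zi (ex2 m) ∣ D + zi b1 := by
      rw [hDeq]
      exact dvd_sub (dvd_add (Dvd.dvd.mul_right v3 _) (Dvd.dvd.mul_right v3 _))
        (Dvd.dvd.mul_right v1 _)
    have h0 : D + zi b1 = 0 := by
      by_contra hne
      have h1 := co_le_abs hne hdvd
      have h2 : |D + zi b1| ≤ 2 * zi B := by
        rw [abs_le]; constructor <;> linarith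
      nlinarith
    rw [h0] at hDeq
    have h4 : ex2 L1 * c1 = ex2 d * (b2 + ex2 L2 * c2) := by
      rw [← zi_inj]
      simp only [map_mul, map_add]
      linear_combination hDeq
    have h6 := odd_unique hc1 h5 h4
    refine hmod c1 m1 ?_
    obtain ⟨r, hr⟩ := ex2_dvd hL2
    exact ⟨0, r * c2, by rw [h6, hr]; ring⟩
  · have v3 : zi (ex2 d) ∣ zi (ex2 m) := zi_dvd.2 (ex2_dvd hmd.le)
    have hddvd : zi (ex2 d) ∣ D + zi b1 := by
      rw [hDeq]
      exact dvd_sub (dvd_add (Dvd.intro _ rfl) (Dvd.intro _ rfl))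
        (Dvd.dvd.mul_right (dvd_trans v3 v1) _)
    have hne : D + zi b1 ≠ 0 := by
      intro h0
      rw [h0] at hDeq
      have h4 : ex2 L1 * c1 = ex2 d * (b2 + ex2 L2 * c2) := by
        rw [← zi_inj]
        simp only [map_mul, map_add]
        linear_combination hDeq
      have w1 := vv_eq hc1 (rfl : ex2 L1 * c1 = ex2 L1 * c1)
      have w2 := vv_eq h5 h4
      rw [w1] at w2
      rw [w2] at hL1
      exact absurd (lt_of_lt_of_le hmd hL1) (lt_irrefl _)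
    have h2d : zi (ex2 d) ≤ 2 * zi B := by
      have h1 := co_le_abs hne hddvd
      have h2 : |D + zi b1| ≤ 2 * zi B := by
        rw [abs_le]; constructor <;> linarith
      linarith
    have hdvd : zi (ex2 m) ∣ D + zi b1 - zi (ex2 d) * zi b2 := by
      have h3 : D + zi b1 - zi (ex2 d) * zi b2 =
          zi (ex2 d) * (zi (ex2 L2) * zi c2) - zi (ex2 L1) * zi c1 := by rw [hDeq]; ring
      rw [h3]
      exact dvd_sub (Dvd.dvd.mul_left (Dvd.dvd.mul_right v2 _) _) (Dvd.dvd.mul_right v1 _)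
    have h0 : D + zi b1 - zi (ex2 d) * zi b2 = 0 := by
      by_contra hne'
      have h7 := co_le_abs hne' hdvd
      have h8 : 0 ≤ zi (ex2 d) * zi b2 := mul_nonneg (by linarith) q8
      have h9 : zi (ex2 d) * zi b2 ≤ 2 * zi B * zi B :=
        mul_le_mul h2d q6 q8 (by linarith)
      have h2 : |D + zi b1 - zi (ex2 d) * zi b2| ≤ 2 * zi B + 2 * zi B * zi B := by
        rw [abs_le]; constructor <;> linarith
      linarith
    have h4 : ex2 (d + L2) * c2 = ex2 L1 * c1 := by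
      rw [← zi_inj, ex2_add]
      simp only [map_mul]
      linear_combination h0 - hDeq
    have h6 := odd_unique hc2 hc1 h4
    exact hmod c1 m1 (by rw [← h6]; exact m2)

theorem pair_eq {w1 w2 u m1 m2 B : N} (hw1 : 0 < w1) (hw2 : 0 < w2)
    (h1B : w1 ≤ B) (h2B : w2 ≤ B) (hm1 : 3 * B + 10 ≤ m1) (hm2 : 3 * B + 10 ≤ m2)
    (hc1 : cpy m1 (od w1) (od (w1 + u))) (hc2 : cpy m2 (od w2) (od (w2 + u))) :
    od w1 = od w2 := by
  have dec : ∀ w m : N, 0 < w → w ≤ B → 3 * B + 10 ≤ m → cpy m (od w) (od (w + u)) →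
      ∃ k L c, 3 * B + 10 ≤ L ∧ md c 2 = 1 ∧ w + u = ex2 k * (od w + ex2 L * c) ∧
        cg (ex2 (3 * B + 10)) c (od w) := by
    intro w m hw hwB hm hc
    obtain ⟨c1, c2, c3⟩ := hc
    have s1 := od_spec (show 0 < w + u from lt_of_lt_of_le hw le_self_add)
    have s2 := od_spec (tsub_pos_of_lt c1)
    refine ⟨vv (w + u), vv (od (w + u) - od w), od (od (w + u) - od w), le_trans hm c2,
      s2.2, ?_, ?_⟩
    · rw [← s2.1, add_tsub_cancel_of_le c1.le]
      exact s1.1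
    · exact cg.of_dvd (ex2_dvd hm) c3
  obtain ⟨k1, L1, c1, a1, a2, a3, a4⟩ := dec w1 m1 hw1 h1B hm1 hc1
  obtain ⟨k2, L2, c2, b1, b2, b3, b4⟩ := dec w2 m2 hw2 h2B hm2 hc2
  have o1 := (od_spec hw1).2
  have o2 := (od_spec hw2).2
  have l1 := le_trans (od_le hw1) h1B
  have l2 := le_trans (od_le hw2) h2B
  rcases le_total k1 k2 with h | h
  · exact coreOne h1B h2B l1 l2 o1 o2 a2 b2 a3 b3 a1 b1 a4 b4 h
  · exact (coreOne h2B h1B l2 l1 o2 o1 b2 a2 b3 a3 b1 a1 b4 a4 h).symm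

end Pool.Agent.Helper7.RM
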