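import Mathlib
import Pool.Agent.Helper7.RM.CoreOne

/-! Decoding. -/

namespace Pool.Agent.Helper7.RM

universe u

variable {N : Type u} [Mdl N]

theorem md_two_ne_succ (a : N) : md (a + 1) 2 ≠ md a 2 := by
  rw [md_two_succ]
  rcases md_two a with h | h
  · rw [h, tsub_zero]; exact one_ne_zero
  · rw [h, tsub_self]; exact zero_ne_one

theorem F1 {f : N → N} (hf : Fn f) {H : N → N} (hH : IsHH (tt f) H) {X : Set N} (i : N)
    (h1 : ∀ x ∈ X, 0 < x → md (cph x + H x) 2 = i)
    (h2 : ∀ x ∈ X, ∀ y ∈ X, 0 < x → 0 < y → x ≠ y → md (cph (x + y) + H (x + y)) 2 = i)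
    (h3 : ∀ e, ∃ x ∈ X, 0 < x ∧ e < th x)
    {x y z e : N} (hx : x ∈ X) (hy : y ∈ X) (hz : z ∈ X) (hx0 : 0 < x) (hy0 : 0 < y)
    (hz0 : 0 < z) (hxe : e < th x) (hxy : th x < th y) (hyz : th y < th z) (s : N)
    (hs : f s = e) : ∃ s' ≤ x + y + z, f s' = e := by
  classical
  by_contra hcon
  push Not at hcon
  obtain ⟨t, _, ht1, ht2⟩ := tt_find hf hs
  set B := x + y + z with hB
  have hxB : x ≤ B := by rw [hB, add_assoc]; exact le_self_add
  have hyB : y ≤ B := by rw [hB, add_right_comm]; exact le_add_self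
  have hzB : z ≤ B := le_add_self
  have htB : B < t := by
    by_contra hc
    exact hcon t (not_lt.1 hc) ht1
  obtain ⟨S, hS⟩ := tt_bdd hf (th z)
  -- the large element
  obtain ⟨u, hu, hu0, hut⟩ := h3 (S + th z + B * B + 1)
  set J := S + th z + B * B + 1 with hJ
  have hSJ : S < J := by
    rw [hJ]; exact (lt_succ_iff' _ _).2 ((le_self_add).trans le_self_add)
  have hzJ : th z < J := by
    rw [hJ]; exact (lt_succ_iff' _ _).2 ((le_add_self).trans le_self_add)
  have hBJ : B * B < J := by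
    rw [hJ]; exact (lt_succ_iff' _ _).2 le_add_self
  have hJu : MM J ∣ u := (th_iff hu0).2 hut.le
  have huJ : B * B < u := by
    have a1 := Helper81.RM.le_of_dvd' hu0 hJu
    exact lt_of_lt_of_le hBJ ((le_MM J).trans a1)
  have hmain : ∀ w ∈ X, 0 < w → w ≤ B → e < th w → th w ≤ th z →
      ∃ m, 3 * B + 10 ≤ m ∧ (od (w + u) = od w ∨ cpy m (od w) (od (w + u))) := by
    intro w hw hw0 hwB hew hwz
    have htt : tt f (th w) t := ⟨by rw [ht1]; exact hew, ht2⟩
    obtain ⟨tw, q1, q2⟩ := tt_last hf ⟨t, htt⟩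
    have q3 : t ≤ tw := q2 t htt
    have q4 : tw < S := hS tw (tt_mono hwz q1)
    have hcg : cg (MM J) w (w + u) := by
      have := cg.add (cg.refl (MM J) w) (cg_zero_iff.2 hJu)
      rw [add_zero] at this
      exact this.symm
    have hwu0 : 0 < w + u := lt_of_lt_of_le hw0 le_self_add
    have hthJ : th w < J := lt_of_le_of_lt hwz hzJ
    have e1 : th (w + u) = th w := th_congr hw0 hwu0 hthJ hcg
    have e2 : cph (w + u) = cph w := cph_congr hw0 hwu0 hthJ hcg
    have hBtw : B < tw := lt_of_lt_of_le htB q3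
    have e3 : AA tw (w + u) = od w := by
      rw [← AA_congr_le (q4.trans hSJ).le hcg]
      exact AA_eq_od hw0 (hwB.trans hBtw.le)
    have e4 : H (w + u) = H (AA tw (w + u)) +
        (if od (w + u) = AA tw (w + u) ∨ cpy (3 * tw + 10) (AA tw (w + u)) (od (w + u))
          then 0 else 1) := by
      apply hH.last hwu0
      · rw [e1]; exact q1
      · intro τ h
        rw [e1] at h
        exact q2 τ h
    rw [e3, hH.od hw0] at e4
    have c1 := h1 w hw hw0
    have hne : w ≠ u := by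
      rintro rfl
      exact absurd (hut.trans_le hwz) (not_lt.2 hzJ.le)
    have c2 := h2 w hw u hu hw0 hu0 hne
    refine ⟨3 * tw + 10, ?_, ?_⟩
    · gcongr
    · by_contra hc
      rw [if_neg hc] at e4
      rw [e2, e4, ← add_assoc] at c2
      exact md_two_ne_succ _ (c2.trans c1.symm)
  obtain ⟨m1, g1, o1⟩ := hmain x hx hx0 hxB hxe (hxy.trans hyz).le
  obtain ⟨m2, g2, o2⟩ := hmain y hy hy0 hyB (hxe.trans hxy) hyz.le
  obtain ⟨m3, g3, o3⟩ := hmain z hz hz0 hzB ((hxe.trans hxy).trans hyz) le_rfl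
  have nt : ∀ w1 w2 : N, 0 < w1 → 0 < w2 → w1 ≤ B → w2 ≤ B → w1 ≠ w2 →
      od (w1 + u) = od w1 → od (w2 + u) = od w2 → False := by
    intro w1 w2 a b c d hne p q
    rcases lt_or_gt_of_ne hne with h | h
    · exact not_two a b c d h huJ p q
    · exact not_two b a d c h huJ q p
  have hxy' : x ≠ y := by rintro rfl; exact lt_irrefl _ hxy
  have hxz' : x ≠ z := by rintro rfl; exact lt_irrefl _ (hxy.trans hyz)
  have hyz' : y ≠ z := by rintro rfl; exact lt_irrefl _ hyz
  have pe : ∀ w1 w2 m1 m2 : N, 0 < w1 → 0 < w2 → w1 ≤ B → w2 ≤ B → 3 * B + 10 ≤ m1 →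
      3 * B + 10 ≤ m2 → th w1 < th w2 → cpy m1 (od w1) (od (w1 + u)) →
      cpy m2 (od w2) (od (w2 + u)) → False := by
    intro w1 w2 n1 n2 a b c d p q hlt r r'
    have := pair_eq a b c d p q r r'
    have t1 := th_od a
    have t2 := th_od b
    rw [this] at t1
    exact absurd (t1.symm.trans t2) hlt.ne
  rcases o1 with o1 | o1
  · rcases o2 with o2 | o2
    · exact nt x y hx0 hy0 hxB hyB hxy' o1 o2
    · rcases o3 with o3 | o3
      · exact nt x z hx0 hz0 hxB hzB hxz' o1 o3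
      · exact pe y z m2 m3 hy0 hz0 hyB hzB g2 g3 hyz o2 o3
  · rcases o2 with o2 | o2
    · rcases o3 with o3 | o3
      · exact nt y z hy0 hz0 hyB hzB hyz' o2 o3
      · exact pe x z m1 m3 hx0 hz0 hxB hzB g1 g3 (hxy.trans hyz) o1 o3
    · exact pe x y m1 m2 hx0 hy0 hxB hyB g1 g2 hxy o1 o2

end Pool.Agent.Helper7.RM
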