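import Mathlib
import Pool.Agent.Helper7.RM.Corr

/-! The copy flag of a sum. -/

namespace Pool.Agent.Helper7.RM

universe u

variable {N : Type u} [Mdl N]

/-- exact or copy -/
def Ext (m b y : N) : Prop := y = b ∨ cpy m b y

theorem fl_one_le_iff {a : N} : 1 ≤ a ↔ 0 < a := by
  have := succ_le_iff' (0 : N) a
  rwa [zero_add] at this

theorem fl_sub_add {b n : N} (h : b < n) : b + (n - b) = n := add_tsub_cancel_of_le h.le

theorem fl_sub_pos {b n : N} (h : b < n) : 0 < n - b := tsub_pos_of_lt h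

theorem fl_cancel {m : N} {a c : N} (hm : 0 < m) (h : m * a = m * c) : a = c := by
  rcases lt_trichotomy a c with h1 | h1 | h1
  · exact absurd h (ne_of_lt (mul_lt_mul_of_pos_left h1 hm))
  · exact h1
  · exact absurd h.symm (ne_of_lt (mul_lt_mul_of_pos_left h1 hm))

/-- congruent numbers have the same valuation and congruent odd parts -/
theorem fl_val_congr {d d' m : N} (hm : 0 < m) (hd : 0 < d)
    (hc : cg (ex2 (vv d + m)) d d') :
    vv d' = vv d ∧ cg (ex2 m) (od d) (od d') := by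
  have h1 : ex2 (vv d) ∣ d := (le_vv hd).1 le_rfl
  have h2 : cg (ex2 (vv d)) d d' := hc.of_dvd (ex2_dvd le_self_add)
  have h3 : ex2 (vv d) ∣ d' := cg_zero_iff.1 (h2.symm.trans (cg_zero_iff.2 h1))
  obtain ⟨e, he⟩ := h3
  have hsp := od_spec hd
  obtain ⟨u, w, huw⟩ := hc
  have h4 : ex2 (vv d) * (od d + ex2 m * u) = ex2 (vv d) * (e + ex2 m * w) := by
    rw [ex2_add, he] at huw
    calc ex2 (vv d) * (od d + ex2 m * u) = ex2 (vv d) * od d + ex2 (vv d) * ex2 m * u := by ring
      _ = d + ex2 (vv d) * ex2 m * u := by rw [← hsp.1]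
      _ = ex2 (vv d) * e + ex2 (vv d) * ex2 m * w := huw
      _ = ex2 (vv d) * (e + ex2 m * w) := by ring
  have h5 : cg (ex2 m) (od d) e := ⟨u, w, fl_cancel (ex2_pos _) h4⟩
  have h6 : cg (2 : N) (od d) e := by
    have h7 : ex2 (1 : N) ∣ ex2 m := ex2_dvd (fl_one_le_iff.2 hm)
    rw [ex2_one] at h7
    exact h5.of_dvd h7
  have h8 : md e 2 = 1 := by
    rw [← (cg_iff_md (fl_one_le_iff.1 (by rw [← one_add_one_eq_two]; exact le_self_add))).1 h6]
    exact hsp.2
  rw [vv_eq h8 he, od_eq h8 he]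
  exact ⟨rfl, h5⟩

/-- the copy predicate depends only on a residue -/
theorem cpy_congr {m b n n' : N} (hm : 0 < m) (h : b < n) (h' : b < n')
    (hc : cg (ex2 (vv (n - b) + m)) n n') : cpy m b n ↔ cpy m b n' := by
  have h1 : cg (ex2 (vv (n - b) + m)) (n - b) (n' - b) := by
    have h2 := hc
    rw [← fl_sub_add h, ← fl_sub_add h', add_comm b (n - b), add_comm b (n' - b)] at h2
    simp only [add_tsub_cancel_right] at h2
    exact h2.add_cancel
  obtain ⟨h3, h4⟩ := fl_val_congr hm (fl_sub_pos h) h1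
  unfold cpy
  rw [h3]
  constructor
  · rintro ⟨_, h5, h6⟩
    exact ⟨h', h5, h4.symm.trans h6⟩
  · rintro ⟨_, h5, h6⟩
    exact ⟨h, h5, h4.trans h6⟩

theorem fl_odd_add {p K r : N} (hp : md p 2 = 1) (hK : 0 < K) : md (p + ex2 K * r) 2 = 1 := by
  obtain ⟨a, ha⟩ := odd_iff.1 hp
  obtain ⟨e, he⟩ := exists_add_of_le (fl_one_le_iff.2 hK)
  refine odd_iff.2 ⟨a + ex2 e * r, ?_⟩
  rw [ha, he, add_comm 1 e, ex2_succ]
  ring

/-- the odd part of a sum with different valuations -/
theorem fl_od_add {x y K : N} (hx : 0 < x) (hy : 0 < y) (hK : 0 < K) (h : vv y = vv x + K) :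
    od (x + y) = od x + ex2 K * od y := by
  refine od_eq (fl_odd_add (od_spec hx).2 hK) (k := vv x) ?_
  calc x + y = ex2 (vv x) * od x + ex2 (vv y) * od y := by
        rw [← (od_spec hx).1, ← (od_spec hy).1]
    _ = ex2 (vv x) * (od x + ex2 K * od y) := by rw [h, ex2_add]; ring

/-- both exact -/
theorem flag_a {x y b m : N} (hx : 0 < x) (hy : 0 < y) (hm : 0 < m)
    (h : vv x + x + m < vv y) (hxb : od x = b) (hyb : od y = b) : Ext m b (od (x + y)) := by
  obtain ⟨K, hK⟩ := exists_add_of_le (le_trans (le_trans le_self_add le_self_add) h.le :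
    vv x ≤ vv y)
  have h1 : x + m < K := by
    rw [hK, add_assoc] at h
    exact lt_of_add_lt_add_left h
  have hmK : m ≤ K := le_trans le_add_self h1.le
  have hK0 : 0 < K := lt_of_lt_of_le hm hmK
  have hb : md b 2 = 1 := by rw [← hxb]; exact (od_spec hx).2
  have hb0 : 0 < b := by rw [← hxb]; exact od_pos hx
  have h2 := fl_od_add hx hy hK0 hK
  rw [hxb, hyb] at h2
  right
  rw [h2]
  have h3 : b + ex2 K * b - b = ex2 K * b := add_tsub_cancel_left _ _
  refine ⟨lt_add_of_pos_right _ (mul_pos (ex2_pos K) hb0), ?_, ?_⟩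
  · rw [h3, vv_eq hb rfl]; exact hmK
  · rw [h3, od_eq hb rfl]; exact cg.refl _ _

/-- a summand of large valuation -/
theorem flag_b {x y b m : N} (hx : 0 < x) (hy : 0 < y) (hm : 0 < m)
    (h : vv x + x + m < vv y) (hxb : b < od x) :
    Ext m b (od (x + y)) ↔ Ext m b (od x) := by
  obtain ⟨K, hK⟩ := exists_add_of_le (le_trans (le_trans le_self_add le_self_add) h.le :
    vv x ≤ vv y)
  have h1 : x + m < K := by
    rw [hK, add_assoc] at h
    exact lt_of_add_lt_add_left h
  have hmK : m ≤ K := le_trans le_add_self h1.le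
  have hK0 : 0 < K := lt_of_lt_of_le hm hmK
  have h2 := fl_od_add hx hy hK0 hK
  have h3 : b < od (x + y) := by
    rw [h2]; exact lt_of_lt_of_le hxb le_self_add
  have h4 : vv (od x - b) + m ≤ K := by
    have h5 : vv (od x - b) < od x - b := vv_lt (fl_sub_pos hxb)
    have h6 : od x - b ≤ x := tsub_le_self.trans (od_le hx)
    exact (add_le_add_left (h5.le.trans h6) m).trans h1.le
  have h7 : cg (ex2 (vv (od x - b) + m)) (od x) (od (x + y)) := by
    rw [h2]
    have h8 : cg (ex2 K) (od x) (od x + ex2 K * od y) := ⟨od y, 0, by ring⟩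
    exact h8.of_dvd (ex2_dvd h4)
  have h9 := cpy_congr hm hxb h3 h7
  unfold Ext
  constructor
  · rintro (h10 | h10)
    · exact absurd h10.symm (ne_of_lt h3)
    · exact Or.inr (h9.2 h10)
  · rintro (h10 | h10)
    · exact absurd h10.symm (ne_of_lt hxb)
    · exact Or.inr (h9.1 h10)

theorem flagb_odd_add {a c : N} (ha : md a 2 = 1) : md (a + 2 * c) 2 = 1 := by
  rw [add_comm, md_mul_add]; exact ha

theorem flagb_pred {a b : N} (h : a < b) : ∃ c, b = c + 1 ∧ a ≤ c := by
  refine ⟨a + (b - (a + 1)), ?_, le_self_add⟩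
  have h1 : a + 1 ≤ b := (succ_le_iff' _ _).2 h
  calc b = (a + 1) + (b - (a + 1)) := (add_tsub_cancel_of_le h1).symm
    _ = a + (b - (a + 1)) + 1 := by ring

theorem flagb_decomp {b p : N} (h : b < p) :
    p = b + ex2 (vv (p - b)) * od (p - b) ∧ md (od (p - b)) 2 = 1 := by
  have h1 : 0 < p - b := tsub_pos_of_lt h
  obtain ⟨e, ho⟩ := od_spec h1
  refine ⟨?_, ho⟩
  rw [← e]
  exact (add_tsub_cancel_of_le h.le).symm

/-- odd parts converging to `b` -/
theorem flag_c {x y b m : N} (hx : 0 < x) (hy : 0 < y) (hm : 0 < m) (hv : vv x = vv y)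
    (hxb : b < od x) (hyb : b < od y) (h1 : m + 1 < vv (od x - b))
    (h2 : vv (od x - b) + m + 1 < vv (od y - b)) :
    Ext m b (od (x + y)) ↔ Ext m b (od x) := by
  obtain ⟨ex, hox⟩ := od_spec hx
  obtain ⟨ey, hoy⟩ := od_spec hy
  obtain ⟨ep, hr⟩ := flagb_decomp hxb
  obtain ⟨eq, hs⟩ := flagb_decomp hyb
  rw [← hv] at ey
  set k := vv x with hk
  set p := od x with hp
  set q := od y with hq
  set K := vv (p - b) with hK
  set L := vv (q - b) with hL
  set r := od (p - b) with hr'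
  set s := od (q - b) with hs'
  obtain ⟨K', hK1, hK2⟩ := flagb_pred h1
  obtain ⟨K'', hK3, hK4⟩ := flagb_pred (show m < K' from (succ_le_iff' _ _).1 hK2)
  obtain ⟨L', hL1, hL2⟩ := flagb_pred h2
  obtain ⟨d, hd⟩ : ∃ d, L' = K + m + 1 + d := ⟨_, (add_tsub_cancel_of_le hL2).symm⟩
  have eL : L = K + (m + (1 + d) + 1) := by rw [hL1, hd]; ring
  set D := m + (1 + d) + 1 with hD
  have hDe : ex2 D = 2 * ex2 (m + (1 + d)) := ex2_succ _
  have hKe : ex2 K = 2 * ex2 K' := by rw [hK1]; exact ex2_succ _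
  have hK'e : ex2 K' = 2 * ex2 K'' := by rw [hK3]; exact ex2_succ _
  have hLe : ex2 L = ex2 K * ex2 D := by rw [eL]; exact ex2_add _ _
  have hb : md b 2 = 1 := by
    have : p = 2 * (ex2 K' * r) + b := by
      rw [ep, hKe]; ring
    rw [this, md_mul_add] at hox
    exact hox
  set t := r + ex2 D * s with ht
  set w := b + ex2 K' * t with hw
  have ht1 : md t 2 = 1 := by
    have : t = r + 2 * (ex2 (m + (1 + d)) * s) := by rw [ht, hDe]; ring
    rw [this]; exact flagb_odd_add hr
  have hw1 : md w 2 = 1 := by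
    have : w = b + 2 * (ex2 K'' * t) := by rw [hw, hK'e]; ring
    rw [this]; exact flagb_odd_add hb
  have hsum : x + y = ex2 (k + 1) * w := by
    rw [ex2_succ, hw, ht]
    calc x + y = ex2 k * p + ex2 k * q := by rw [← ex, ← ey]
      _ = ex2 k * (b + ex2 K * r) + ex2 k * (b + ex2 L * s) := by rw [← ep, ← eq]
      _ = 2 * ex2 k * (b + ex2 K' * (r + ex2 D * s)) := by rw [hLe, hKe]; ring
  have how : od (x + y) = w := od_eq hw1 hsum
  have hwb : w - b = ex2 K' * t := by rw [hw]; exact add_tsub_cancel_left _ _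
  have hvw : vv (w - b) = K' := vv_eq ht1 hwb
  have hodw : od (w - b) = t := od_eq ht1 hwb
  have htpos : 0 < t := by
    rcases eq_or_lt_of_le (zero_le (a := t)) with h | h
    · exfalso
      rw [← h] at ht1
      have : md (0 : N) 2 = 0 := md_of_lt (by norm_num)
      rw [this] at ht1
      exact zero_ne_one ht1
    · exact h
  have hbw : b < w := by
    rw [hw]; exact lt_add_of_pos_right _ (mul_pos (ex2_pos _) htpos)
  rw [how]
  unfold Ext cpy
  rw [hvw, hodw]
  have hcg : cg (ex2 m) t r := by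
    refine ⟨0, ex2 (1 + d + 1) * s, ?_⟩
    have : ex2 D = ex2 m * ex2 (1 + d + 1) := by
      rw [← ex2_add, hD]; congr 1; ring
    rw [ht, this]; ring
  constructor
  · rintro (h | ⟨_, _, h⟩)
    · exact absurd h hbw.ne'
    · exact Or.inr ⟨hxb, le_trans le_self_add h1.le, hcg.symm.trans h⟩
  · rintro (h | ⟨_, _, h⟩)
    · exact absurd h hxb.ne'
    · exact Or.inr ⟨hbw, le_trans le_self_add hK2, hcg.trans h⟩

/-- congruent summands -/
theorem flag_d {x y b m R : N} (hx : 0 < x) (hy : 0 < y) (hm : 0 < m) (hv : vv x = vv y)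
    (hxb : b < od x) (hyb : b < od y) (hR : vv (od x - b) ≤ R)
    (hc : cg (ex2 (vv x + R + m + 5)) x y) :
    Ext m b (od (x + y)) ↔ Ext m b (od x) := by
  obtain ⟨ex, hox⟩ := od_spec hx
  obtain ⟨ey, hoy⟩ := od_spec hy
  rw [← hv] at ey
  set k := vv x with hk
  set p := od x with hp
  set q := od y with hq
  set K := vv (p - b) with hK
  obtain ⟨a, ha⟩ := odd_iff.1 hox
  obtain ⟨c, hc'⟩ := odd_iff.1 hoy
  set w := a + c + 1 with hw
  have h2w : p + q = 2 * w := by rw [ha, hc', hw]; ring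
  set E := ex2 (R + m + 4) with hE
  have hE1 : ex2 (k + R + m + 5) = ex2 k * (2 * E) := by
    rw [hE, ← ex2_succ, ← ex2_add]; congr 1; ring
  have hE2 : E = 2 * ex2 (R + m + 3) := by
    rw [hE, ← ex2_succ]; congr 1; ring
  obtain ⟨u, v, huv⟩ := hc
  have hpq : p + 2 * E * u = q + 2 * E * v := by
    refine mul_left_cancel₀ (ex2_pos k).ne' ?_
    calc ex2 k * (p + 2 * E * u) = ex2 k * p + ex2 k * (2 * E) * u := by ring
      _ = x + ex2 (k + R + m + 5) * u := by rw [← ex, hE1]
      _ = y + ex2 (k + R + m + 5) * v := huv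
      _ = ex2 k * q + ex2 k * (2 * E) * v := by rw [← ey, hE1]
      _ = ex2 k * (q + 2 * E * v) := by ring
  have hpw : p + E * u = w + E * v := by
    refine mul_left_cancel₀ (two_ne_zero (α := N)) ?_
    calc 2 * (p + E * u) = p + (p + 2 * E * u) := by ring
      _ = p + q + 2 * E * v := by rw [hpq]; ring
      _ = 2 * (w + E * v) := by rw [h2w]; ring
  have hw1 : md w 2 = 1 := by
    have e1 : md (2 * (ex2 (R + m + 3) * v) + w) 2 = md w 2 := md_mul_add _ _ _
    have e2 : md (2 * (ex2 (R + m + 3) * u) + p) 2 = md p 2 := md_mul_add _ _ _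
    rw [← e1, ← hox, ← e2]
    congr 1
    calc 2 * (ex2 (R + m + 3) * v) + w = w + E * v := by rw [hE2]; ring
      _ = p + E * u := hpw.symm
      _ = 2 * (ex2 (R + m + 3) * u) + p := by rw [hE2]; ring
  have hsum : x + y = ex2 (k + 1) * w := by
    rw [ex2_succ]
    calc x + y = ex2 k * p + ex2 k * q := by rw [← ex, ← ey]
      _ = ex2 k * (p + q) := by ring
      _ = 2 * ex2 k * w := by rw [h2w]; ring
  have how : od (x + y) = w := od_eq hw1 hsum
  have hbw : b < w := by
    have : 2 * b < 2 * w := by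
      rw [← h2w, two_mul]; exact add_lt_add hxb hyb
    exact lt_of_mul_lt_mul_left this zero_le
  have hcg : cg (ex2 (vv (p - b) + m)) p w := by
    have h1 : cg E p w := ⟨u, v, hpw⟩
    refine cg.of_dvd (ex2_dvd ?_) h1
    exact le_trans (add_le_add_left hR m) le_self_add
  rw [how]
  unfold Ext
  have h3 := cpy_congr hm hxb hbw hcg
  constructor
  · rintro (h | h)
    · exact absurd h hbw.ne'
    · exact Or.inr (h3.2 h)
  · rintro (h | h)
    · exact absurd h hxb.ne'
    · exact Or.inr (h3.1 h)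

end Pool.Agent.Helper7.RM
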