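import Mathlib
import Pool.Agent.Helper7.RM.Count

/-! Two elements of the same colour in a sparse sequence. -/

namespace Pool.Agent.Helper7.RM

universe u

variable {N : Type u} [Mdl N]

/-- `h` unbounded on `X`, `h ≤ g`, and a colouring `c` of `X` with fewer than `K` colours: there
are `x, y ∈ X` of the same colour with `B < h x` and `g x < h y`. -/
theorem sparse_pair {X : Set N} (hX : X ∈ Mdl.sets (N := N)) {h g c : N → N} (hh : Fn h)
    (hg : Fn g) (hc : Fn c) (hhg : ∀ x, h x ≤ g x) {K : N} (hcK : ∀ x ∈ X, c x < K)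
    (hub : ∀ B, ∃ x ∈ X, B < h x) (B : N) :
    ∃ x ∈ X, ∃ y ∈ X, B < h x ∧ g x < h y ∧ c x = c y := by
  have hP : Pr (fun p : N × N => p.2 ∈ X ∧ g p.1 < h p.2) :=
    Pr.and (Pr.mem hX Fn.snd') (Pr.lt (Fn.fst hg) (Fn.snd hh))
  have hex : ∀ x, ∃ y, y ∈ X ∧ g x < h y := fun x => by
    obtain ⟨y, hy, hy2⟩ := hub (g x)
    exact ⟨y, hy, hy2⟩
  have hnext : Fn (fun x => mu (fun y => y ∈ X ∧ g x < h y)) :=
    Fn.mu (P := fun x y => y ∈ X ∧ g x < h y) hP hex
  have hspec : ∀ x, mu (fun y => y ∈ X ∧ g x < h y) ∈ X ∧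
      g x < h (mu (fun y => y ∈ X ∧ g x < h y)) := fun x =>
    (mu_spec (P := fun y => y ∈ X ∧ g x < h y) (Pr.fix hP x) (hex x)).1
  obtain ⟨x0, hx0, hBx0⟩ := hub B
  obtain ⟨s, hs, hs0, hsS⟩ := exists_prec' x0
    (h := fun _ y => mu (fun z => z ∈ X ∧ g y < h z))
    (Fn.comp (f := fun x => mu (fun y => y ∈ X ∧ g x < h y)) hnext Fn.snd')
  have h1 : ∀ n, s n ∈ X ∧ B < h (s n) := by
    refine Pr.ind (P := fun n => s n ∈ X ∧ B < h (s n))
      (Pr.and (Pr.mem hX hs) (Pr.lt (Fn.const B) (Fn.comp hh hs))) ?_ ?_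
    · rw [hs0]; exact ⟨hx0, hBx0⟩
    · intro n hn
      rw [hsS]
      have := hspec (s n)
      exact ⟨this.1, lt_of_lt_of_le hn.2 (le_trans (hhg _) this.2.le)⟩
  have h2 : ∀ i j, i < j → g (s i) < h (s j) := by
    intro i
    refine Pr.ind (P := fun j => i < j → g (s i) < h (s j))
      (Pr.imp (Pr.lt (Fn.const i) Fn.id) (Pr.lt (Fn.const _) (Fn.comp hh hs))) ?_ ?_
    · intro hi; exact absurd hi not_lt_zero'
    · intro j ih hij
      rw [hsS]
      have := (hspec (s j)).2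
      rcases le_iff_lt_or_eq.1 ((lt_succ_iff' _ _).1 hij) with h3 | rfl
      · exact lt_trans (ih h3) (lt_of_le_of_lt (hhg _) this)
      · exact this
  obtain ⟨i, j, hij, _, hcij⟩ := php (f := fun n => c (s n)) (Fn.comp hc hs) K
    (fun n _ => hcK _ (h1 n).1)
  exact ⟨s i, (h1 i).1, s j, (h1 j).1, (h1 i).2, h2 i j hij, hcij⟩

end Pool.Agent.Helper7.RM
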