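import Mathlib
import Pool.Agent.Helper7.RM.Flags
import Pool.Agent.Helper7.RM.Sparse

/-! Two congruent elements of an unbounded set whose sum has the same flag. -/

namespace Pool.Agent.Helper7.RM

universe u

variable {N : Type u} [Mdl N]

theorem prs_code_lt {B a b e e' : N} (he : e < B) (h : a < b) : a * B + e < b * B + e' := by
  have h1 : a + 1 ≤ b := (succ_le_iff' _ _).2 h
  have h2 : (a + 1) * B ≤ b * B := mul_le_mul h1 le_rfl zero_le zero_le
  have h3 : a * B + e < a * B + B := add_lt_add_right he _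
  have h4 : (a + 1) * B = a * B + B := by ring
  rw [h4] at h2
  exact lt_of_lt_of_le h3 (le_trans h2 le_self_add)

theorem prs_code_inj {B a b e e' : N} (he : e < B) (he' : e' < B)
    (h : a * B + e = b * B + e') : a = b ∧ e = e' := by
  rcases lt_trichotomy a b with h1 | h1 | h1
  · exact absurd h (prs_code_lt he h1).ne
  · rw [h1] at h
    exact ⟨h1, add_left_cancel h⟩
  · exact absurd h (prs_code_lt he' h1).ne'

theorem prs_code_bd {A B a e : N} (ha : a < A) (he : e < B) : a * B + e < A * B := by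
  have := prs_code_lt (e' := 0) he ha
  rwa [add_zero] at this

theorem pairs {X : Set N} (hX : X ∈ Mdl.sets (N := N)) (hpos : ∀ x ∈ X, 0 < x)
    (hinf : ∀ n, ∃ x ∈ X, n < x) {M : N} (hM : 0 < M) {β μ : N → N} (hβ : Fn β) (hμ : Fn μ)
    (hβc : ∀ x ∈ X, ∀ y ∈ X, cg M x y → β x = β y)
    (hμc : ∀ x ∈ X, ∀ y ∈ X, cg M x y → μ x = μ y)
    (m : N) (hμm : ∀ x ∈ X, 0 < μ x ∧ μ x ≤ m) (hβM : ∀ x ∈ X, β x < M)
    (hβo : ∀ x ∈ X, β x ≤ od x) :
    ∃ x ∈ X, ∃ y ∈ X, x ≠ y ∧ cg M x y ∧
      (Ext (μ x) (β x) (od (x + y)) ↔ Ext (μ x) (β x) (od x)) := by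
  classical
  have h01 : (0 : N) < 2 := by
    have h1 : (0 : N) < 1 := zero_lt_one
    exact lt_trans h1 (by rw [← one_add_one_eq_two]; exact lt_add_one' 1)
  have h12 : (1 : N) < 2 := by rw [← one_add_one_eq_two]; exact lt_add_one' 1
  by_cases hA : ∀ B, ∃ x ∈ X, B < vv x
  · obtain ⟨x, hx, y, hy, -, hxy, hc⟩ := sparse_pair hX (h := vv) (g := fun x => vv x + x + m)
      (c := fun x => md x M * 2 + (if od x = β x then 1 else 0)) (fn_vv Fn.id)
      (Fn.add (Fn.add (fn_vv Fn.id) Fn.id) (Fn.const m))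
      (Fn.add (Fn.mul (fn_md Fn.id (Fn.const M)) (Fn.const 2))
        (Fn.ite' (P := fun x => od x = β x) (Pr.eq (fn_od Fn.id) hβ) (Fn.const 1) (Fn.const 0)))
      (fun x => le_trans le_self_add le_self_add) (K := M * 2)
      (fun x _ => prs_code_bd (md_lt x hM) (by split_ifs; exacts [h12, h01])) hA 0
    obtain ⟨hc1, hc2⟩ := prs_code_inj (by split_ifs; exacts [h12, h01])
      (by split_ifs; exacts [h12, h01]) hc
    have hcg : cg M x y := (cg_iff_md hM).2 hc1
    have hxy' : vv x + x + μ x < vv y :=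
      lt_of_le_of_lt (add_le_add le_rfl (hμm x hx).2) hxy
    have hne : x ≠ y := by
      rintro rfl
      exact absurd hxy (not_lt.2 (le_trans le_self_add le_self_add))
    refine ⟨x, hx, y, hy, hne, hcg, ?_⟩
    by_cases h : od x = β x
    · have h' : od y = β x := by
        rw [if_pos h] at hc2
        by_contra h3
        rw [← hβc x hx y hy hcg, if_neg h3] at hc2
        exact one_ne_zero hc2
      exact iff_of_true (flag_a (hpos x hx) (hpos y hy) (hμm x hx).1 hxy' h h') (Or.inl h)
    · exact flag_b (hpos x hx) (hpos y hy) (hμm x hx).1 hxy'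
        (lt_of_le_of_ne (hβo x hx) (Ne.symm h))
  · push Not at hA
    obtain ⟨B, hB⟩ := hA
    set D : N → N := fun x => if od x = β x then 0 else vv (od x - β x) with hD
    have hDF : Fn D := Fn.ite' (P := fun x => od x = β x) (Pr.eq (fn_od Fn.id) hβ) (Fn.const 0)
      (fn_vv (Fn.tsub (fn_od Fn.id) hβ))
    by_cases hB1 : ∀ R, ∃ x ∈ X, R < D x
    · obtain ⟨x, hx, y, hy, hxt, hxy, hc⟩ := sparse_pair hX (h := D)
        (g := fun x => D x + m + 1)
        (c := fun x => md x M * (B + 1) + (if vv x ≤ B then vv x else 0)) hDF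
        (Fn.add (Fn.add hDF (Fn.const m)) (Fn.const 1))
        (Fn.add (Fn.mul (fn_md Fn.id (Fn.const M)) (Fn.const _))
          (Fn.ite' (P := fun x => vv x ≤ B) (Pr.le (fn_vv Fn.id) (Fn.const _)) (fn_vv Fn.id)
            (Fn.const 0)))
        (fun x => le_trans le_self_add le_self_add) (K := M * (B + 1))
        (fun x hx => prs_code_bd (md_lt x hM) (by
          rw [if_pos (hB x hx)]
          exact (lt_succ_iff' _ _).2 (hB x hx))) hB1 (m + 1)
      rw [if_pos (hB x hx), if_pos (hB y hy)] at hc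
      obtain ⟨hc1, hc2⟩ := prs_code_inj ((lt_succ_iff' _ _).2 (hB x hx))
        ((lt_succ_iff' _ _).2 (hB y hy)) hc
      have hcg : cg M x y := (cg_iff_md hM).2 hc1
      have hne : x ≠ y := by
        rintro rfl
        exact absurd hxy (not_lt.2 (le_trans le_self_add le_self_add))
      have hox : od x ≠ β x := by
        intro h
        rw [hD] at hxt
        dsimp only at hxt
        rw [if_pos h] at hxt
        exact absurd hxt (not_lt.2 zero_le)
      have hoy : od y ≠ β y := by
        intro h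
        rw [hD] at hxy
        dsimp only at hxy
        rw [if_pos h] at hxy
        exact absurd hxy (not_lt.2 zero_le)
      have hDx : D x = vv (od x - β x) := if_neg hox
      have hDy : D y = vv (od y - β x) := by
        rw [hβc x hx y hy hcg]
        exact if_neg hoy
      have hμx := (hμm x hx).2
      refine ⟨x, hx, y, hy, hne, hcg, ?_⟩
      refine flag_c (hpos x hx) (hpos y hy) (hμm x hx).1 hc2
        (lt_of_le_of_ne (hβo x hx) (Ne.symm hox)) ?_ ?_ ?_
      · rw [hβc x hx y hy hcg]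
        exact lt_of_le_of_ne (hβo y hy) (Ne.symm hoy)
      · rw [← hDx]
        exact lt_of_le_of_lt (add_le_add hμx le_rfl) hxt
      · rw [← hDx, ← hDy]
        exact lt_of_le_of_lt (add_le_add (add_le_add le_rfl hμx) le_rfl) hxy
    · push Not at hB1
      obtain ⟨R, hR⟩ := hB1
      have hE : 0 < ex2 (B + R + m + 5) := ex2_pos _
      obtain ⟨x, hx, y, hy, hxt, hxy, hc⟩ := sparse_pair hX (h := fun x => x)
        (g := fun x => x)
        (c := fun x => (md x M * (B + 1) + (if vv x ≤ B then vv x else 0)) *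
          ex2 (B + R + m + 5) + md x (ex2 (B + R + m + 5))) Fn.id Fn.id
        (Fn.add (Fn.mul (Fn.add (Fn.mul (fn_md Fn.id (Fn.const M)) (Fn.const _))
          (Fn.ite' (P := fun x => vv x ≤ B) (Pr.le (fn_vv Fn.id) (Fn.const _)) (fn_vv Fn.id)
            (Fn.const 0))) (Fn.const _)) (fn_md Fn.id (Fn.const _)))
        (fun x => le_rfl) (K := M * (B + 1) * ex2 (B + R + m + 5))
        (fun x hx => prs_code_bd (prs_code_bd (md_lt x hM) (by
          rw [if_pos (hB x hx)]
          exact (lt_succ_iff' _ _).2 (hB x hx))) (md_lt x hE)) hinf (ex2 B * M)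
      rw [if_pos (hB x hx), if_pos (hB y hy)] at hc
      obtain ⟨hc', hc3⟩ := prs_code_inj (md_lt x hE) (md_lt y hE) hc
      obtain ⟨hc1, hc2⟩ := prs_code_inj ((lt_succ_iff' _ _).2 (hB x hx))
        ((lt_succ_iff' _ _).2 (hB y hy)) hc'
      have hcg : cg M x y := (cg_iff_md hM).2 hc1
      have big : ∀ z ∈ X, ex2 B * M < z → od z ≠ β z := by
        intro z hz hzt h
        have h1 : z = ex2 (vv z) * β z := by
          rw [← h]; exact (od_spec (hpos z hz)).1
        have h2 : ex2 (vv z) * β z ≤ ex2 B * M :=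
          mul_le_mul (ex2_le.2 (hB z hz)) (hβM z hz).le zero_le zero_le
        rw [← h1] at h2
        exact absurd hzt (not_lt.2 h2)
      have hox := big x hx hxt
      have hoy := big y hy (lt_trans hxt hxy)
      refine ⟨x, hx, y, hy, hxy.ne, hcg, ?_⟩
      refine flag_d (R := R) (hpos x hx) (hpos y hy) (hμm x hx).1 hc2
        (lt_of_le_of_ne (hβo x hx) (Ne.symm hox)) ?_ ?_ ?_
      · rw [hβc x hx y hy hcg]
        exact lt_of_le_of_ne (hβo y hy) (Ne.symm hoy)
      · have h1 : D x = vv (od x - β x) := if_neg hox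
        rw [← h1]
        exact hR x hx
      · refine cg.of_dvd (ex2_dvd ?_) ((cg_iff_md hE).2 hc3)
        exact add_le_add (add_le_add (add_le_add (hB x hx) le_rfl) (hμm x hx).2) le_rfl

end Pool.Agent.Helper7.RM
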