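import Mathlib
import Pool.Agent.Helper7.RM.Pairs

/-! The level is unbounded on monochromatic sets. -/

namespace Pool.Agent.Helper7.RM

universe u

variable {N : Type u} [Mdl N]

theorem grt_le {P : N → Prop} (hP : Pr P) (b : N) : grt P b ≤ b := by
  by_cases h : ∃ n ≤ b, P n
  · exact (grt_spec hP h).1
  · have h0 : Pr (fun t => (t ≤ b ∧ P t ∧ ∀ s ≤ b, P s → s ≤ t) ∨ (t = 0 ∧ ∀ s ≤ b, ¬ P s)) :=
      Pr.fix (grt_pr (Γ := N) (P := fun _ t => P t) hP.snd) (0, b)
    rcases (mu_spec h0 (grt_ex hP b)).1 with h1 | ⟨h1, _⟩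
    · exact h1.1
    · have h2 : grt P b = 0 := h1
      rw [h2]; exact zero_le

theorem F0 {f : N → N} (hf : Fn f) {H : N → N} (hH : IsHH (tt f) H) {X : Set N}
    (hX : X ∈ Mdl.sets (N := N)) (hinf : ∀ n, ∃ x ∈ X, n < x) (i : N)
    (h1 : ∀ x ∈ X, 0 < x → md (cph x + H x) 2 = i)
    (h2 : ∀ x ∈ X, ∀ y ∈ X, 0 < x → 0 < y → x ≠ y → md (cph (x + y) + H (x + y)) 2 = i)
    (e : N) : ∃ x ∈ X, 0 < x ∧ e < th x := by
  by_contra hcon
  push Not at hcon
  obtain ⟨J0, hJ0⟩ := tt_bdd hf e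
  set J := J0 + e + 1 with hJ
  have heJ : e < J := (lt_succ_iff' _ _).2 le_add_self
  have hJ0J : J0 ≤ J := le_trans le_self_add le_self_add
  have hthJ : ∀ x ∈ X, 0 < x → th x < J := fun x hx hx0 => lt_of_le_of_lt (hcon x hx hx0) heJ
  have hev : ∀ x ∈ X, 0 < x → ∀ t, tt f (th x) t → t ≤ J := fun x hx hx0 t ht =>
    le_trans (hJ0 t (tt_mono (hcon x hx hx0) ht)).le hJ0J
  have hPT : Pr (fun p : N × N => tt f (th p.1) p.2) := pr_tt hf (fn_th Fn.fst') Fn.snd'
  have hPT' : ∀ k : N, Pr (fun t : N => tt f k t) := fun k =>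
    pr_tt hf (Fn.const k) Fn.id
  let L : N → N := fun x => grt (fun t => tt f (th x) t) J
  have hL : Fn L := Fn.grt (P := fun x t => tt f (th x) t) hPT (Fn.const J)
  have hLJ : ∀ x, L x ≤ J := fun x => grt_le (hPT' _) J
  have hLc : ∀ x y, th x = th y → L x = L y := by
    intro x y hxy
    show grt (fun t => tt f (th x) t) J = grt (fun t => tt f (th y) t) J
    rw [hxy]
  have hX' : {x | x ∈ X ∧ 0 < x} ∈ Mdl.sets (N := N) :=
    Pr.mem_sets (P := fun x => x ∈ X ∧ 0 < x) (Pr.and (Pr.mem hX Fn.id) (Pr.lt (Fn.const 0) Fn.id))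
  have hthc : ∀ x ∈ X, 0 < x → ∀ y, 0 < y → cg (MM J) x y → th y = th x :=
    fun x hx hx0 y hy0 hc => th_congr hx0 hy0 (hthJ x hx hx0) hc
  obtain ⟨x, ⟨hx, hx0⟩, y, ⟨hy, hy0⟩, hxy, hc, hflag⟩ :=
    pairs (X := {x | x ∈ X ∧ 0 < x}) hX' (fun x hx => hx.2) (fun n => by
      obtain ⟨x, hx, hnx⟩ := hinf n
      exact ⟨x, ⟨hx, lt_of_le_of_lt zero_le hnx⟩, hnx⟩) (M := MM J) (MM_pos J)
      (β := fun x => AA (L x) x) (μ := fun x => 3 * L x + 10) (fn_AA hL Fn.id)
      (Fn.add (Fn.mul (Fn.const 3) hL) (Fn.const 10))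
      (fun x hx y hy hc => by
        have e1 := hLc y x (hthc x hx.1 hx.2 y hy.2 hc)
        show AA (L x) x = AA (L y) y
        rw [e1]
        exact AA_congr_le (hLJ x) hc)
      (fun x hx y hy hc => by
        have e1 := hLc y x (hthc x hx.1 hx.2 y hy.2 hc)
        show 3 * L x + 10 = 3 * L y + 10
        rw [e1])
      (3 * J + 10)
      (fun x hx => ⟨by positivity, by
        have := mul_le_mul_right (hLJ x) (3 : N)
        exact add_le_add_left this 10⟩)
      (fun x hx => lt_of_lt_of_le (AA_lt (L x) x) (by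
        rcases le_iff_lt_or_eq.1 (hLJ x) with h3 | h3
        · exact (MM_lt h3).le
        · rw [h3]))
      (fun x hx => AA_le_od (L x) hx.2)
  have hn0 : 0 < x + y := lt_of_lt_of_le hx0 le_self_add
  have h2x : 0 < 2 * x := by positivity
  have hcn : cg (MM J) (2 * x) (x + y) := by
    rw [two_mul]
    exact cg.add (cg.refl _ _) hc
  have hth2 : th (2 * x) = th x := by
    have := th_pow_mul (1 : N) hx0
    rwa [ex2_one] at this
  have hthn : th (x + y) = th x := by
    rw [← hth2]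
    exact th_congr h2x hn0 (by rw [hth2]; exact hthJ x hx hx0) hcn
  have hcph : cph (x + y) = cph (2 * x) :=
    cph_congr h2x hn0 (by rw [hth2]; exact hthJ x hx hx0) hcn
  have hflip := cph_two_mul hx0
  rw [← hcph] at hflip
  have hHn : H (x + y) = H x := by
    by_cases hE : ∃ t, tt f (th x) t
    · obtain ⟨t, ht⟩ := hE
      have hg := grt_spec (hPT' (th x)) (b := J) ⟨t, hev x hx hx0 t ht, ht⟩
      have hg1 : tt f (th x) (L x) := hg.2.1
      have hg2 : ∀ t', tt f (th x) t' → t' ≤ L x := fun t' ht' => hg.2.2 t' (hev x hx hx0 t' ht') ht'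
      have e1 := hH.last hx0 hg1 hg2
      have e2 := hH.last hn0 (t := L x) (by rw [hthn]; exact hg1) (by rw [hthn]; exact hg2)
      have e3 : AA (L x) (x + y) = AA (L x) x := by
        rw [← AA_congr_le (hLJ x) hcn, AA_two_mul]
      rw [e3] at e2
      rw [e1, e2]
      have hflag' : (od (x + y) = AA (L x) x ∨ cpy (3 * L x + 10) (AA (L x) x) (od (x + y))) ↔
        (od x = AA (L x) x ∨ cpy (3 * L x + 10) (AA (L x) x) (od x)) := hflag
      congr 1
      by_cases hq : (od x = AA (L x) x ∨ cpy (3 * L x + 10) (AA (L x) x) (od x))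
      · rw [if_pos hq, if_pos (hflag'.2 hq)]
      · rw [if_neg hq, if_neg (fun hq' => hq (hflag'.1 hq'))]
    · push Not at hE
      rw [hH.none x hx0 (fun t ht => absurd ht (hE t)),
        hH.none (x + y) hn0 (fun t ht => absurd (by rw [hthn] at ht; exact ht) (hE t))]
  have c1 := h1 x hx hx0
  have c2 := h2 x hx y hy hx0 hy0 hxy
  rw [hHn] at c2
  have d1 := dv_add_md (cph x + H x) 2
  have d2 := dv_add_md (cph (x + y) + H x) 2
  rw [c1] at d1
  rw [c2] at d2
  have h3 : md (2 * H x + (cph (x + y) + cph x)) 2 = 1 := by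
    rw [md_mul_add]; exact hflip
  have h4 : 2 * H x + (cph (x + y) + cph x) =
      2 * (dv (cph x + H x) 2 + dv (cph (x + y) + H x) 2 + i) := by
    calc 2 * H x + (cph (x + y) + cph x) = (cph x + H x) + (cph (x + y) + H x) := by ring
      _ = (2 * dv (cph x + H x) 2 + i) + (2 * dv (cph (x + y) + H x) 2 + i) := by rw [d1, d2]
      _ = _ := by ring
  rw [h4] at h3
  have h5 : md (2 * (dv (cph x + H x) 2 + dv (cph (x + y) + H x) 2 + i)) 2 = 0 :=
    even_iff.2 ⟨_, rfl⟩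
  rw [h5] at h3
  exact absurd h3 zero_ne_one

end Pool.Agent.Helper7.RM
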