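import Mathlib
import Pool.Agent.Helper7.RM.FZero
import Pool.Agent.Helper7.RM.FOne

/-! Hindman's theorem for pairs implies comprehension for `Σ⁰₁` properties. -/

namespace Pool.Agent.Helper7.RM

universe u

variable {N : Type u} [Mdl N]

theorem range_mem (hht : HT22 N (Mdl.sets (N := N))) {f : N → N} (hf : Fn f) :
    {e | ∃ s, f s = e} ∈ Mdl.sets (N := N) := by
  obtain ⟨H, hH⟩ := exists_HH (T := tt f) (pr_tt hf Fn.fst' Fn.snd')
  have hC : {n : N | md (cph n + H n) 2 = 1} ∈ Mdl.sets (N := N) :=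
    Pr.mem_sets (Pr.eq (fn_md (Fn.add (fn_cph Fn.id) hH.fn) (Fn.const 2)) (Fn.const 1))
  obtain ⟨X, hX, hinf, hmono⟩ := hht _ hC
  obtain ⟨i, hi⟩ : ∃ i : N, ∀ y ∈ FS2 X, md (cph y + H y) 2 = i := by
    rcases hmono with h | h
    · exact ⟨1, h⟩
    · exact ⟨0, fun y hy => (md_two _).resolve_right (h y hy)⟩
  have h1 : ∀ x ∈ X, 0 < x → md (cph x + H x) 2 = i := fun x hx _ => hi x (Or.inl hx)
  have h2 : ∀ x ∈ X, ∀ y ∈ X, 0 < x → 0 < y → x ≠ y →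
      md (cph (x + y) + H (x + y)) 2 = i :=
    fun x hx y hy _ _ hxy => hi _ (Or.inr ⟨x, hx, y, hy, hxy, rfl⟩)
  have h3 : ∀ e, ∃ x ∈ X, 0 < x ∧ e < th x := F0 hf hH hX hinf i h1 h2
  have hno : ∀ e, (¬ ∃ s, f s = e) ↔ ∃ x, ∃ y, ∃ z, (x ∈ X ∧ y ∈ X ∧ z ∈ X ∧ 0 < x ∧ 0 < y ∧
      0 < z ∧ e < th x ∧ th x < th y ∧ th y < th z) ∧ ∀ s ≤ x + y + z, f s ≠ e := by
    intro e
    constructor
    · intro h
      obtain ⟨x, hx, hx0, hex⟩ := h3 e
      obtain ⟨y, hy, hy0, hxy⟩ := h3 (th x)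
      obtain ⟨z, hz, hz0, hyz⟩ := h3 (th y)
      exact ⟨x, y, z, ⟨hx, hy, hz, hx0, hy0, hz0, hex, hxy, hyz⟩, fun s _ hs => h ⟨s, hs⟩⟩
    · rintro ⟨x, y, z, ⟨hx, hy, hz, hx0, hy0, hz0, hex, hxy, hyz⟩, h⟩ ⟨s, hs⟩
      obtain ⟨s', hs', he⟩ := F1 hf hH i h1 h2 h3 hx hy hz hx0 hy0 hz0 hex hxy hyz s hs
      exact h s' hs' he
  refine Pr.mem_sets (P := fun e => ∃ s, f s = e) ⟨?_, ?_⟩
  · refine Sig.ex (P := fun e s => f s = e) ?_
    exact (Pr.eq (Fn.comp hf Fn.snd') Fn.fst').1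
  · refine Sig.of_iff (P := fun e => ∃ x, ∃ y, ∃ z, (x ∈ X ∧ y ∈ X ∧ z ∈ X ∧ 0 < x ∧ 0 < y ∧
      0 < z ∧ e < th x ∧ th x < th y ∧ th y < th z) ∧ ∀ s ≤ x + y + z, f s ≠ e) ?_ hno
    refine Sig.ex (P := fun e x => ∃ y, ∃ z, (x ∈ X ∧ y ∈ X ∧ z ∈ X ∧ 0 < x ∧ 0 < y ∧
      0 < z ∧ e < th x ∧ th x < th y ∧ th y < th z) ∧ ∀ s ≤ x + y + z, f s ≠ e) ?_
    refine Sig.ex (P := fun (p : N × N) y => ∃ z, (p.2 ∈ X ∧ y ∈ X ∧ z ∈ X ∧ 0 < p.2 ∧ 0 < y ∧
      0 < z ∧ p.1 < th p.2 ∧ th p.2 < th y ∧ th y < th z) ∧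
      ∀ s ≤ p.2 + y + z, f s ≠ p.1) ?_
    refine Sig.ex (P := fun (p : (N × N) × N) z => (p.1.2 ∈ X ∧ p.2 ∈ X ∧ z ∈ X ∧ 0 < p.1.2 ∧
      0 < p.2 ∧ 0 < z ∧ p.1.1 < th p.1.2 ∧ th p.1.2 < th p.2 ∧ th p.2 < th z) ∧
      ∀ s ≤ p.1.2 + p.2 + z, f s ≠ p.1.1) ?_
    have fe : Fn (fun p : ((N × N) × N) × N => p.1.1.1) := Fn.fst (Fn.fst Fn.fst')
    have fx : Fn (fun p : ((N × N) × N) × N => p.1.1.2) := Fn.fst (Fn.fst Fn.snd')
    have fy : Fn (fun p : ((N × N) × N) × N => p.1.2) := Fn.fst Fn.snd'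
    have fz : Fn (fun p : ((N × N) × N) × N => p.2) := Fn.snd'
    refine (Pr.and (Pr.and (Pr.mem hX fx) (Pr.and (Pr.mem hX fy) (Pr.and (Pr.mem hX fz)
      (Pr.and (Pr.lt (Fn.const 0) fx) (Pr.and (Pr.lt (Fn.const 0) fy)
      (Pr.and (Pr.lt (Fn.const 0) fz) (Pr.and (Pr.lt fe (fn_th fx))
      (Pr.and (Pr.lt (fn_th fx) (fn_th fy)) (Pr.lt (fn_th fy) (fn_th fz)))))))))) ?_).1
    refine Pr.ball_le (a := fun p : ((N × N) × N) × N => p.1.1.2 + p.1.2 + p.2)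
      (Fn.add (Fn.add fx fy) fz) (P := fun p s => f s ≠ p.1.1.1) ?_
    exact Pr.ne (Fn.comp hf Fn.snd') (Fn.fst fe)

theorem sq_pair_inj {n y n' y' : N} (h : (n + y) * (n + y) + n = (n' + y') * (n' + y') + n') :
    n = n' ∧ y = y' := by
  have key : ∀ a b a' b' : N, (a + b) * (a + b) + a = (a' + b') * (a' + b') + a' →
      ¬ a + b < a' + b' := by
    intro a b a' b' h1 h2
    have h3 : a + b + 1 ≤ a' + b' := (succ_le_iff' _ _).2 h2
    have h4 : (a + b + 1) * (a + b + 1) ≤ (a' + b') * (a' + b') :=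
      mul_le_mul h3 h3 zero_le zero_le
    have h5 : (a' + b') * (a' + b') ≤ (a + b) * (a + b) + a := by
      rw [h1]; exact le_self_add
    have h6 : (a + b) * (a + b) + a < (a + b + 1) * (a + b + 1) := by
      have h7 : (a + b + 1) * (a + b + 1) = (a + b) * (a + b) + a + (a + 2 * b) + 1 := by ring
      rw [h7]
      exact (lt_succ_iff' _ _).2 le_self_add
    exact absurd (lt_of_lt_of_le h6 (le_trans h4 h5)) (lt_irrefl _)
  have h1 : n + y = n' + y' :=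
    le_antisymm (not_lt.1 (key n' y' n y h.symm)) (not_lt.1 (key n y n' y' h))
  rw [h1] at h
  have h2 : n = n' := add_left_cancel h
  subst h2
  exact ⟨rfl, add_left_cancel h1⟩

open Classical in
theorem sigma_mem (hht : HT22 N (Mdl.sets (N := N))) {P : N → Prop} (hP : Sig P) :
    {n | P n} ∈ Mdl.sets (N := N) := by
  obtain ⟨Q, hQ, hPQ⟩ := hP
  have hQ' : Pr Q := Pr.of_D0 hQ
  -- the relation between codes and numbers
  let R : N → N → Prop := fun w n => ∃ y ≤ w, w = (n + y) * (n + y) + n ∧ Q (n, y)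
  have hR : Pr (fun p : N × N => R p.1 p.2) := by
    refine Pr.bex_le Fn.fst' (P := fun (p : N × N) y => p.1 = (p.2 + y) * (p.2 + y) + p.2 ∧
      Q (p.2, y)) ?_
    have fw : Fn (fun p : (N × N) × N => p.1.1) := Fn.fst Fn.fst'
    have fn : Fn (fun p : (N × N) × N => p.1.2) := Fn.fst Fn.snd'
    have fy : Fn (fun p : (N × N) × N => p.2) := Fn.snd'
    exact Pr.and (Pr.eq fw (Fn.add (Fn.mul (Fn.add fn fy) (Fn.add fn fy)) fn))
      (Pr.comp (P := Q) hQ' (Fn.pair fn fy))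
  let S : N → N → Prop := fun w n => R w n ∨ ((∀ m ≤ w, ¬ R w m) ∧ n = 0)
  have hR2 : Pr (fun p : N => ∀ m ≤ p, ¬ R p m) :=
    Pr.ball_le Fn.id (P := fun w m => ¬ R w m) hR.not
  have hS : Pr (fun p : N × N => S p.1 p.2) :=
    Pr.or hR (Pr.and (Pr.fst hR2) (Pr.eq Fn.snd' (Fn.const 0)))
  have hle : ∀ w n, R w n → n ≤ w := by
    rintro w n ⟨y, _, hw, _⟩
    rw [hw]; exact le_add_self
  have hSex : ∀ w, ∃ n, S w n := by
    intro w
    by_cases h : ∃ m ≤ w, R w m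
    · obtain ⟨m, _, hm⟩ := h
      exact ⟨m, Or.inl hm⟩
    · push Not at h
      exact ⟨0, Or.inr ⟨h, rfl⟩⟩
  let f : N → N := fun w => if ∀ m ≤ w, ¬ R w m then 0 else mu (S w) + 1
  have hf : Fn f := Fn.ite hR2 (Fn.const 0) (Fn.succ (Fn.mu hS hSex))
  have hrange := range_mem hht hf
  have hiff : ∀ n, P n ↔ n + 1 ∈ {e | ∃ s, f s = e} := by
    intro n
    rw [hPQ]
    constructor
    · rintro ⟨y, hy⟩
      have hw : R ((n + y) * (n + y) + n) n := by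
        refine ⟨y, ?_, rfl, hy⟩
        have h0 : y ≤ n + y := le_add_self
        rcases eq_or_lt_of_le (zero_le (a := n + y)) with h1 | h1
        · rw [← h1] at h0
          exact le_trans h0 zero_le
        · have h2 : 1 ≤ n + y := by
            have := (succ_le_iff' 0 (n + y)).2 h1
            rwa [zero_add] at this
          calc y ≤ n + y := h0
            _ = (n + y) * 1 := (mul_one _).symm
            _ ≤ (n + y) * (n + y) := mul_le_mul_right h2 _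
            _ ≤ (n + y) * (n + y) + n := le_self_add
      refine ⟨(n + y) * (n + y) + n, ?_⟩
      have hneg : ¬ ∀ m ≤ (n + y) * (n + y) + n, ¬ R ((n + y) * (n + y) + n) m :=
        fun h => h n (hle _ _ hw) hw
      show (if ∀ m ≤ (n + y) * (n + y) + n, ¬ R ((n + y) * (n + y) + n) m then 0 else
        mu (S ((n + y) * (n + y) + n)) + 1) = n + 1
      rw [if_neg hneg]
      have huniq : ∀ m, S ((n + y) * (n + y) + n) m → m = n := by
        rintro m (⟨y', _, h, _⟩ | ⟨h, _⟩)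
        · exact (sq_pair_inj h).1.symm
        · exact absurd h hneg
      have hSw : Pr (S ((n + y) * (n + y) + n)) := Pr.fix hS ((n + y) * (n + y) + n)
      rw [huniq _ (mu_spec hSw ⟨n, Or.inl hw⟩).1]
    · rintro ⟨w, hw⟩
      have hw' : (if ∀ m ≤ w, ¬ R w m then 0 else mu (S w) + 1) = n + 1 := hw
      by_cases h : ∀ m ≤ w, ¬ R w m
      · rw [if_pos h] at hw'
        exact absurd hw'.symm ((Mdl.rca (N := N)).succ_ne_zero n)
      · rw [if_neg h] at hw'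
        have h1 : mu (S w) = n := add_right_cancel hw'
        have hSw : Pr (S w) := Pr.fix hS w
        have h2 := (mu_spec hSw (hSex w)).1
        rw [h1] at h2
        rcases h2 with h3 | ⟨h3, _⟩
        · obtain ⟨y, _, _, hy⟩ := h3
          exact ⟨y, hy⟩
        · exact absurd h3 h
  have h1 : Pr P := (Pr.mem hrange (Fn.succ Fn.id)).of_iff hiff
  exact h1.mem_sets

end Pool.Agent.Helper7.RM
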