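import Mathlib
import Pool.Agent.Helper7.RM.Model
import Pool.Agent.Helper7.RM.Syn

/-! The number part of a model of `RCA₀` is an ordered semiring. -/

namespace Pool.Agent.Helper7.RM

universe u

namespace Raw

variable {N : Type u} [Zero N] [One N] [Add N] [Mul N] [LT N] {S : Set (Set N)}

/-- valuation with three parameters -/
def v3 (a b c : N) : ℕ → N := fun i => if i = 0 then a else if i = 1 then b else c

theorem ind (h : RCA0 N S) (θ : Fm) (hθ : θ.Bounded) (v : ℕ → N) (V : ℕ → Set N)
    (hV : ∀ i, V i ∈ S) (h0 : θ.Sat (cons 0 v) V)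
    (hs : ∀ n, θ.Sat (cons n v) V → θ.Sat (cons (n + 1) v) V) (n : N) :
    θ.Sat (cons n v) V := by
  have key : ∀ n, (Fm.ex (θ.ren Nat.succ id)).Sat (cons n v) V ↔ θ.Sat (cons n v) V := by
    intro n
    simp only [Fm.Sat, Fm.sat_ren, Function.comp_id]
    constructor
    · rintro ⟨a, ha⟩; exact ha
    · intro ha; exact ⟨0, ha⟩
  rw [← key]
  refine h.sigma_induction (θ.ren Nat.succ id) (Fm.bounded_ren _ _ _ hθ) v V hV ?_ ?_ n
  · exact (key 0).2 h0
  · intro n hn; exact (key _).2 (hs n ((key n).1 hn))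

/-- induction for equalities between terms with three parameters -/
theorem ind_eq (h : RCA0 N S) (s t : Tm) (a b c : N)
    (h0 : s.val (cons 0 (v3 a b c)) = t.val (cons 0 (v3 a b c)))
    (hs : ∀ n, s.val (cons n (v3 a b c)) = t.val (cons n (v3 a b c)) →
      s.val (cons (n + 1) (v3 a b c)) = t.val (cons (n + 1) (v3 a b c))) (n : N) :
    s.val (cons n (v3 a b c)) = t.val (cons n (v3 a b c)) := by
  obtain ⟨X, hX⟩ := h.sets_nonempty
  exact ind h (.eq s t) trivial (v3 a b c) (fun _ => X) (fun _ => hX) h0 hs n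

/-- variable 0 -/
abbrev x0 : Tm := .var 0

/-- variable 1 -/
abbrev x1 : Tm := .var 1

/-- variable 2 -/
abbrev x2 : Tm := .var 2

theorem add_assoc (h : RCA0 N S) (a b n : N) : (a + b) + n = a + (b + n) := by
  refine ind_eq h (.add (.add x1 x2) x0) (.add x1 (.add x2 x0)) a b a ?_ ?_ n
  · show (a + b) + 0 = a + (b + 0)
    rw [h.add_zero, h.add_zero]
  · intro n (ih : (a + b) + n = a + (b + n))
    show (a + b) + (n + 1) = a + (b + (n + 1))
    rw [h.add_succ, ih, h.add_succ, h.add_succ]

theorem zero_add (h : RCA0 N S) (n : N) : 0 + n = n := by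
  refine ind_eq h (.add .zero x0) x0 n n n ?_ ?_ n
  · exact h.add_zero 0
  · intro n (ih : 0 + n = n)
    show 0 + (n + 1) = n + 1
    rw [h.add_succ, ih]

theorem one_add (h : RCA0 N S) (n : N) : 1 + n = n + 1 := by
  refine ind_eq h (.add .one x0) (.add x0 .one) n n n ?_ ?_ n
  · show (1 : N) + 0 = 0 + 1
    rw [h.add_zero, zero_add h]
  · intro n (ih : 1 + n = n + 1)
    show 1 + (n + 1) = (n + 1) + 1
    rw [h.add_succ, ih]

theorem add_comm (h : RCA0 N S) (a n : N) : a + n = n + a := by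
  refine ind_eq h (.add x1 x0) (.add x0 x1) a a a ?_ ?_ n
  · show a + 0 = 0 + a
    rw [h.add_zero, zero_add h]
  · intro n (ih : a + n = n + a)
    show a + (n + 1) = (n + 1) + a
    rw [h.add_succ, ih, add_assoc h, add_assoc h, one_add h]

theorem add_right_cancel (h : RCA0 N S) (a b n : N) : a + n = b + n → a = b := by
  obtain ⟨X, hX⟩ := h.sets_nonempty
  have := ind h (.neg (.and (.eq (.add x1 x0) (.add x2 x0)) (.neg (.eq x1 x2)))) ⟨trivial, trivial⟩
    (v3 a b a) (fun _ => X) (fun _ => hX) ?_ ?_ n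
  · intro h1
    by_contra h2
    exact this ⟨h1, h2⟩
  · show ¬ (a + 0 = b + 0 ∧ ¬ a = b)
    rw [h.add_zero, h.add_zero]
    tauto
  · intro n (ih : ¬ (a + n = b + n ∧ ¬ a = b))
    show ¬ (a + (n + 1) = b + (n + 1) ∧ ¬ a = b)
    rw [h.add_succ, h.add_succ]
    rintro ⟨h1, h2⟩
    exact ih ⟨h.succ_inj _ _ h1, h2⟩

theorem mul_add (h : RCA0 N S) (a b n : N) : a * (b + n) = a * b + a * n := by
  refine ind_eq h (.mul x1 (.add x2 x0)) (.add (.mul x1 x2) (.mul x1 x0)) a b a ?_ ?_ n
  · show a * (b + 0) = a * b + a * 0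
    rw [h.add_zero, h.mul_zero, h.add_zero]
  · intro n (ih : a * (b + n) = a * b + a * n)
    show a * (b + (n + 1)) = a * b + a * (n + 1)
    rw [h.add_succ, h.mul_succ, ih, h.mul_succ, add_assoc h]

theorem mul_assoc (h : RCA0 N S) (a b n : N) : (a * b) * n = a * (b * n) := by
  refine ind_eq h (.mul (.mul x1 x2) x0) (.mul x1 (.mul x2 x0)) a b a ?_ ?_ n
  · show (a * b) * 0 = a * (b * 0)
    rw [h.mul_zero, h.mul_zero, h.mul_zero]
  · intro n (ih : (a * b) * n = a * (b * n))
    show (a * b) * (n + 1) = a * (b * (n + 1))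
    rw [h.mul_succ, ih, h.mul_succ, mul_add h]

theorem zero_mul (h : RCA0 N S) (n : N) : 0 * n = 0 := by
  refine ind_eq h (.mul .zero x0) .zero n n n ?_ ?_ n
  · exact h.mul_zero 0
  · intro n (ih : 0 * n = 0)
    show 0 * (n + 1) = 0
    rw [h.mul_succ, ih, h.add_zero]

theorem mul_one (h : RCA0 N S) (n : N) : n * 1 = n := by
  have := h.mul_succ n 0
  rw [zero_add h, h.mul_zero, zero_add h] at this
  exact this

theorem one_mul (h : RCA0 N S) (n : N) : 1 * n = n := by
  refine ind_eq h (.mul .one x0) x0 n n n ?_ ?_ n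
  · exact h.mul_zero 1
  · intro n (ih : 1 * n = n)
    show 1 * (n + 1) = n + 1
    rw [h.mul_succ, ih]

theorem add_mul (h : RCA0 N S) (a b n : N) : (a + b) * n = a * n + b * n := by
  refine ind_eq h (.mul (.add x1 x2) x0) (.add (.mul x1 x0) (.mul x2 x0)) a b a ?_ ?_ n
  · show (a + b) * 0 = a * 0 + b * 0
    rw [h.mul_zero, h.mul_zero, h.mul_zero, h.add_zero]
  · intro n (ih : (a + b) * n = a * n + b * n)
    show (a + b) * (n + 1) = a * (n + 1) + b * (n + 1)
    rw [h.mul_succ, ih, h.mul_succ, h.mul_succ, add_assoc h, add_assoc h, ← add_assoc h (b * n),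
      ← add_assoc h a, add_comm h (b * n) a]

theorem mul_comm (h : RCA0 N S) (a n : N) : a * n = n * a := by
  refine ind_eq h (.mul x1 x0) (.mul x0 x1) a a a ?_ ?_ n
  · show a * 0 = 0 * a
    rw [h.mul_zero, zero_mul h]
  · intro n (ih : a * n = n * a)
    show a * (n + 1) = (n + 1) * a
    rw [h.mul_succ, ih, add_mul h, one_mul h]

theorem zero_or_succ (h : RCA0 N S) (n : N) : n = 0 ∨ ∃ k, n = k + 1 := by
  obtain ⟨X, hX⟩ := h.sets_nonempty
  have := h.sigma_induction (.neg (.and (.neg (.eq x1 .zero)) (.neg (.eq x1 (.add x0 .one)))))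
    ⟨trivial, trivial⟩ (v3 n n n) (fun _ => X) (fun _ => hX) ?_ ?_ n
  · obtain ⟨k, hk⟩ := this
    have hk' : ¬ (¬ n = 0 ∧ ¬ n = k + 1) := hk
    by_cases h0 : n = 0
    · exact Or.inl h0
    · refine Or.inr ⟨k, ?_⟩
      by_contra h1
      exact hk' ⟨h0, h1⟩
  · refine ⟨0, ?_⟩
    show ¬ (¬ (0 : N) = 0 ∧ ¬ (0 : N) = 0 + 1)
    tauto
  · intro n _
    refine ⟨n, ?_⟩
    show ¬ (¬ n + 1 = 0 ∧ ¬ n + 1 = n + 1)
    tauto

theorem lt_iff (h : RCA0 N S) (m n : N) : m < n ↔ ∃ k, m + (k + 1) = n := by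
  obtain ⟨X, hX⟩ := h.sets_nonempty
  constructor
  · have := h.sigma_induction (.neg (.and (.lt x2 x1) (.neg (.eq (.add x2 (.add x0 .one)) x1))))
      ⟨trivial, trivial⟩ (v3 m m m) (fun _ => X) (fun _ => hX) ?_ ?_ n
    · obtain ⟨k, hk⟩ := this
      have hk' : ¬ (m < n ∧ ¬ m + (k + 1) = n) := hk
      intro hmn
      refine ⟨k, ?_⟩
      by_contra h1
      exact hk' ⟨hmn, h1⟩
    · refine ⟨0, ?_⟩
      show ¬ (m < 0 ∧ _)
      exact fun h1 => h.not_lt_zero m h1.1
    · rintro n ⟨k, hk⟩
      have hk' : ¬ (m < n ∧ ¬ m + (k + 1) = n) := hk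
      by_cases h1 : m < n
      · refine ⟨k + 1, ?_⟩
        show ¬ (m < n + 1 ∧ ¬ m + ((k + 1) + 1) = n + 1)
        have : m + (k + 1) = n := by
          by_contra h2
          exact hk' ⟨h1, h2⟩
        rw [h.add_succ, this]
        tauto
      · by_cases h2 : m = n
        · refine ⟨0, ?_⟩
          show ¬ (m < n + 1 ∧ ¬ m + (0 + 1) = n + 1)
          rw [zero_add h, h2]
          tauto
        · refine ⟨0, ?_⟩
          show ¬ (m < n + 1 ∧ ¬ m + (0 + 1) = n + 1)
          rw [h.lt_succ]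
          tauto
  · rintro ⟨k, rfl⟩
    refine ind h (.lt x1 (.add x1 (.add x0 .one))) trivial (v3 m m m) (fun _ => X)
      (fun _ => hX) ?_ ?_ k
    · show m < m + (0 + 1)
      rw [zero_add h, h.lt_succ]
      exact Or.inr rfl
    · intro k (ih : m < m + (k + 1))
      show m < m + ((k + 1) + 1)
      rw [h.add_succ, h.lt_succ]
      exact Or.inl ih

theorem lt_irrefl (h : RCA0 N S) (m : N) : ¬ m < m := by
  rw [lt_iff h]
  rintro ⟨k, hk⟩
  have h1 : (k + 1) + m = 0 + m := by rw [add_comm h (k + 1), hk, zero_add h]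
  exact h.succ_ne_zero k (add_right_cancel h _ _ _ h1)

theorem lt_trans (h : RCA0 N S) {a b c : N} (hab : a < b) (hbc : b < c) : a < c := by
  rw [lt_iff h] at hab hbc ⊢
  obtain ⟨k, rfl⟩ := hab
  obtain ⟨l, rfl⟩ := hbc
  refine ⟨(k + 1) + l, ?_⟩
  rw [add_assoc h a, add_assoc h (k + 1)]

theorem zero_lt_or (h : RCA0 N S) (n : N) : 0 < n ∨ 0 = n := by
  rcases zero_or_succ h n with rfl | ⟨k, rfl⟩
  · exact Or.inr rfl
  · left
    rw [lt_iff h]
    exact ⟨k, zero_add h _⟩

theorem trichotomy (h : RCA0 N S) (m n : N) : m < n ∨ m = n ∨ n < m := by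
  obtain ⟨X, hX⟩ := h.sets_nonempty
  have := ind h (.neg (.and (.neg (.lt x0 x1)) (.and (.neg (.eq x0 x1)) (.neg (.lt x1 x0)))))
    ⟨trivial, trivial, trivial⟩ (v3 n n n) (fun _ => X) (fun _ => hX) ?_ ?_ m
  · have h' : ¬ (¬ m < n ∧ ¬ m = n ∧ ¬ n < m) := this
    tauto
  · show ¬ (¬ 0 < n ∧ ¬ 0 = n ∧ ¬ n < 0)
    have := zero_lt_or h n
    tauto
  · intro m (ih : ¬ (¬ m < n ∧ ¬ m = n ∧ ¬ n < m))
    show ¬ (¬ m + 1 < n ∧ ¬ m + 1 = n ∧ ¬ n < m + 1)
    have ih' : m < n ∨ m = n ∨ n < m := by tauto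
    rcases ih' with h1 | h1 | h1
    · rw [lt_iff h] at h1
      obtain ⟨k, hk⟩ := h1
      rcases zero_or_succ h k with rfl | ⟨j, rfl⟩
      · rw [zero_add h] at hk
        tauto
      · have : m + 1 < n := by
          rw [lt_iff h]
          refine ⟨j, ?_⟩
          rw [add_assoc h, one_add h]
          exact hk
        tauto
    · have : n < m + 1 := by rw [h.lt_succ]; exact Or.inr h1.symm
      tauto
    · have : n < m + 1 := by rw [h.lt_succ]; exact Or.inl h1
      tauto

theorem add_lt_add_left (h : RCA0 N S) {a b : N} (hab : a < b) (c : N) : c + a < c + b := by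
  rw [lt_iff h] at hab ⊢
  obtain ⟨k, rfl⟩ := hab
  exact ⟨k, add_assoc h _ _ _⟩

theorem mul_lt_mul_left (h : RCA0 N S) {a b c : N} (hab : a < b) (hc : 0 < c) :
    c * a < c * b := by
  rw [lt_iff h] at hab hc ⊢
  obtain ⟨k, rfl⟩ := hab
  obtain ⟨l, rfl⟩ := hc
  rw [zero_add h, mul_add h]
  refine ⟨(l + 1) * k + l, ?_⟩
  rw [mul_add h, mul_one h, add_assoc h ((l + 1) * k)]

section order

variable (h : RCA0 N S)

open Classical in
/-- the linear order -/
@[reducible] noncomputable def order (h : RCA0 N S) : LinearOrder N where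
  le a b := a < b ∨ a = b
  lt a b := a < b
  le_refl a := Or.inr rfl
  le_trans a b c hab hbc := by
    rcases hab with hab | rfl
    · rcases hbc with hbc | rfl
      · exact Or.inl (lt_trans h hab hbc)
      · exact Or.inl hab
    · exact hbc
  le_antisymm a b hab hba := by
    rcases hab with hab | rfl
    · rcases hba with hba | rfl
      · exact absurd (lt_trans h hab hba) (lt_irrefl h a)
      · rfl
    · rfl
  le_total a b := by
    rcases trichotomy h a b with h1 | h1 | h1
    · exact Or.inl (Or.inl h1)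
    · exact Or.inl (Or.inr h1)
    · exact Or.inr (Or.inl h1)
  lt_iff_le_not_ge a b := by
    constructor
    · intro hab
      refine ⟨Or.inl hab, ?_⟩
      rintro (hba | rfl)
      · exact lt_irrefl h a (lt_trans h hab hba)
      · exact lt_irrefl h _ hab
    · rintro ⟨hab | rfl, h2⟩
      · exact hab
      · exact absurd (Or.inr rfl) h2
  toDecidableLE := fun _ _ => Classical.propDecidable _

/-- the semiring -/
@[reducible] def semiring (h : RCA0 N S) : CommSemiring N where
  zero := 0
  one := 1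
  add := (· + ·)
  mul := (· * ·)
  add_assoc := add_assoc h
  zero_add := zero_add h
  add_zero := h.add_zero
  add_comm := add_comm h
  nsmul := nsmulRec
  left_distrib := mul_add h
  right_distrib := add_mul h
  zero_mul := zero_mul h
  mul_zero := h.mul_zero
  mul_assoc := mul_assoc h
  one_mul := one_mul h
  mul_one := mul_one h
  mul_comm := mul_comm h

/-- truncated subtraction -/
@[reducible] noncomputable def sub (N : Type u) [Zero N] [Add N] : Sub N := by
  classical
  exact ⟨fun a b => if hab : ∃ c, b + c = a then hab.choose else 0⟩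

end order

end Raw

open Raw in
/-- every model of `RCA₀` is a `Mdl`, with the given operations, order and sets -/
@[reducible] noncomputable def mkMdl (N : Type u) [Zero N] [One N] [Add N] [Mul N] [LT N]
    (S : Set (Set N)) [h : RCA0 N S] : Mdl N :=
  letI s : CommSemiring N := Raw.semiring h
  letI o : LinearOrder N := Raw.order h
  letI b : Sub N := Raw.sub N
  have hle : ∀ a b : N, a ≤ b ↔ ∃ c, a + c = b := by
    intro a b
    constructor
    · rintro (hab | rfl)
      · obtain ⟨k, hk⟩ := (Raw.lt_iff h a b).1 hab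
        exact ⟨_, hk⟩
      · exact ⟨0, h.add_zero a⟩
    · rintro ⟨c, rfl⟩
      rcases Raw.zero_or_succ h c with rfl | ⟨k, rfl⟩
      · exact Or.inr (h.add_zero a).symm
      · exact Or.inl ((Raw.lt_iff h _ _).2 ⟨k, rfl⟩)
  have hlt : ∀ a b c : N, a < b → c + a < c + b := fun a b c hab => Raw.add_lt_add_left h hab c
  have hmul : ∀ a b c : N, a < b → 0 < c → c * a < c * b :=
    fun a b c hab hc => Raw.mul_lt_mul_left h hab hc
  have hleft : ∀ a b : N, a ≤ b → ∀ c, c + a ≤ c + b := by
    rintro a b (hab | rfl) c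
    · exact Or.inl (hlt a b c hab)
    · exact Or.inr rfl
  have hcan : ∀ a b c : N, c + a ≤ c + b → a ≤ b := by
    intro a b c hab
    rcases Raw.trichotomy h a b with h1 | h1 | h1
    · exact Or.inl h1
    · exact Or.inr h1
    · exfalso
      have h2 := hlt b a c h1
      rcases hab with h3 | h3
      · exact Raw.lt_irrefl h _ (Raw.lt_trans h h2 h3)
      · exact Raw.lt_irrefl h _ (h3 ▸ h2)
  have i1 : IsStrictOrderedRing N := by
    refine
      { add_le_add_left := ?_
        le_of_add_le_add_left := ?_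
        zero_le_one := ?_
        exists_pair_ne := ?_
        mul_lt_mul_of_pos_left := ?_
        mul_lt_mul_of_pos_right := ?_ }
    · intro a b hab c
      have := hleft a b hab c
      rwa [Raw.add_comm h c a, Raw.add_comm h c b] at this
    · intro a b c hbc
      exact hcan b c a hbc
    · rcases Raw.zero_lt_or h (1 : N) with h1 | h1
      · exact Or.inl h1
      · exact Or.inr h1
    · refine ⟨0, 1, fun h1 => ?_⟩
      have := h.succ_ne_zero 0
      rw [Raw.zero_add h] at this
      exact this h1.symm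
    · intro a ha b c hbc
      exact hmul b c a hbc ha
    · intro c hc a b hab
      have := hmul a b c hab hc
      rwa [Raw.mul_comm h c a, Raw.mul_comm h c b] at this
  have i2 : CanonicallyOrderedAdd N := by
    refine
      { exists_add_of_le := ?_
        le_add_self := ?_
        le_self_add := ?_ }
    · intro a b hab
      obtain ⟨c, hc⟩ := (hle a b).1 hab
      exact ⟨c, hc.symm⟩
    · intro a b
      exact (hle _ _).2 ⟨b, Raw.add_comm h a b⟩
    · intro a b
      exact (hle _ _).2 ⟨b, rfl⟩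
  have i3 : OrderedSub N := by
    refine ⟨fun x y z => ?_⟩
    by_cases hab : ∃ c, y + c = x
    · have e : x - y = hab.choose := dif_pos hab
      have e2 := hab.choose_spec
      rw [← e] at e2
      have e3 : y + (x - y) ≤ y + z ↔ x - y ≤ z := ⟨hcan _ _ y, fun h1 => hleft _ _ h1 y⟩
      rw [e2] at e3
      rw [← e3, Raw.add_comm h y z]
    · have e : x - y = 0 := dif_neg hab
      rw [e]
      constructor
      · intro _
        have h1 : x ≤ y := by
          rcases le_total y x with h2 | h2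
          · exact absurd ((hle y x).1 h2) hab
          · exact h2
        exact le_trans h1 ((hle _ _).2 ⟨z, Raw.add_comm h y z⟩)
      · intro _
        exact (hle _ _).2 ⟨z, Raw.zero_add h z⟩
  { s, o, i1, i2, b, i3 with
    sets := S
    rca := h }

end Pool.Agent.Helper7.RM
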