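import Mathlib
import Pool.Agent.Helper7.RM.Final
import Pool.Agent.Helper7.RM.ArithC
import Pool.Agent.Helper7.RM.Raw

/-! The main theorem. -/

namespace Pool.Agent.Helper7.RM

universe u


theorem main (N : Type u) [Zero N] [One N] [Add N] [Mul N] [LT N] (S : Set (Set N))
    (h : RCA0 N S) (hht : HT22 N S) : ACA0 N S := by
  haveI := h
  refine ⟨h, fun φ v V hV => ?_⟩
  letI M := mkMdl N S
  exact @arith_comp N M (fun P hP => @sigma_mem N M hht P hP) φ v V hV


end Pool.Agent.Helper7.RM
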